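import Pool.Agent.MP_609e33_gt.h62.Spec

/-!
The kernel of a connected covering group of the symplectic group is cyclic.
-/

set_option autoImplicit false

open Matrix Module Set Topology Filter NormedSpace

namespace Pool.Agent.MP_609e33_gt.Up

variable {g : ℕ}

open scoped Matrix.Norms.L2Operator in
lemma exp_fn {T : Mat g} (h : Tᵀ = T) : exp T = fn Real.exp T :=
  (CFC.real_exp_eq_normedSpace_exp (sa h)).symm

lemma exp_inj {X Y : Mat g} (hX : Xᵀ = X) (hY : Yᵀ = Y) (h : exp X = exp Y) : X = Y := by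
  have : ∀ Z : Mat g, Zᵀ = Z → fn Real.log (exp Z) = Z := fun Z hZ => by
    rw [exp_fn hZ, fn_fn hZ]
    simp only [Real.log_exp, fn_id hZ]
  rw [← this X hX, h, this Y hY]

attribute [local instance] Matrix.linftyOpNormedRing Matrix.linftyOpNormedAlgebra

lemma det_ne (A : Sp g) : (A : Mat g).det ≠ 0 := (SymplecticGroup.symplectic_det A.2).ne_zero

lemma sq_T (A : Mat g) : (Aᵀ * A)ᵀ = Aᵀ * A := by rw [transpose_mul, transpose_transpose]

open scoped MatrixOrder in
lemma spec_pos (A : Sp g) : spectrum ℝ (A.1ᵀ * A.1) ⊆ Ioi 0 := by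
  have h : PosDef (A.1ᴴ * A.1) := PosDef.conjTranspose_mul_self _
    (mulVec_injective_iff_isUnit.mpr ((isUnit_iff_isUnit_det _).mpr (det_ne A).isUnit))
  rw [conjTranspose_eq_transpose_of_trivial] at h
  exact fun x hx => h.isStrictlyPositive.spectrum_pos hx

/-- The logarithm of `Aᵀ A`. -/
noncomputable def lg (A : Mat g) : Mat g := fn Real.log (Aᵀ * A)

lemma exp_lg (A : Sp g) : exp (lg A.1) = A.1ᵀ * A.1 := by
  rw [lg, exp_fn (fn_T _ _), fn_fn (sq_T _)]
  exact (fn_congr fun x hx => Real.exp_log (spec_pos A hx)).trans (fn_id (sq_T _))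

lemma lg_mem (A : Sp g) : lg A.1 ∈ pp g := by
  have h1 : (lg A.1)ᵀ = lg A.1 := fn_T _ _
  have hu : IsUnit (JJ g) := (isUnit_iff_isUnit_det _).mpr (isUnit_det_J _ _)
  have hi : (JJ g)⁻¹ = -JJ g := J_inv _ _
  have hq := SymplecticGroup.mem_iff'.mp (mul_mem (SymplecticGroup.transpose_mem A.2) A.2)
  rw [sq_T, ← exp_lg] at hq
  have h2 : JJ g * lg A.1 * (JJ g)⁻¹ = -lg A.1 := by
    refine exp_inj ?_ (by rw [transpose_neg, h1]) ?_
    · rw [hi, transpose_mul, transpose_mul, transpose_neg, JJ_T, h1, neg_neg, mul_neg, mul_neg,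
        mul_neg, Matrix.mul_assoc]
    · rw [Matrix.exp_conj _ _ hu, ← one_mul (JJ g * _ * _), ← exp_neg_mul (lg A.1),
        Matrix.mul_assoc, ← Matrix.mul_assoc (exp (lg A.1)), ← Matrix.mul_assoc (exp (lg A.1)), hq,
        Matrix.mul_nonsing_inv _ (isUnit_det_J _ _), mul_one]
  refine ⟨h1, ?_⟩
  rw [hi, mul_neg, neg_inj] at h2
  nth_rewrite 1 [← h2]
  rw [mul_JJ]

/-- The symmetric part of the polar decomposition. -/
noncomputable def px (A : Sp g) : sp g := (2⁻¹ : ℝ) • ⟨lg A.1, pp_le_sp (lg_mem A)⟩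

/-- The orthogonal part of the polar decomposition. -/
noncomputable def un (A : Sp g) : Mat g := A.1 * exp (-(px A).1)

lemma un_mul (A : Sp g) : un A * exp (px A).1 = A.1 := by
  rw [un, Matrix.mul_assoc, exp_neg_mul, mul_one]

lemma un_orth (A : Sp g) : (un A)ᵀ * un A = 1 := by
  have h1 : (px A).1ᵀ = (px A).1 := ((pp g).smul_mem _ (lg_mem A)).1
  have h2 : lg A.1 = (px A).1 + (px A).1 := by
    rw [px, Submodule.coe_smul, ← add_smul]
    norm_num
  rw [un, transpose_mul, ← Matrix.exp_transpose, transpose_neg, h1, Matrix.mul_assoc,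
    ← Matrix.mul_assoc A.1ᵀ, ← exp_lg, h2, Matrix.exp_add_of_commute _ _ (Commute.refl _),
    Matrix.mul_assoc, exp_mul_neg, mul_one, exp_neg_mul]

lemma un_J (A : Sp g) : JJ g * un A = un A * JJ g := by
  have h1 : un A ∈ symplecticGroup (Fin g) ℝ := mul_mem A.2 (exp_mem ((sp g).neg_mem (px A).2))
  rw [← one_mul (JJ g * _), ← mul_eq_one_comm.mp (un_orth A), Matrix.mul_assoc,
    ← Matrix.mul_assoc (un A)ᵀ, SymplecticGroup.mem_iff'.mp h1]

lemma continuous_px : Continuous (px (g := g)) := by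
  have h : Continuous fun A : Sp g => lg A.1 := by
    rw [← continuousOn_univ]
    exact continuousOn_fn isOpen_Ioi (Real.continuousOn_log.mono fun x hx => ne_of_gt hx)
      (by fun_prop) (fun A _ => sq_T _) fun A _ => spec_pos A
  exact (h.subtype_mk fun A => pp_le_sp (lg_mem A)).const_smul (2⁻¹ : ℝ)

lemma continuous_un : Continuous (un (g := g)) :=
  continuous_subtype_val.mul (exp_continuous.comp (continuous_subtype_val.comp continuous_px).neg)

lemma px_one : px (1 : Sp g) = 0 := by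
  have : lg (1 : Mat g) = 0 := by
    refine exp_inj (fn_T _ _) (by simp) ?_
    rw [exp_zero]
    simpa using exp_lg (1 : Sp g)
  apply Subtype.ext
  simp [px, this]

lemma un_one : un (1 : Sp g) = 1 := by simp [un, px_one]

/-- The logarithm of a unitary matrix with cut at the angle `θ + π`. -/
noncomputable def ang (θ : ℝ) (u : Mat g) : Mat g :=
  θ • 1 + fn (fun x => 2 * Real.arctan x) (cay (rr g (-θ) * u))

lemma ang_T (θ : ℝ) (u : Mat g) : (ang θ u)ᵀ = ang θ u := by
  rw [ang, transpose_add, transpose_smul, transpose_one, fn_T]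

lemma ang_comm {θ : ℝ} {u Y : Mat g} (hd : (rr g (-θ) * u + 1).det ≠ 0) (h1 : Commute u Y)
    (h2 : Commute (JJ g) Y) : Commute (ang θ u) Y :=
  ((Commute.one_left Y).smul_left θ).add_left (fn_comm (cay_comm hd
    ((((Commute.one_left Y).smul_left _).add_left (h2.smul_left _)).mul_left h1) h2) _)

lemma exp_ang {θ : ℝ} {u : Mat g} (hd : (rr g (-θ) * u + 1).det ≠ 0) (hu : uᵀ * u = 1)
    (hJ : JJ g * u = u * JJ g) : exp (JJ g * ang θ u) = u := by
  have h1 : JJ g * (rr g (-θ) * u) = rr g (-θ) * u * JJ g := lin_mul (rr_J _) hJ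
  have h2 : Commute (fn (fun x => 2 * Real.arctan x) (cay (rr g (-θ) * u))) (JJ g) :=
    fn_comm (cay_comm hd h1.symm (Commute.refl _)) _
  rw [ang, mul_add, mul_smul_comm, mul_one, Matrix.exp_add_of_commute _ _
    (((Commute.refl _).mul_right h2.symm).smul_left θ), exp_rr, exp_cay hd _ h1,
    ← Matrix.mul_assoc, rr_mul_neg, one_mul]
  rw [transpose_mul, rr_T, neg_neg, Matrix.mul_assoc, ← Matrix.mul_assoc (rr g θ), rr_mul_neg,
    one_mul, hu]

lemma exists_cut {u : Mat g} (hu : uᵀ * u = 1) (hJ : JJ g * u = u * JJ g) :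
    ∃ θ, (rr g (-θ) * u + 1).det ≠ 0 := by
  obtain ⟨θ, hθ⟩ := exists_angle ((2⁻¹ : ℝ) • (u + uᵀ))
  refine ⟨θ, det_ne_zero_of_ker fun v hv => hθ v ?_⟩
  rw [add_mulVec, one_mulVec, add_eq_zero_iff_eq_neg] at hv
  have h1 : u *ᵥ v = -(rr g θ *ᵥ v) := by
    rw [← mulVec_neg, ← hv, mulVec_mulVec, ← Matrix.mul_assoc, rr_mul_neg, one_mul]
  have hc : Commute uᵀ (rr g (-θ)) :=
    ((Commute.one_right _).smul_right _).add_right (Commute.smul_right (lin_T hJ).symm _)
  have h2 : uᵀ *ᵥ v = -(rr g (-θ) *ᵥ v) := by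
    rw [← neg_eq_iff_eq_neg, ← mulVec_neg, ← hv, mulVec_mulVec, ← Matrix.mul_assoc, hc.eq,
      Matrix.mul_assoc, hu, mul_one]
  rw [smul_mulVec, add_mulVec, h1, h2, rr, rr, Real.cos_neg, Real.sin_neg]
  simp only [add_mulVec, smul_mulVec, one_mulVec]
  module

lemma continuousOn_ang (θ : ℝ) :
    ContinuousOn (fun A : Sp g => ang θ (un A)) {A | (rr g (-θ) * un A + 1).det ≠ 0} := by
  have hc := continuous_un (g := g)
  refine continuousOn_const.add (continuousOn_fn isOpen_univ (by fun_prop) ?_ (fun A hA => ?_)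
    fun _ _ => subset_univ _)
  · refine (continuousOn_const.mul (ContinuousOn.mul (fun A hA => ?_) (by fun_prop))).neg
    exact ((contDiffAt_minv hA).continuousAt.comp (f := fun A => rr g (-θ) * un A + 1)
      (by fun_prop)).continuousWithinAt
  · refine cay_T hA ?_ (lin_mul (rr_J _) (un_J A))
    rw [transpose_mul, rr_T, neg_neg, Matrix.mul_assoc, ← Matrix.mul_assoc (rr g θ), rr_mul_neg,
      one_mul, un_orth]

variable {G : Type*} [Group G] [TopologicalSpace G] [IsTopologicalGroup G] {π : G →* Sp g}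
  (L : ExpLift π)

lemma e_sum {Z : Subgroup G} {ι : Type} (s : Finset ι) (X : ι → sp g)
    (hc : ∀ i j, Commute (X i).1 (X j).1) (h : ∀ i ∈ s, L.e (X i) ∈ Z) : L.e (∑ i ∈ s, X i) ∈ Z := by
  classical
  induction s using Finset.induction_on with
  | empty => simp [L.zero]
  | insert a s ha ih =>
    rw [Finset.sum_insert ha, L.e_add]
    · exact Z.mul_mem (h a (Finset.mem_insert_self _ _))
        (ih fun i hi => h i (Finset.mem_insert_of_mem hi))
    · rw [Submodule.coe_sum]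
      exact Commute.sum_right _ _ _ fun i _ => hc a i

lemma e_zsmul (X : sp g) (n : ℤ) : L.e ((n : ℝ) • X) = L.e X ^ n := by
  obtain ⟨m, rfl | rfl⟩ := n.eq_nat_or_neg
  · rw [Int.cast_natCast, L.e_nsmul, zpow_natCast]
  · rw [Int.cast_neg, Int.cast_natCast, _root_.zpow_neg, zpow_natCast, ← L.e_nsmul,
      eq_inv_iff_mul_eq_one, ← L.e_add_smul, neg_add_cancel, zero_smul, L.zero]

lemma e_mem {Z : Subgroup G} (hZ : ∀ (P : Mat g) (h1 : Pᵀ = P) (h2 : JJ g * P = P * JJ g),
      P * P = P → L.e ((2 * Real.pi) • rot P h1 h2) ∈ Z)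
    {T : Mat g} (h : Tᵀ = T) (hJ : JJ g * T = T * JJ g) (he : exp (JJ g * T) = 1) :
    L.e (rot T h hJ) ∈ Z := by
  have hp : ∀ l, JJ g * pj T l = pj T l * JJ g := fun l => (fn_comm (Y := JJ g) hJ.symm _).eq.symm
  have h1 : rot T h hJ = ∑ l ∈ spc T, l • rot (pj T l) (fn_T _ _) (hp l) := by
    apply Subtype.ext
    rw [Submodule.coe_sum]
    change JJ g * T = ∑ l ∈ spc T, l • (JJ g * pj T l)
    nth_rewrite 1 [← fn_id h]
    rw [fn_eq_sum, Finset.mul_sum]
    simp only [mul_smul_comm]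
  rw [h1]
  refine e_sum L _ _ (fun i j => ?_) fun l hl => ?_
  · refine (Commute.smul_left ?_ _).smul_right _
    exact ((Commute.refl _).mul_right (hp j)).mul_left (Commute.mul_right (hp i).symm (pj_comm T i j))
  · obtain ⟨n, hn⟩ := (Real.cos_eq_one_iff l).mp (cos_eq_one h hJ he l hl)
    have := Z.zpow_mem (hZ (pj T l) (fn_T _ _) (hp l) (pj_pj T l)) n
    rwa [← e_zsmul, smul_smul, hn] at this

open Classical in
/-- Local sections of the covering. -/
noncomputable def sec (θ : ℝ) (A : Sp g) : G :=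
  L.e (if h : (rr g (-θ) * un A + 1).det ≠ 0 then
    rot (ang θ (un A)) (ang_T _ _) (ang_comm h (un_J A).symm (Commute.refl _)).eq.symm else 0) *
    L.e (px A)

omit [IsTopologicalGroup G] in
lemma π_sec {θ : ℝ} {A : Sp g} (h : (rr g (-θ) * un A + 1).det ≠ 0) : π (sec L θ A) = A := by
  apply Subtype.ext
  rw [sec, dif_pos h, map_mul, Submonoid.coe_mul, L.lifts, L.lifts]
  change exp (JJ g * ang θ (un A)) * _ = _
  rw [exp_ang h (un_orth A) (un_J A), un_mul]

lemma continuousOn_sec (θ : ℝ) :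
    ContinuousOn (sec L θ) {A | (rr g (-θ) * un A + 1).det ≠ 0} := by
  refine (L.cont.comp_continuousOn ?_).mul (L.cont.comp continuous_px).continuousOn
  rw [IsInducing.subtypeVal.continuousOn_iff]
  refine ((continuousOn_const (c := JJ g)).mul (continuousOn_ang θ)).congr fun A hA => ?_
  rw [Function.comp_apply, dif_pos (show (rr g (-θ) * un A + 1).det ≠ 0 from hA)]
  rfl

theorem ker_le [PreconnectedSpace G] {Z : Subgroup G}
    (hZ : ∀ (P : Mat g) (h1 : Pᵀ = P) (h2 : JJ g * P = P * JJ g),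
      P * P = P → L.e ((2 * Real.pi) • rot P h1 h2) ∈ Z) {a : G} (ha : π a = 1) : a ∈ Z := by
  have h1 : ∀ (A : Sp g) (θ θ' : ℝ), (rr g (-θ) * un A + 1).det ≠ 0 →
      (rr g (-θ') * un A + 1).det ≠ 0 → sec L θ A * (sec L θ' A)⁻¹ ∈ Z := by
    intro A θ θ' h h'
    have c1 : Commute (ang θ (un A)) (JJ g) := ang_comm h (un_J A).symm (Commute.refl _)
    have c2 : Commute (ang θ' (un A)) (JJ g) := ang_comm h' (un_J A).symm (Commute.refl _)
    have c3 : Commute (ang θ (un A)) (ang θ' (un A)) :=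
      ang_comm h (ang_comm h' (Commute.refl _) (un_J A)).symm c2.symm
    have c4 : Commute (JJ g * (ang θ (un A) - ang θ' (un A))) (JJ g * ang θ' (un A)) :=
      ((Commute.refl _).mul_right c2.symm).mul_left
        ((c1.sub_left c2).mul_right (c3.sub_left (Commute.refl _)))
    have t1 : (ang θ (un A) - ang θ' (un A))ᵀ = ang θ (un A) - ang θ' (un A) := by
      rw [transpose_sub, ang_T, ang_T]
    have e1 : rot (ang θ (un A)) (ang_T _ _) c1.eq.symm = rot _ t1 (c1.sub_left c2).eq.symm +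
        rot (ang θ' (un A)) (ang_T _ _) c2.eq.symm :=
      Subtype.ext (by simp [rot, mul_sub])
    rw [sec, sec, dif_pos h, dif_pos h', _root_.mul_inv_rev, mul_assoc, mul_inv_cancel_left, e1,
      L.e_add _ _ c4, mul_inv_cancel_right]
    refine e_mem L hZ _ _ ?_
    have e2 := Matrix.exp_add_of_commute _ _ c4
    rw [← mul_add, sub_add_cancel, exp_ang h (un_orth A) (un_J A),
      exp_ang h' (un_orth A) (un_J A)] at e2
    rw [← mul_one (exp _), ← mul_eq_one_comm.mp (un_orth A), ← Matrix.mul_assoc, ← e2]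
  let Q : G → Prop := fun b => ∀ θ, (rr g (-θ) * un (π b) + 1).det ≠ 0 →
    b * (sec L θ (π b))⁻¹ ∈ Z
  have h2 : ∀ b θ, (rr g (-θ) * un (π b) + 1).det ≠ 0 → (Q b ↔ b * (sec L θ (π b))⁻¹ ∈ Z) := by
    intro b θ h
    refine ⟨fun hq => hq θ h, fun hq θ' h' => ?_⟩
    simpa [mul_assoc] using Z.mul_mem hq (h1 _ θ θ' h h')
  have h3 : IsLocallyConstant Q := by
    rw [IsLocallyConstant.iff_eventually_eq]
    intro b
    obtain ⟨θ, hθ⟩ := exists_cut (un_orth (π b)) (un_J (π b))
    have hc := continuous_un (g := g)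
    have ho : IsOpen {A : Sp g | (rr g (-θ) * un A + 1).det ≠ 0} :=
      isOpen_ne_fun (by fun_prop) continuous_const
    have hπ := L.cov.continuous
    have k1 : ∀ᶠ c in 𝓝 b, (rr g (-θ) * un (π c) + 1).det ≠ 0 :=
      hπ.continuousAt.eventually (ho.mem_nhds hθ)
    have k2 : ContinuousAt (fun c => c * (sec L θ (π c))⁻¹) b :=
      continuousAt_id.mul (((continuousOn_sec L θ).continuousAt (ho.mem_nhds hθ)).comp
        hπ.continuousAt).inv
    obtain ⟨O, hO, hO1, hO2⟩ := L.cov.isLocalHomeomorph.isLocallyInjective (b * (sec L θ (π b))⁻¹)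
    filter_upwards [k1, k2.eventually (hO.mem_nhds hO1)] with c hc1 hc2
    rw [eq_iff_iff, h2 c θ hc1, h2 b θ hθ, hO2 hc2 hO1]
    rw [map_mul, map_mul, map_inv, map_inv, π_sec L hc1, π_sec L hθ, mul_inv_cancel,
      mul_inv_cancel]
  obtain ⟨θ, hθ⟩ := exists_cut (un_orth (1 : Sp g)) (un_J 1)
  have h4 : sec L θ 1 ∈ Z := by
    rw [sec, dif_pos hθ, px_one, L.zero, mul_one]
    refine e_mem L hZ _ _ ?_
    rw [exp_ang hθ (un_orth 1) (un_J 1), un_one]
  have h5 : Q 1 := (h2 1 θ (by rwa [map_one])).mpr (by simpa using h4)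
  rw [h3.apply_eq_of_preconnectedSpace 1 a, h2 a θ (by rwa [ha]), ha] at h5
  simpa using Z.mul_mem h5 h4

end Pool.Agent.MP_609e33_gt.Up
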