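import Mathlib.Analysis.SpecialFunctions.Complex.LogDeriv
import Mathlib.NumberTheory.Real.Irrational
import Pool.Agent.MP_609e33_gt.h62.Ker

/-!
The logarithm of the automorphy factor on a simply connected covering group.
-/

set_option autoImplicit false

open Matrix Module Set Topology Filter NormedSpace
open scoped Manifold ContDiff

namespace Pool.Agent.MP_609e33_gt.Up

attribute [local instance] Matrix.linftyOpNormedRing Matrix.linftyOpNormedAlgebra

variable {g : ℕ}

lemma eq_of_exp {X : Type*} [TopologicalSpace X] [PreconnectedSpace X] {f f' : X → ℂ}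
    (hf : Continuous f) (hf' : Continuous f') (h : ∀ x, Complex.exp (f x) = Complex.exp (f' x))
    (x₀ : X) (h0 : f x₀ = f' x₀) (x : X) : f x = f' x :=
  congrFun (Complex.isCoveringMap_exp.eq_of_comp_eq hf hf'
    (funext fun x => Subtype.ext (h x)) x₀ h0) x

section

variable {V : Type*} [NormedAddCommGroup V] [NormedSpace ℝ V] {H : Type*}
  [TopologicalSpace H] {I : ModelWithCorners ℝ V H} {N : Type*} [TopologicalSpace N]
  [ChartedSpace H N]

/-- Smooth maps into a normed space. -/
abbrev Sm (I : ModelWithCorners ℝ V H) {E : Type} [NormedAddCommGroup E] [NormedSpace ℝ E]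
    (f : N → E) : Prop := ContMDiff I 𝓘(ℝ, E) ∞ f

lemma Sm.comp' {E E' : Type} [NormedAddCommGroup E] [NormedSpace ℝ E] [NormedAddCommGroup E']
    [NormedSpace ℝ E'] {f : N → E} (hf : Sm I f) {F : E → E'}
    (hF : ∀ x, ContDiffAt ℝ ∞ F (f x)) : Sm I fun x => F (f x) :=
  fun x => (hF x).comp_contMDiffAt (hf x)

lemma Sm.pair {E E' : Type} [NormedAddCommGroup E] [NormedSpace ℝ E] [NormedAddCommGroup E']
    [NormedSpace ℝ E'] {f : N → E} (hf : Sm I f) {f' : N → E'} (hf' : Sm I f') :
    Sm I fun x => (f x, f' x) :=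
  ContMDiff.prodMk_space hf hf'

lemma contMDiff_of_exp {f : N → ℂ} (hf : Continuous f)
    (h : Sm I fun x => Complex.exp (f x)) : Sm I f := by
  intro x
  have h1 : ContDiffAt ℝ ∞ (fun w : ℂ => f x + Complex.log (w * Complex.exp (-f x)))
      (Complex.exp (f x)) := by
    refine contDiffAt_const.add (ContDiffAt.comp (g := Complex.log) _ ?_ (by fun_prop))
    rw [← Complex.exp_add, add_neg_cancel, Complex.exp_zero]
    exact (Complex.contDiffAt_log Complex.one_mem_slitPlane).restrict_scalars ℝ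
  refine (h1.contMDiffAt.comp (f := fun x => Complex.exp (f x)) x (h x)).congr_of_eventuallyEq ?_
  have h2 : ContinuousAt (fun y => (f y + -f x).im) x := by fun_prop
  have h3 : Ioo (-Real.pi) Real.pi ∈ 𝓝 (f x + -f x).im := by
    rw [add_neg_cancel, Complex.zero_im]
    exact Ioo_mem_nhds (by linarith [Real.pi_pos]) Real.pi_pos
  filter_upwards [h2.eventually h3] with y hy
  rw [Function.comp_apply, ← Complex.exp_add, Complex.log_exp hy.1 hy.2.le]
  ring

lemma contMDiff_mat {m : Type} [Fintype m] [DecidableEq m] {f : N → Matrix m m ℝ}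
    (h : ∀ i j, ContMDiff I 𝓘(ℝ, ℝ) ∞ fun x => f x i j) : Sm I f :=
  (arr m).symm.contDiff.comp_contMDiff (f := fun x i j => f x i j)
    (contMDiff_pi_space.mpr fun i => contMDiff_pi_space.mpr fun j => h i j)

end

/-- The action on the Lagrangian Grassmannian. -/
noncomputable def mobL (A : Sp g) (W : Lam g) : Lam g := ⟨mob A.1 W.1, mob_mem A.2 W.2⟩

lemma continuous_mobL : Continuous fun p : Sp g × Lam g => mobL p.1 p.2 := by
  refine Continuous.subtype_mk (continuous_iff_continuousAt.mpr fun p => ?_) _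
  exact (contDiffAt_mob (p := (p.1.1, p.2.1)) (det_den' p.1.2 p.2.2)).continuousAt.comp
    (f := fun p : Sp g × Lam g => (p.1.1, p.2.1)) (by fun_prop)

lemma mobL_one (W : Lam g) : mobL 1 W = W := Subtype.ext (mob_one W.2.1)

lemma mobL_mul (A B : Sp g) (W : Lam g) : mobL (A * B) W = mobL A (mobL B W) :=
  Subtype.ext (mob_mul A.2 B.2 W.2).1

variable {G : Type*} [Group G] [TopologicalSpace G]

/-- A continuous logarithm of the automorphy factor. -/
structure Coc (π : G →* Sp g) where
  c : G × Lam g → ℂ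
  cont : Continuous c
  ex : ∀ a W, Complex.exp (c (a, W)) = cdet (den (π a).1 W.1)
  one : ∀ W, c (1, W) = 0

lemma exists_coc [SimplyConnectedSpace G] [LocallyPathConnectedSpace G] {π : G →* Sp g}
    (hπ : Continuous π) : Nonempty (Coc π) := by
  have cov := Complex.isCoveringMap_exp
  have h1 := (contDiff_cdet (g := g)).continuous.comp contDiff_den.continuous
  let f : C(G, {z : ℂ // z ≠ 0}) := ⟨fun a => ⟨cdet (den (π a).1 0), cdet_ne_zero (lin_J _)
    (det_den (π a).2 (pp g).zero_mem zero_le_one (by simp))⟩,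
    (h1.comp (f := fun a : G => ((π a).1, (0 : Mat g))) (by fun_prop)).subtype_mk _⟩
  obtain ⟨φ, ⟨h2, h3⟩, -⟩ := cov.existsUnique_continuousMap_lifts f 1 0 (Subtype.ext (by
    change Complex.exp 0 = cdet (den (π 1).1 0)
    rw [map_one, OneMemClass.coe_one, den_of_lin (by simp) (pp g).zero_mem, cdet_one,
      Complex.exp_zero]))
  let K : C(unitInterval × (G × Lam g), {z : ℂ // z ≠ 0}) :=
    ⟨fun p => ⟨cdet (den (π p.2.1).1 ((p.1 : ℝ) • p.2.2.1)), cdet_ne_zero (lin_J _)
      (det_den_smul (π p.2.1).2 p.2.2.2 p.1.2.1 p.1.2.2)⟩,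
      (h1.comp (f := fun p : unitInterval × (G × Lam g) =>
        ((π p.2.1).1, (p.1 : ℝ) • p.2.2.1))
        (by fun_prop)).subtype_mk _⟩
  have h0 : ∀ p : G × Lam g, K (0, p) = ⟨_, Complex.exp_ne_zero
      ((φ.comp ContinuousMap.fst : C(G × Lam g, ℂ)) p)⟩ := fun p => by
    refine Eq.trans (Subtype.ext ?_) (congrFun h3 p.1).symm
    change cdet (den _ ((0 : ℝ) • _)) = cdet (den _ 0)
    rw [zero_smul]
  let F := cov.liftHomotopy K (φ.comp ContinuousMap.fst) h0
  have h4 : ∀ p, Complex.exp (F p) = (K p).1 := fun p =>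
    congrArg Subtype.val (congrFun (cov.liftHomotopy_lifts K _ h0) p)
  refine ⟨⟨fun p => F (1, p), by fun_prop, fun a W => ?_, fun W => ?_⟩⟩
  · rw [h4]
    change cdet (den _ ((1 : ℝ) • _)) = _
    rw [one_smul]
  · refine eq_of_exp (f := fun t : unitInterval => F (t, (1, W))) (f' := fun _ => 0)
      (by fun_prop) continuous_const (fun t => ?_) 0 ((cov.liftHomotopy_zero K _ h0 _).trans h2) 1
    rw [h4]
    change cdet (den (π 1).1 _) = _
    rw [map_one, OneMemClass.coe_one, den_of_lin (by simp) ((pp g).smul_mem _ W.2.1), cdet_one,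
      Complex.exp_zero]

namespace Coc

variable [IsTopologicalGroup G] {π : G →* Sp g} (C : Coc π)

lemma mul [PreconnectedSpace G] (a b : G) (W : Lam g) :
    C.c (a * b, W) = C.c (a, mobL (π b) W) + C.c (b, W) := by
  have h1 := C.cont
  have h2 : Continuous fun a : G => C.c (a, mobL (π b) W) := by fun_prop
  refine eq_of_exp (f := fun a : G => C.c (a * b, W))
    (f' := fun a : G => C.c (a, mobL (π b) W) + C.c (b, W)) (by fun_prop) (by fun_prop)
    (fun a => ?_) 1 (by rw [one_mul, C.one, zero_add]) a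
  rw [Complex.exp_add, C.ex, C.ex, C.ex, map_mul, Submonoid.coe_mul,
    (mob_mul (π a).2 (π b).2 W.2).2]
  exact cdet_mul (lin_J _) _

omit [IsTopologicalGroup G] in
lemma rot_eq (L : ExpLift π) (W : Lam g) (t : ℝ) :
    C.c (L.e (t • rot 1 (by simp) (by simp)), W) = g * (t * Complex.I) := by
  have h1 := C.cont
  have h2 := L.cont
  refine eq_of_exp (f := fun t : ℝ => C.c (L.e (t • rot 1 (by simp) (by simp)), W))
    (f' := fun t : ℝ => g * (t * Complex.I)) (by fun_prop) (by fun_prop) (fun t => ?_) 0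
    (by simp [L.zero, C.one]) t
  rw [C.ex, L.lifts]
  change cdet (den (exp (t • (JJ g * 1))) _) = _
  rw [mul_one, exp_rr, den_of_lin (rr_J _) W.2.1, cdet_rr]

end Coc

end Pool.Agent.MP_609e33_gt.Up
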