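import Mathlib.Geometry.Manifold.Algebra.LieGroup
import Mathlib.Geometry.Manifold.Instances.Real
import Mathlib.Analysis.InnerProductSpace.PiL2
import Mathlib.LinearAlgebra.SymplecticGroup
import Mathlib.Topology.Instances.Matrix
import Mathlib.Topology.Covering.Basic
import Mathlib.AlgebraicTopology.FundamentalGroupoid.SimplyConnected

/-!
The universal covering group of `Sp(2g, ℝ)` and its faithful actions on manifolds.
-/

set_option autoImplicit false

open scoped Manifold ContDiff

namespace Pool.Agent.MP_609e33_gt

universe u v

/-- A universal covering group of `Sp(2g, ℝ)`: a simply connected Lie group `G` (of dimension `n`)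
with a surjective homomorphism onto `Sp(2g, ℝ)` that is a covering map with smooth entries. -/
structure UnivCover (g : ℕ) : Type (u + 1) where
  G : Type u
  [group : Group G]
  [top : TopologicalSpace G]
  n : ℕ
  [charts : ChartedSpace (EuclideanSpace ℝ (Fin n)) G]
  [lie : LieGroup (𝓡 n) ∞ G]
  [simplyConnected : SimplyConnectedSpace G]
  π : G →* Matrix.symplecticGroup (Fin g) ℝ
  covering : IsCoveringMap π
  surjective : Function.Surjective π
  smooth : ∀ i j, ContMDiff (𝓡 n) 𝓘(ℝ, ℝ) ∞
    fun a => (π a : Matrix (Fin g ⊕ Fin g) (Fin g ⊕ Fin g) ℝ) i j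

attribute [instance] UnivCover.group UnivCover.top UnivCover.charts UnivCover.lie
  UnivCover.simplyConnected

/-- A faithful action of class `C^k` of `U.G` on a Hausdorff `C^k` manifold `M` of dimension `d`
without boundary. -/
structure FaithfulAction {g : ℕ} (U : UnivCover.{u} g) (k : WithTop ℕ∞) (d : ℕ) :
    Type (max u (v + 1)) where
  M : Type v
  [top : TopologicalSpace M]
  [t2 : T2Space M]
  [charts : ChartedSpace (EuclideanSpace ℝ (Fin d)) M]
  [manifold : IsManifold (𝓡 d) k M]
  [action : MulAction U.G M]
  smooth : ContMDiff ((𝓡 U.n).prod (𝓡 d)) (𝓡 d) k fun p : U.G × M => p.1 • p.2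
  faithful : FaithfulSMul U.G M

attribute [instance] FaithfulAction.top FaithfulAction.t2 FaithfulAction.charts
  FaithfulAction.manifold FaithfulAction.action

end Pool.Agent.MP_609e33_gt
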