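import Mathlib.Analysis.LocallyConvex.Separation
import Mathlib.LinearAlgebra.Lagrange
import Pool.Agent.MP_609e33_gt.h62.Coc

/-!
Positive definite matrices and the symplectic group.
-/

set_option autoImplicit false

open Matrix Module Set Topology Filter NormedSpace

namespace Pool.Agent.MP_609e33_gt.Up

attribute [local instance] Matrix.linftyOpNormedRing Matrix.linftyOpNormedAlgebra

variable {g : ℕ}

/-- Positive semidefinite. -/
def PSD (S : Mat g) : Prop := Sᵀ = S ∧ ∀ v, 0 ≤ v ⬝ᵥ (S *ᵥ v)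

/-- Positive definite. -/
def PD (S : Mat g) : Prop := Sᵀ = S ∧ ∀ v, v ≠ 0 → 0 < v ⬝ᵥ (S *ᵥ v)

lemma PSD.zero {S : Mat g} (h : PSD S) {v : Fin g ⊕ Fin g → ℝ} (hv : v ⬝ᵥ (S *ᵥ v) = 0) :
    S *ᵥ v = 0 :=
  ((PosSemidef.of_dotProduct_mulVec_nonneg (sa h.1) h.2).dotProduct_mulVec_zero_iff v).mp hv

lemma PSD.conj {S : Mat g} (h : PSD S) (B : Mat g) : PSD (Bᵀ * S * B) :=
  ⟨by rw [transpose_mul, transpose_mul, h.1, transpose_transpose, Matrix.mul_assoc], fun v => by
    rw [← mulVec_mulVec, ← mulVec_mulVec, dot_T]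
    exact h.2 _⟩

lemma PD.conj {S : Mat g} (h : PD S) {B : Mat g} (hB : B.det ≠ 0) : PD (Bᵀ * S * B) :=
  ⟨by rw [transpose_mul, transpose_mul, h.1, transpose_transpose, Matrix.mul_assoc], fun v hv => by
    rw [← mulVec_mulVec, ← mulVec_mulVec, dot_T]
    exact h.2 _ fun h0 => hv (eq_zero_of_mulVec_eq_zero hB h0)⟩

lemma PD.one : PD (1 : Mat g) :=
  ⟨transpose_one, fun v hv => by
    rw [one_mulVec]
    exact (dot_nonneg v).lt_of_ne' (dot_pos hv)⟩

open scoped MatrixOrder in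
lemma PD.spec {S : Mat g} (h : PD S) : spectrum ℝ S ⊆ Ioi 0 := fun _ hx =>
  (PosDef.of_dotProduct_mulVec_pos (sa h.1) h.2).isStrictlyPositive.spectrum_pos hx

lemma PD.exp_log {S : Mat g} (h : PD S) : exp (fn Real.log S) = S := by
  rw [exp_fn (fn_T _ _), fn_fn h.1]
  exact (fn_congr fun x hx => Real.exp_log (h.spec hx)).trans (fn_id h.1)

lemma det_exp_ne (X : Mat g) : (exp X).det ≠ 0 :=
  (isUnit_det_of_right_inverse (exp_mul_neg X)).ne_zero

lemma exp_smul_add (X : Mat g) (s t : ℝ) : exp (s • X) * exp (t • X) = exp ((s + t) • X) := by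
  rw [add_smul, Matrix.exp_add_of_commute _ _ (((Commute.refl X).smul_left s).smul_right t)]

lemma exp_smul_T {X : Mat g} (h : Xᵀ = X) (s : ℝ) : (exp (s • X))ᵀ = exp (s • X) := by
  rw [← Matrix.exp_transpose, transpose_smul, h]

lemma mem_pp_of_exp {X : Mat g} (h1 : Xᵀ = X) (h : exp X * JJ g * exp X = JJ g) : X ∈ pp g := by
  have hu : IsUnit (JJ g) := (isUnit_iff_isUnit_det _).mpr (isUnit_det_J _ _)
  have hi : (JJ g)⁻¹ = -JJ g := J_inv _ _
  have h2 : JJ g * X * (JJ g)⁻¹ = -X := by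
    refine exp_inj ?_ (by rw [transpose_neg, h1]) ?_
    · rw [hi, transpose_mul, transpose_mul, transpose_neg, JJ_T, h1, neg_neg, mul_neg, mul_neg,
        mul_neg, Matrix.mul_assoc]
    · rw [Matrix.exp_conj _ _ hu, ← one_mul (JJ g * _ * _), ← exp_neg_mul X,
        Matrix.mul_assoc, ← Matrix.mul_assoc (exp X), ← Matrix.mul_assoc (exp X), h,
        Matrix.mul_nonsing_inv _ (isUnit_det_J _ _), mul_one]
  refine ⟨h1, ?_⟩
  rw [hi, mul_neg, neg_inj] at h2
  nth_rewrite 1 [← h2]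
  rw [mul_JJ]

/-- A positive definite form is Hermitian in a suitable symplectic basis. -/
lemma PD.exists_lin {S : Mat g} (h : PD S) :
    ∃ B : Sp g, JJ g * (B.1ᵀ * S * B.1) = B.1ᵀ * S * B.1 * JJ g := by
  obtain ⟨R, hR, hRd, rfl⟩ : ∃ R : Mat g, Rᵀ = R ∧ R.det ≠ 0 ∧ R * R = S :=
    ⟨exp ((2⁻¹ : ℝ) • fn Real.log S), exp_smul_T (fn_T _ _) _, det_exp_ne _, by
      rw [exp_smul_add]
      norm_num [h.exp_log]⟩
  set M := R * JJ g * R with hM
  have hMT : Mᵀ = -M := by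
    rw [hM, transpose_mul, transpose_mul, hR, JJ_T, neg_mul, mul_neg, Matrix.mul_assoc]
  have hMd : M.det ≠ 0 := by
    rw [hM, det_mul, det_mul]
    exact mul_ne_zero (mul_ne_zero hRd (isUnit_det_J _ _).ne_zero) hRd
  have hP : PD (Mᵀ * 1 * M) := PD.one.conj hMd
  obtain ⟨T, hT, hTd, hTM, hTT⟩ : ∃ T : Mat g, Tᵀ = T ∧ T.det ≠ 0 ∧ Commute T M ∧
      T * T * (T * T) * (M * M) = -1 := by
    refine ⟨exp ((-4⁻¹ : ℝ) • fn Real.log (Mᵀ * 1 * M)), exp_smul_T (fn_T _ _) _, det_exp_ne _,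
      ((fn_comm ?_ _).smul_left _).exp_left, ?_⟩
    · rw [hMT, mul_one]
      exact (Commute.refl M).neg_left.mul_left (Commute.refl M)
    · have : M * M = -exp (fn Real.log (Mᵀ * 1 * M)) := by
        rw [hP.exp_log, hMT, mul_one, neg_mul, neg_neg]
      rw [exp_smul_add, exp_smul_add, this, mul_neg]
      norm_num [exp_neg_mul]
  have hq : PD ((T * R)ᵀ * 1 * (T * R)) := PD.one.conj (by rw [det_mul]; exact mul_ne_zero hTd hRd)
  rw [mul_one, transpose_mul, hT, hR] at hq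
  set q := R * T * (T * R) with hqd
  have h1 : q * JJ g * q = JJ g := by
    have hu : IsUnit (R * JJ g) := (isUnit_iff_isUnit_det _).mpr (by
      rw [det_mul]
      exact (mul_ne_zero hRd (isUnit_det_J _ _).ne_zero).isUnit)
    refine hu.mul_left_cancel ?_
    have c1 : Commute (T * T) M := hTM.mul_left hTM
    calc R * JJ g * (q * JJ g * q) = M * (T * T) * M * (T * T) * R := by
          simp only [hqd, hM, Matrix.mul_assoc]
      _ = T * T * (T * T) * (M * M) * R := by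
          rw [← c1.eq, Matrix.mul_assoc (T * T) M M, Matrix.mul_assoc (T * T) (M * M),
            ← (c1.mul_right c1).eq, ← Matrix.mul_assoc]
      _ = R * JJ g * JJ g := by rw [hTT, mul_JJ, neg_mul, one_mul]
  have h2 : R * R * JJ g * q = q * JJ g * (R * R) := by
    calc R * R * JJ g * q = R * (M * (T * T)) * R := by simp only [hqd, hM, Matrix.mul_assoc]
      _ = q * JJ g * (R * R) := by
        rw [← (hTM.mul_left hTM).eq]
        simp only [hqd, hM, Matrix.mul_assoc]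
  have hX : fn Real.log q ∈ pp g := mem_pp_of_exp (fn_T _ _) (by rw [hq.exp_log, h1])
  rw [← hq.exp_log] at h2
  generalize fn Real.log q = X at *
  have h3 : ∀ s : ℝ, exp (s • X) * JJ g = JJ g * exp (-s • X) := fun s => by
    have := SymplecticGroup.mem_iff'.mp (exp_mem (pp_le_sp ((pp g).smul_mem s hX)))
    rw [exp_smul_T hX.1] at this
    rw [← mul_one (exp (s • X) * JJ g), ← exp_mul_neg (s • X), ← Matrix.mul_assoc, this, neg_smul]
  refine ⟨⟨exp ((-2⁻¹ : ℝ) • X), exp_mem (pp_le_sp ((pp g).smul_mem _ hX))⟩, ?_⟩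
  simp only [exp_smul_T hX.1]
  have h4 : JJ g * exp ((-2⁻¹ : ℝ) • X) = exp ((-2⁻¹ : ℝ) • X) * exp X * JJ g := by
    rw [← h3]
    nth_rewrite 3 [← one_smul ℝ X]
    rw [exp_smul_add]
    norm_num
  have h5 : exp ((-2⁻¹ : ℝ) • X) * JJ g = JJ g * exp X * exp ((-2⁻¹ : ℝ) • X) := by
    rw [h3, Matrix.mul_assoc]
    nth_rewrite 2 [← one_smul ℝ X]
    rw [exp_smul_add]
    norm_num
  rw [Matrix.mul_assoc _ _ (JJ g), h5, ← Matrix.mul_assoc, ← Matrix.mul_assoc, h4]
  simp only [Matrix.mul_assoc] at h2 ⊢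
  congr 1
  simpa only [Matrix.mul_assoc] using congrArg (· * exp ((-2⁻¹ : ℝ) • X)) h2.symm

lemma sum_pj {S : Mat g} (h : Sᵀ = S) : ∑ l ∈ spc S, pj S l = 1 := by
  simpa using (fn_eq_sum (fun _ => 1) S).symm.trans (fn_one h)

lemma pj_mul {S : Mat g} (h : Sᵀ = S) (l : ℝ) : pj S l * S = l • pj S l :=
  (fn_comm (Commute.refl S) _).eq.trans (mul_pj h l)

lemma eq_sum_pj {S : Mat g} (h : Sᵀ = S) (Y : Mat g) :
    Y = ∑ l ∈ spc S, ∑ m ∈ spc S, pj S l * Y * pj S m := by
  simp only [← Finset.mul_sum, ← Finset.sum_mul, sum_pj h, one_mul, mul_one]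

lemma PD.pos {S : Mat g} (h : PD S) {l : ℝ} (hl : l ∈ spc S) : 0 < l :=
  h.spec (S.finite_real_spectrum.mem_toFinset.mp hl)

lemma PD.eq_zero {S Y : Mat g} (h : PD S) (hY : S * Y + Y * S = 0) : Y = 0 := by
  rw [eq_sum_pj h.1 Y]
  refine Finset.sum_eq_zero fun l hl => Finset.sum_eq_zero fun m hm => ?_
  have := congrArg (fun Z => pj S l * Z * pj S m) hY
  simp only [mul_add, add_mul, mul_zero, zero_mul] at this
  rw [← Matrix.mul_assoc, pj_mul h.1, Matrix.mul_assoc, Matrix.mul_assoc (pj S l),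
    Matrix.mul_assoc Y, mul_pj h.1, smul_mul_assoc, mul_smul_comm, mul_smul_comm,
    ← add_smul] at this
  rw [Matrix.mul_assoc]
  exact (smul_eq_zero.mp this).resolve_left (add_pos (h.pos hl) (h.pos hm)).ne'

/-- A subspace invariant under the square of `Y ↦ S Y + Y S` is invariant under this map. -/
lemma PD.mem_of_sq {S : Mat g} (h : PD S) {A : Submodule ℝ (Mat g)}
    (hA : ∀ Y ∈ A, S * (S * Y + Y * S) + (S * Y + Y * S) * S ∈ A) {Y : Mat g} (hY : Y ∈ A) :
    S * Y + Y * S ∈ A := by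
  classical
  let L : End ℝ (Mat g) := LinearMap.mulLeft ℝ S + LinearMap.mulRight ℝ S
  have hL : ∀ Z, L Z = S * Z + Z * S := fun Z => rfl
  let F : Finset ℝ := (spc S ×ˢ spc S).image fun p => (p.1 + p.2) ^ 2
  let p := Lagrange.interpolate F id Real.sqrt
  have h1 := Polynomial.aeval_apply_smul_mem_of_le_comap hY p (L * L) fun Z hZ => hA Z hZ
  have h2 : Polynomial.aeval (L * L) p Y = L Y := by
    rw [eq_sum_pj h.1 Y]
    simp only [map_sum]
    refine Finset.sum_congr rfl fun l hl => Finset.sum_congr rfl fun m hm => ?_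
    have h3 : L (pj S l * Y * pj S m) = (l + m) • (pj S l * Y * pj S m) := by
      rw [hL, ← Matrix.mul_assoc, ← Matrix.mul_assoc, mul_pj h.1, Matrix.mul_assoc _ _ S,
        pj_mul h.1, smul_mul_assoc, smul_mul_assoc, mul_smul_comm, add_smul]
    rw [End.aeval_apply_of_mem_apply_eq_smul (μ := (l + m) ^ 2)
      (by rw [End.mul_apply, h3, map_smul, h3, smul_smul, sq]), h3]
    congr 1
    exact (Lagrange.eval_interpolate_at_node (s := F) (v := id) (i := (l + m) ^ 2) Real.sqrt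
      (injOn_id _) (Finset.mem_image.mpr ⟨(l, m), Finset.mem_product.mpr ⟨hl, hm⟩, rfl⟩)).trans
      (Real.sqrt_sq (add_pos (h.pos hl) (h.pos hm)).le)
  rwa [h2] at h1

/-- Separation of a subspace from the cone of positive definite forms. -/
lemma exists_PSD {h : Submodule ℝ (Mat g)} (hle : h ≤ sp g) (hn : ∀ S, PD S → JJ g * S ∉ h) :
    ∃ Φ, PSD Φ ∧ Φ ≠ 0 ∧ ∀ Z ∈ h, trace (JJ g * Φ * Z) = 0 := by
  let s : Set (Mat g) := {S | ∀ v, v ≠ 0 → 0 < v ⬝ᵥ (S *ᵥ v)}
  let T : Mat g →ₗ[ℝ] Mat g := LinearMap.mulLeft ℝ (JJ g) ∘ₗ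
    (LinearMap.id + (transposeLinearEquiv _ _ ℝ ℝ).toLinearMap)
  have hT : ∀ S, T S = JJ g * (S + Sᵀ) := fun S => rfl
  have h1 : Convex ℝ s := by
    intro S hS S' hS' a b ha hb hab v hv
    rw [add_mulVec, smul_mulVec, smul_mulVec, dotProduct_add, dotProduct_smul, dotProduct_smul]
    exact (convex_Ioi (0 : ℝ)) (hS v hv) (hS' v hv) ha hb hab
  have h2 : IsOpen s := by
    refine isOpen_iff_eventually.mpr fun S hS => ?_
    have := (isCompact_sphere (0 : Fin g ⊕ Fin g → ℝ) 1).eventually_forall_of_forall_eventually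
      (x₀ := S) (P := fun S v => 0 < v ⬝ᵥ (S *ᵥ v)) fun v hv =>
      (show ContinuousAt (fun z : Mat g × (Fin g ⊕ Fin g → ℝ) => z.2 ⬝ᵥ (z.1 *ᵥ z.2)) (S, v) by
        fun_prop).eventually (lt_mem_nhds (hS v (ne_zero_of_mem_sphere one_ne_zero ⟨v, hv⟩)))
    filter_upwards [this] with S' hS' v hv
    have h0 := norm_pos_iff.mpr hv
    have := hS' (‖v‖⁻¹ • v) (by simp [norm_smul, h0.ne'])
    rw [mulVec_smul, dotProduct_smul, smul_dotProduct, smul_smul, smul_eq_mul] at this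
    exact (mul_pos_iff_of_pos_left (by positivity)).mp this
  obtain ⟨f, u, k1, k2⟩ := geometric_hahn_banach_open h1 h2 (h.comap T).convex
    (disjoint_left.mpr fun S hS hS' => hn (S + Sᵀ) ⟨by rw [transpose_add, transpose_transpose,
      add_comm], fun v hv => by
        rw [add_mulVec, dotProduct_add, dot_T, dotProduct_comm (S *ᵥ v)]
        exact add_pos (hS v hv) (hS v hv)⟩ hS')
  have k3 : u ≤ 0 := by simpa using k2 0 (h.comap T).zero_mem
  have k4 : ∀ S ∈ h.comap T, f S = 0 := fun S hS => by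
    by_contra h0
    have := k2 _ ((h.comap T).smul_mem ((u - 1) / f S) hS)
    rw [map_smul, smul_eq_mul, div_mul_cancel₀ _ h0] at this
    linarith
  let Ψ : Mat g := Matrix.of fun i j => -f (single j i 1)
  have k5 : ∀ S, trace (Ψ * S) = -f S := fun S => by
    conv_rhs => rw [matrix_eq_sum_single S]
    simp only [map_sum, trace, diag_apply, mul_apply, Ψ, of_apply, ← Finset.sum_neg_distrib]
    rw [Finset.sum_comm]
    refine Finset.sum_congr rfl fun i _ => Finset.sum_congr rfl fun j _ => ?_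
    rw [show single i j (S i j) = S i j • single i j (1 : ℝ) by simp, map_smul, smul_eq_mul]
    ring
  have k6 : PSD Ψ := by
    refine ⟨Matrix.ext fun i j => ?_, fun v => ?_⟩
    · have := k4 (single i j 1 - single j i 1) (by simp [hT])
      rw [map_sub, sub_eq_zero] at this
      simp [Ψ, this]
    · rw [dotProduct_comm, ← trace_vecMulVec, ← mul_vecMulVec, k5, neg_nonneg]
      refine le_of_forall_pos_le_add fun e he => ?_
      have k7 : f 1 < 0 := (k1 1 PD.one.2).trans_le k3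
      have := k1 (vecMulVec v v + (e / -f 1) • 1) fun w hw => by
        rw [add_mulVec, dotProduct_add, vecMulVec_mulVec, smul_mulVec, dotProduct_smul,
          op_smul_eq_smul, dotProduct_smul, dotProduct_comm w v]
        exact add_pos_of_nonneg_of_pos (mul_self_nonneg _)
          (mul_pos (div_pos he (neg_pos.mpr k7)) (PD.one.2 w hw))
      rw [map_add, map_smul, smul_eq_mul, div_neg, neg_mul, div_mul_cancel₀ _ k7.ne] at this
      linarith
  refine ⟨(JJ g)ᵀ * Ψ * JJ g, k6.conj _, fun h0 => ?_, fun Z hZ => ?_⟩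
  · have h3 := congrArg (fun Y => JJ g * Y * JJ g) h0
    simp only [JJ_T, neg_mul, mul_neg, Matrix.mul_assoc, JJ_mul, neg_neg, JJ_sq, mul_one,
      mul_zero, zero_mul, neg_eq_zero] at h3
    have := k5 1
    rw [h3, zero_mul, trace_zero] at this
    linarith [k1 1 PD.one.2]
  · have h3 : (JJ g * Z)ᵀ = JJ g * Z := by
      rw [transpose_mul, JJ_T, mul_neg, mem_sp.mp (hle hZ), neg_neg]
    rw [JJ_T, neg_mul, neg_mul, mul_neg, Matrix.mul_assoc (JJ g), JJ_mul, neg_neg,
      Matrix.mul_assoc, k5, k4, neg_zero]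
    rw [Submodule.mem_comap, hT, h3, mul_add, JJ_mul]
    exact h.add_mem (h.neg_mem hZ) (h.neg_mem hZ)

end Pool.Agent.MP_609e33_gt.Up
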