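import Pool.Agent.MP_609e33_gt.h62.EvenA

/-!
Subalgebras of codimension at most `g (g + 1) / 2 + 1` without rotations contain a conjugate of
the orthogonal Lie algebra.
-/

set_option autoImplicit false

open Matrix Module Set Topology Filter NormedSpace

namespace Pool.Agent.MP_609e33_gt.Up

attribute [local instance] Matrix.linftyOpNormedRing Matrix.linftyOpNormedAlgebra

variable {g : ℕ}

/-- The properties of the isotropy algebras that are used. -/
structure Good (h : Submodule ℝ (Mat g)) : Prop where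
  le : h ≤ sp g
  lie : ∀ X ∈ h, ∀ Y ∈ h, X * Y - Y * X ∈ h
  ad : ∀ X ∈ h, ∀ Y ∈ h, ∀ t : ℝ, exp (t • X) * Y * exp (t • (-X)) ∈ h
  norot : ¬ HasRot h
  codim : ∀ (V : Type) [AddCommGroup V] [Module ℝ V] [FiniteDimensional ℝ V]
    (φ : V →ₗ[ℝ] Mat g), (∀ v, φ v ∈ sp g) →
      finrank ℝ V ≤ finrank ℝ (h.comap φ) + ((g + 1).choose 2 + 1)

/-- The diagonal embedding. -/
def dg (g : ℕ) : Sq g →ₗ[ℝ] Mat g where
  toFun K := fromBlocks K 0 0 K
  map_add' _ _ := by simp [fromBlocks_add]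
  map_smul' _ _ := by simp [fromBlocks_smul]

lemma dg_mul (K K' : Sq g) : dg g (K * K') = dg g K * dg g K' := by
  simp [dg, fromBlocks_multiply]

lemma dg_J (K : Sq g) : JJ g * dg g K = dg g K * JJ g := by
  simp [dg, Matrix.J, fromBlocks_multiply]

lemma dg_T (K : Sq g) : (dg g K)ᵀ = dg g Kᵀ := by simp [dg, fromBlocks_transpose]

lemma dg_mem {K : Sq g} (h : Kᵀ = -K) : dg g K ∈ sp g := by
  rw [mem_sp, dg_T, h, map_neg, neg_mul, dg_J]

/-- Any two skew matrices have a combination in `h`. -/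
def Pair (h : Submodule ℝ (Mat g)) : Prop :=
  ∀ K K' : Sq g, Kᵀ = -K → K'ᵀ = -K' → ∃ a b : ℝ, (a ≠ 0 ∨ b ≠ 0) ∧ dg g (a • K + b • K') ∈ h

lemma trace_ant {X : Mat g} (h : X * JJ g = -(JJ g * X)) : trace X = 0 := by
  have h1 : trace (JJ g * X * JJ g) = -trace X := by
    rw [trace_mul_cycle, JJ_sq, neg_mul, one_mul, trace_neg]
  rw [Matrix.mul_assoc, h, mul_neg, JJ_mul, neg_neg] at h1
  linarith

lemma eq_zero_of_trace {X : Mat g} (h : trace (X * Xᵀ) = 0) : X = 0 :=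
  trace_mul_conjTranspose_self_eq_zero_iff.mp (by rwa [conjTranspose_eq_transpose_of_trivial])

lemma T_mem_sp {X : Mat g} (h : X ∈ sp g) : Xᵀ ∈ sp g := by
  rw [mem_sp, transpose_transpose]
  have := congrArg (fun Z => JJ g * Z * JJ g) (mem_sp.mp h)
  simp only [mul_neg, ← Matrix.mul_assoc, mul_JJ] at this
  simpa [JJ_sq] using this.symm

lemma J_mul_mem_sp' {S : Mat g} (h : Sᵀ = S) : JJ g * S ∈ sp g := by
  rw [mem_sp, transpose_mul, h, JJ_T, mul_neg, neg_mul, mul_JJ, JJ_mul]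

namespace Good

variable {h : Submodule ℝ (Mat g)} (H : Good h)
include H

lemma real {Y : Mat g} (hp : Y ∈ pp g) (h1 : Y ∈ h) (h2 : JJ g * Y ∈ h) : Y = 0 := by
  by_contra h0
  exact H.norot (hasRot_of_complex H.lie hp h0 h1 h2)

lemma dim_pp : finrank ℝ (pp g) ≤ finrank ℝ (h.comap (pp g).subtype) + ((g + 1).choose 2 + 1) :=
  H.codim _ _ fun v => pp_le_sp v.2

lemma not_mem (hg : 3 ≤ g) {S : Mat g} (hS : PD S) (hJ : JJ g * S = S * JJ g) :
    JJ g * S ∉ h := by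
  intro hm
  have h1 : ∀ Y ∈ pp g, S * Y + Y * S ∈ pp g := fun Y hY =>
    ⟨by rw [transpose_add, transpose_mul, transpose_mul, hS.1, hY.1, add_comm], by
      rw [add_mul, mul_add, lin_ant hJ hY.2, ant_lin hY.2 hJ, neg_add]⟩
  have h2 : ∀ Y ∈ pp g, Y ∈ h → JJ g * (S * Y + Y * S) ∈ h := fun Y hY hYh => by
    have := H.lie _ hm _ hYh
    rwa [← Matrix.mul_assoc, hY.2, neg_mul, sub_neg_eq_add, Matrix.mul_assoc, Matrix.mul_assoc,
      ← mul_add] at this
  have h3 : ∀ Y ∈ pp g ⊓ h, Y = 0 := fun Y hY => by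
    refine hS.eq_zero (H.real (h1 Y hY.1) (hS.mem_of_sq (A := pp g ⊓ h) (fun Z hZ =>
      ⟨h1 _ (h1 Z hZ.1), ?_⟩) hY).2 (h2 Y hY.1 hY.2))
    have := h.neg_mem (h2 _ (J_mul_mem_pp (h1 Z hZ.1)) (h2 Z hZ.1 hZ.2))
    rwa [← Matrix.mul_assoc, ← hJ, Matrix.mul_assoc, Matrix.mul_assoc, ← mul_add, JJ_mul,
      neg_neg] at this
  have h4 : h.comap (pp g).subtype = ⊥ :=
    (Submodule.eq_bot_iff _).mpr fun Y hY => Subtype.ext (h3 Y.1 ⟨Y.2, hY⟩)
  have h5 := H.dim_pp
  have h6 := le_finrank_pp (g := g)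
  have h7 : (3 + 1).choose 2 ≤ (g + 1).choose 2 := Nat.choose_le_choose 2 (by omega)
  rw [h4, finrank_bot] at h5
  norm_num [Nat.choose] at h7
  norm_num [Nat.choose] at h5 h6
  omega

lemma rank_le {P : Mat g} (h1 : Pᵀ = P) (h2 : P * P = P) (h3 : JJ g * P = P * JJ g)
    (h4 : ∀ Y ∈ pp g, Y ∈ h → P * Y = Y * P) {v : Fin g ⊕ Fin g → ℝ} (hv : v ≠ 0)
    (h5 : P *ᵥ v = 0) : finrank ℝ (LinearMap.range P.mulVecLin) ≤ 2 := by
  have e : ∀ w : Fin g ⊕ Fin g → ℝ, w ᵥ* JJ g = -(JJ g *ᵥ w) := fun w => by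
    rw [← mulVec_transpose, JJ_T, neg_mulVec]
  let D : (Fin g ⊕ Fin g → ℝ) →ₗ[ℝ] pp g :=
    { toFun := fun u => ⟨vecMulVec u v + vecMulVec v u - vecMulVec (JJ g *ᵥ u) (JJ g *ᵥ v) -
        vecMulVec (JJ g *ᵥ v) (JJ g *ᵥ u), by
          simp only [transpose_sub, transpose_add, transpose_vecMulVec]
          abel, by
          simp only [add_mul, sub_mul, mul_add, mul_sub, vecMulVec_mul, mul_vecMulVec, e, J_J,
            vecMulVec_neg, neg_vecMulVec, neg_neg]
          abel⟩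
      map_add' := fun u u' => Subtype.ext (by
        simp only [mulVec_add, add_vecMulVec, vecMulVec_add, Submodule.coe_add]
        abel)
      map_smul' := fun c u => Subtype.ext (by
        simp only [mulVec_smul, smul_vecMulVec, vecMulVec_smul, Submodule.coe_smul, smul_sub,
          smul_add, RingHom.id_apply]) }
  let Jp : pp g →ₗ[ℝ] pp g :=
    { toFun := fun Y => ⟨JJ g * Y.1, J_mul_mem_pp Y.2⟩
      map_add' := fun _ _ => Subtype.ext (mul_add _ _ _)
      map_smul' := fun _ _ => Subtype.ext (mul_smul_comm _ _ _) }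
  let A := h.comap (pp g).subtype
  let φ : (A × A) × LinearMap.range P.mulVecLin →ₗ[ℝ] pp g :=
    (A.subtype.coprod (Jp ∘ₗ A.subtype)).coprod (D ∘ₗ Submodule.subtype _)
  have hφ : Function.Injective φ := by
    rw [injective_iff_map_eq_zero]
    rintro ⟨⟨Y, Y'⟩, ⟨_, w, rfl⟩⟩ h0
    have k1 : Y.1.1 + JJ g * Y'.1.1 + (D (P *ᵥ w)).1 = 0 := congrArg Subtype.val h0
    have k2 : (P *ᵥ w) ⬝ᵥ v = 0 := by rw [← dot_T, h1, h5, dotProduct_zero]
    have k3 : (JJ g *ᵥ (P *ᵥ w)) ⬝ᵥ v = 0 := by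
      rw [mulVec_mulVec, h3, ← mulVec_mulVec, ← dot_T, h1, h5, dotProduct_zero]
    have k4 : (D (P *ᵥ w)).1 *ᵥ v = (v ⬝ᵥ v) • (P *ᵥ w) := by
      change (_ + _ - _ - _ : Mat g) *ᵥ v = _
      simp only [sub_mulVec, add_mulVec, vecMulVec_mulVec, k2, k3, dot_J v v, dot_J_self]
      simp
    have k5 := congrArg (fun Z => P *ᵥ (Z *ᵥ v)) k1
    simp only [add_mulVec, mulVec_add, k4, mulVec_smul, zero_mulVec, mulVec_zero] at k5
    rw [mulVec_mulVec, mulVec_mulVec, mulVec_mulVec, h4 _ Y.1.2 Y.2, ← Matrix.mul_assoc, ← h3,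
      Matrix.mul_assoc, h4 _ Y'.1.2 Y'.2, h2, ← Matrix.mul_assoc, ← mulVec_mulVec,
      ← mulVec_mulVec v, h5, mulVec_zero, mulVec_zero, zero_add, zero_add] at k5
    have k6 : P *ᵥ w = 0 := (smul_eq_zero.mp k5).resolve_left (dot_pos hv)
    rw [k6, map_zero, ZeroMemClass.coe_zero, add_zero] at k1
    have k7 : Y'.1.1 = 0 := H.real Y'.1.2 Y'.2 (by
      rw [eq_neg_of_add_eq_zero_right k1]
      exact h.neg_mem Y.2)
    rw [k7, mul_zero, add_zero] at k1
    exact Prod.ext (Prod.ext (Subtype.ext (Subtype.ext k1)) (Subtype.ext (Subtype.ext k7)))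
      (Subtype.ext k6)
  have h6 := LinearMap.finrank_le_finrank_of_injective hφ
  have h7 := H.dim_pp
  have h8 := le_finrank_pp (g := g)
  have : Module.Free ℝ A := Module.Free.of_divisionRing ℝ A
  rw [finrank_prod, finrank_prod] at h6
  change _ ≤ finrank ℝ A + _ at h7
  omega

lemma proj_trivial (hg : 3 ≤ g) {P : Mat g} (h1 : Pᵀ = P) (h2 : P * P = P)
    (h3 : JJ g * P = P * JJ g) (h4 : ∀ Y ∈ pp g, Y ∈ h → P * Y = Y * P) : P = 0 ∨ P = 1 := by
  by_contra hc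
  rw [not_or] at hc
  have ex : ∀ Q : Mat g, Q ≠ 0 → ∃ w, Q *ᵥ w ≠ 0 := fun Q hQ => by
    by_contra hcon
    push Not at hcon
    exact hQ (Matrix.ext_iff_mulVec.mpr fun w => by rw [hcon, zero_mulVec])
  obtain ⟨w, hw⟩ := ex P hc.1
  obtain ⟨w', hw'⟩ := ex (1 - P) (sub_ne_zero.mpr (Ne.symm hc.2))
  have k1 := H.rank_le h1 h2 h3 h4 hw' (by rw [mulVec_mulVec, mul_sub, h2, mul_one, sub_self,
    zero_mulVec])
  have k2 := H.rank_le (P := 1 - P) (by rw [transpose_sub, h1, transpose_one])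
    (by rw [mul_sub, sub_mul, sub_mul, h2]; simp) (by rw [mul_sub, sub_mul, h3]; simp)
    (fun Y a b => by rw [mul_sub, sub_mul, h4 Y a b]; simp) hw
    (by rw [mulVec_mulVec, sub_mul, h2, one_mul, sub_self, zero_mulVec])
  have k3 := LinearMap.finrank_range_add_finrank_ker P.mulVecLin
  have k4 : LinearMap.ker P.mulVecLin ≤ LinearMap.range (1 - P).mulVecLin := fun u hu =>
    ⟨u, by rw [mulVecLin_apply, sub_mulVec, one_mulVec, show P *ᵥ u = 0 from hu, sub_zero]⟩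
  have k5 := Submodule.finrank_mono k4
  rw [finrank_fintype_fun_eq_card, Fintype.card_sum, Fintype.card_fin] at k3
  omega

lemma lagrangian (hg : 3 ≤ g) {P : Mat g} (h1 : Pᵀ = P) (h2 : P * P = P) (h0 : P ≠ 0) (h0' : P ≠ 1)
    (h4 : ∀ X ∈ h, (1 - P) * X * P = 0) : (2 : ℝ) • P - 1 ∈ pp g := by
  have k1 : ∀ Y ∈ pp g, Y ∈ h → Commute (lin P) Y := fun Y hY hYh => by
    have a1 := h4 Y hYh
    have a2 := congrArg transpose a1
    rw [transpose_mul, transpose_mul, h1, hY.1, transpose_sub, h1, transpose_one, transpose_zero,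
      mul_sub, mul_one, mul_sub, sub_eq_zero] at a2
    rw [sub_mul, one_mul, sub_mul, sub_eq_zero, Matrix.mul_assoc, ← a2] at a1
    refine (Commute.sub_left a1.symm ?_).smul_left _
    have a3 : JJ g * Y = -(Y * JJ g) := by rw [hY.2, neg_neg]
    rw [Commute, SemiconjBy, Matrix.mul_assoc, a3, mul_neg, ← Matrix.mul_assoc,
      Matrix.mul_assoc _ P, ← a1, ← Matrix.mul_assoc, a3]
    simp [Matrix.mul_assoc]
  have k2 : (lin P)ᵀ = lin P := by
    rw [lin, transpose_smul, transpose_sub, transpose_mul, transpose_mul, h1, JJ_T, neg_mul,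
      mul_neg, mul_neg, neg_neg, Matrix.mul_assoc]
  obtain ⟨c, hc⟩ : ∃ c : ℝ, lin P = c • 1 := by
    have : ∀ l, ∃ c : ℝ, pj (lin P) l = c • 1 := fun l => by
      rcases H.proj_trivial hg (fn_T _ _) (pj_pj (lin P) l)
        (fn_comm (Y := JJ g) (lin_J P).symm _).eq.symm
        (fun Y a b => (fn_comm (k1 Y a b) _).eq) with h | h
      · exact ⟨0, by rw [zero_smul]; exact h⟩
      · exact ⟨1, by rw [one_smul]; exact h⟩
    choose c hc using this
    refine ⟨∑ l ∈ spc (lin P), l * c l, ?_⟩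
    conv_lhs => rw [← fn_id k2, fn_eq_sum]
    simp only [hc, smul_smul, Finset.sum_smul]
  have k3 : JJ g * P * JJ g = P - (2 * c) • 1 := by
    rw [mul_smul, ← hc, lin]
    module
  have k4 : (2 - 4 * c) • (P - c • 1) = 0 := by
    have : JJ g * P * JJ g * (JJ g * P * JJ g) = -(JJ g * P * JJ g) := by
      simp only [Matrix.mul_assoc, JJ_mul, mul_neg]
      rw [← Matrix.mul_assoc P, h2]
    rw [k3] at this
    simp only [mul_sub, sub_mul, smul_mul_assoc, mul_smul_comm, h2, mul_one, one_mul] at this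
    rw [← sub_eq_zero.mpr this]
    module
  rcases smul_eq_zero.mp k4 with k5 | k5
  · refine ⟨by rw [transpose_sub, transpose_smul, h1, transpose_one], ?_⟩
    have := congrArg (fun Z => JJ g * Z) k3
    simp only [Matrix.mul_assoc, JJ_mul, mul_sub, mul_one,
      show 2 * c = 1 by linarith, one_smul] at this
    rw [sub_mul, mul_sub, smul_mul_assoc, mul_smul_comm, one_mul, mul_one,
      neg_eq_iff_eq_neg.mp this]
    module
  · rw [sub_eq_zero] at k5
    rw [k5, smul_mul_assoc, one_mul, smul_smul] at h2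
    have : c * (c - 1) = 0 := by
      have := congrFun (congrFun h2 (.inl ⟨0, by omega⟩)) (.inl ⟨0, by omega⟩)
      simp only [Matrix.smul_apply, one_apply_eq, smul_eq_mul, mul_one] at this
      linarith
    rcases mul_eq_zero.mp this with rfl | k6
    · exact (h0 (by rw [k5, zero_smul])).elim
    · exact (h0' (by rw [k5, sub_eq_zero.mp k6, one_smul])).elim

lemma pair_of_block (hb : ∀ X ∈ h, X.toBlocks₂₁ = 0) : Pair h := by
  intro K K' hK hK'
  let φ : (ℝ × ℝ) × (Sym2 (Fin g) → ℝ) →ₗ[ℝ] Mat g :=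
    { toFun := fun p => dg g (p.1.1 • K + p.1.2 • K') + fromBlocks 0 0 (ofS p.2) 0
      map_add' := fun p q => by
        ext (i | i) (j | j) <;> simp [dg, ofS] <;> ring
      map_smul' := fun c p => by
        ext (i | i) (j | j) <;> simp [dg, ofS] <;> ring }
  have h1 := H.codim _ φ fun p => (sp g).add_mem
    (dg_mem (by simp [hK, hK', add_comm])) (by
      simp [mem_sp, Matrix.J, fromBlocks_transpose, fromBlocks_multiply, fromBlocks_neg, ofS_T])
  simp only [finrank_prod, finrank_self, finrank_fintype_fun_eq_card, Sym2.card,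
    Fintype.card_fin] at h1
  obtain ⟨⟨⟨⟨a, b⟩, f⟩, hp⟩, hp0⟩ := finrank_pos_iff_exists_ne_zero.mp
    (show 0 < finrank ℝ (h.comap φ) by omega)
  have h2 : ofS f = 0 := by
    have := hb _ hp
    simpa [φ, dg, fromBlocks_add] using this
  have h3 : f = 0 := by rw [← toS_ofS f, h2, show (0 : Sq g) = ofS 0 from rfl, toS_ofS]
  refine ⟨a, b, ?_, by simpa [φ, h2] using hp⟩
  by_contra hc
  push Not at hc
  exact hp0 (Subtype.ext (by simp [hc.1, hc.2, h3]))

lemma pair_of_PD {Φ : Mat g} (hΦ : PD Φ) (hJ : JJ g * Φ = Φ * JJ g)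
    (ho : ∀ Z ∈ h, trace (JJ g * Φ * Z) = 0) (hg : 1 ≤ g) : Pair h := by
  intro K K' hK hK'
  by_contra hc
  push Not at hc
  let D : Submodule ℝ (Mat g) :=
    { carrier := {Ψ | Ψ ∈ sp g ∧ ∀ Z ∈ h, trace (Ψ * Z) = 0}
      add_mem' := fun a b => ⟨(sp g).add_mem a.1 b.1, fun Z hZ => by
        rw [add_mul, trace_add, a.2 Z hZ, b.2 Z hZ, add_zero]⟩
      zero_mem' := ⟨(sp g).zero_mem, by simp⟩
      smul_mem' := fun c _ a => ⟨(sp g).smul_mem c a.1, fun Z hZ => by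
        rw [smul_mul_assoc, trace_smul, a.2 Z hZ, smul_zero]⟩ }
  have h1 := H.codim D ((transposeLinearEquiv _ _ ℝ ℝ).toLinearMap ∘ₗ D.subtype)
    fun Ψ => T_mem_sp Ψ.2.1
  have h0 : h.comap ((transposeLinearEquiv _ _ ℝ ℝ).toLinearMap ∘ₗ D.subtype) = ⊥ :=
    (Submodule.eq_bot_iff _).mpr fun Ψ hΨ => Subtype.ext (eq_zero_of_trace (Ψ.2.2 _ hΨ))
  rw [h0, finrank_bot] at h1
  let φ : (ℝ × ℝ) × pp g →ₗ[ℝ] Mat g :=
    (dg g ∘ₗ ((LinearMap.toSpanSingleton ℝ _ K).coprod (LinearMap.toSpanSingleton ℝ _ K'))).coprod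
      (pp g).subtype
  have hφ : ∀ p, φ p = dg g (p.1.1 • K + p.1.2 • K') + p.2.1 := fun p => rfl
  have hsk : ∀ a b : ℝ, (a • K + b • K')ᵀ = -(a • K + b • K') := fun a b => by
    simp [hK, hK', add_comm]
  have h2 := H.codim _ φ fun p => (sp g).add_mem (dg_mem (hsk _ _)) (pp_le_sp p.2.2)
  have hY := J_mul_mem_sp' hΦ.1
  let τ : h.comap φ × ℝ →ₗ[ℝ] D :=
    { toFun := fun p => ⟨φ p.1.1 * (JJ g * Φ) - JJ g * Φ * φ p.1.1 + p.2 • (JJ g * Φ), by
        refine D.add_mem ⟨?_, fun Z hZ => ?_⟩ (D.smul_mem _ ⟨hY, ho⟩)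
        · have a1 := mem_sp.mp (H.le p.1.2)
          have a2 := mem_sp.mp hY
          generalize φ p.1.1 = X, JJ g * Φ = Y at *
          rw [mem_sp, transpose_sub, transpose_mul, transpose_mul, sub_mul, Matrix.mul_assoc, a1,
            Matrix.mul_assoc, a2, mul_neg, mul_neg, ← Matrix.mul_assoc, a2, ← Matrix.mul_assoc, a1]
          noncomm_ring
        · rw [← neg_eq_zero, ← ho _ (H.lie _ p.1.2 _ hZ), sub_mul, mul_sub, trace_sub, trace_sub,
            neg_sub, trace_mul_cycle (φ p.1.1), trace_mul_comm (Z * φ p.1.1),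
            ← Matrix.mul_assoc (JJ g * Φ) (φ p.1.1)]⟩
      map_add' := fun p q => Subtype.ext (by
        simp only [Prod.fst_add, Prod.snd_add, Submodule.coe_add, map_add, add_mul, mul_add,
          add_smul]
        abel)
      map_smul' := fun c p => Subtype.ext (by
        simp only [Prod.smul_fst, Prod.smul_snd, Submodule.coe_smul, map_smul, smul_mul_assoc,
          mul_smul_comm, RingHom.id_apply, smul_add, smul_sub, smul_eq_mul, mul_smul]) }
  have hτ : Function.Injective τ := by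
    rw [injective_iff_map_eq_zero]
    rintro ⟨⟨⟨⟨a, b⟩, Y⟩, hm⟩, c⟩ h0
    have k1 : φ ((a, b), Y) * (JJ g * Φ) - JJ g * Φ * φ ((a, b), Y) + c • (JJ g * Φ) = 0 :=
      congrArg Subtype.val h0
    have k2 : c = 0 := by
      have := congrArg (fun Z => trace (JJ g * Φ * Z)) k1
      simp only [mul_add, mul_sub, trace_add, trace_sub, mul_smul_comm, trace_smul, mul_zero,
        trace_zero] at this
      rw [← Matrix.mul_assoc, trace_mul_cycle, Matrix.mul_assoc, sub_self, zero_add,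
        Matrix.mul_assoc, ← Matrix.mul_assoc Φ, ← hJ, Matrix.mul_assoc, JJ_mul, trace_neg,
        smul_eq_zero, neg_eq_zero] at this
      refine this.resolve_right fun h3 => ?_
      have h4 := hΦ.2 1 fun h => one_ne_zero (congrFun h (.inl ⟨0, hg⟩))
      rw [eq_zero_of_trace (X := Φ) (by rwa [hΦ.1])] at h4
      simp at h4
    rw [k2, zero_smul, add_zero, hφ, add_mul, mul_add, add_sub_add_comm] at k1
    have c1 : JJ g * (JJ g * Φ) = JJ g * Φ * JJ g := lin_mul rfl hJ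
    have k3 := (split_eq (by rw [mul_sub, sub_mul, lin_mul (dg_J _) c1, lin_mul c1 (dg_J _)])
      (by rw [mul_sub, sub_mul, ant_lin Y.2.2 c1, lin_ant c1 Y.2.2]; abel)
      (by simp) (by simp) (k1.trans (add_zero 0).symm)).2
    have k4 : Y = 0 := Subtype.ext (hΦ.eq_zero (by
      have := congrArg (fun Z => JJ g * Z) k3
      simp only [← Matrix.mul_assoc Y.1, Y.2.2, mul_sub, neg_mul, mul_neg, Matrix.mul_assoc,
        JJ_mul, neg_neg, sub_neg_eq_add, mul_zero] at this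
      rwa [add_comm]))
    have k5 : dg g (a • K + b • K') ∈ h := by
      have : φ ((a, b), Y) ∈ h := hm
      rwa [hφ, k4, ZeroMemClass.coe_zero, add_zero] at this
    have k6 : a = 0 ∧ b = 0 := by
      by_contra k7
      exact hc a b (not_and_or.mp k7) k5
    exact Prod.ext (Subtype.ext (by simp [k6.1, k6.2, k4])) k2
  have h3 := LinearMap.finrank_le_finrank_of_injective hτ
  have h4 := le_finrank_pp (g := g)
  have : Module.Free ℝ (h.comap φ) := Module.Free.of_divisionRing ℝ (h.comap φ)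
  simp only [finrank_prod, finrank_self] at h2 h3
  omega

lemma skew_mem (hg : 3 ≤ g) (hP : Pair h) {K : Sq g} (hK : Kᵀ = -K) : dg g K ∈ h := by
  let e : Fin g → Fin g → Sq g := fun i j => single i j 1 - single j i 1
  have he : ∀ i j, (e i j)ᵀ = -e i j := fun i j => by simp [e]
  have h1 : ∀ i j, dg g (e i j) ∈ h := by
    intro i j
    by_contra hn
    have hij : i ≠ j := by
      rintro rfl
      exact hn (by simp [e])
    obtain ⟨k, hki, hkj⟩ : ∃ k, k ≠ i ∧ k ≠ j := by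
      by_contra hc
      push Not at hc
      have : (Finset.univ : Finset (Fin g)) ⊆ {i, j} := fun k _ => by
        by_cases hk : k = i
        · simp [hk]
        · simp [hc k hk]
      have := (Finset.card_le_card this).trans Finset.card_le_two
      simp at this
      omega
    have h2 : ∀ K' : Sq g, K'ᵀ = -K' → ∃ a : ℝ, dg g (K' + a • e i j) ∈ h := fun K' hK' => by
      obtain ⟨a, b, hab, hm⟩ := hP K' (e i j) hK' (he i j)
      have ha : a ≠ 0 := by
        rintro rfl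
        rw [zero_smul, zero_add, map_smul] at hm
        exact hn ((h.smul_mem_iff (hab.resolve_left fun h => h rfl)).mp hm)
      refine ⟨a⁻¹ * b, ?_⟩
      have := h.smul_mem a⁻¹ hm
      rwa [← map_smul, smul_add, inv_smul_smul₀ ha, smul_smul] at this
    obtain ⟨a, ha⟩ := h2 _ (he i k)
    obtain ⟨b, hb⟩ := h2 _ (he j k)
    have h3 := h.sub_mem (h.sub_mem (H.lie _ ha _ hb) (h.smul_mem a ha)) (h.smul_mem b hb)
    rw [← dg_mul, ← dg_mul, ← map_smul, ← map_smul, ← map_sub, ← map_sub, ← map_sub] at h3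
    refine hn ((h.smul_mem_iff (s := -(1 + a ^ 2 + b ^ 2)) (by nlinarith)).mp ?_)
    rw [← map_smul]
    refine (congrArg (dg g) ?_ : _ = _) ▸ h3
    simp only [e, mul_add, add_mul, mul_sub, sub_mul, smul_mul_assoc, mul_smul_comm,
      single_mul_single_same, single_mul_single_of_ne _ _ _ _ hij,
      single_mul_single_of_ne _ _ _ _ hij.symm, single_mul_single_of_ne _ _ _ _ hki,
      single_mul_single_of_ne _ _ _ _ hki.symm, single_mul_single_of_ne _ _ _ _ hkj,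
      single_mul_single_of_ne _ _ _ _ hkj.symm, mul_one]
    module
  have h2 : K = ∑ i, ∑ j, (2⁻¹ * K i j) • e i j := by
    ext a b
    have : K b a = -K a b := congrFun (congrFun hK a) b
    simp [e, Matrix.sum_apply, single_apply, ite_and, mul_sub, Finset.sum_sub_distrib, this]
    ring
  rw [h2]
  simp only [map_sum, map_smul]
  exact h.sum_mem fun i _ => h.sum_mem fun j _ => h.smul_mem _ (h1 i j)

/-- The kernel of a form of maximal rank is invariant. -/
lemma exists_inv (hn : ∀ S, PD S → JJ g * S ∉ h) : ∃ Φ, PSD Φ ∧ Φ ≠ 0 ∧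
    (∀ Z ∈ h, trace (JJ g * Φ * Z) = 0) ∧ ∀ X ∈ h, ∀ v, Φ *ᵥ v = 0 → Φ *ᵥ (X *ᵥ v) = 0 := by
  obtain ⟨Φ, ⟨h1, h2, h3⟩, hmin⟩ := (measure fun Φ : Mat g =>
    finrank ℝ (LinearMap.ker Φ.mulVecLin)).wf.has_min _ (exists_PSD H.le hn)
  refine ⟨Φ, h1, h2, h3, fun X hX v hv => ?_⟩
  have h4 : ∀ t : ℝ, Φ *ᵥ (exp (t • X) *ᵥ v) = 0 := fun t => by
    set B := exp (t • X) with hB
    have k1 := h1.conj B
    have k2 : ∀ w, (Φ + Bᵀ * Φ * B) *ᵥ w = 0 → Φ *ᵥ w = 0 ∧ (Bᵀ * Φ * B) *ᵥ w = 0 := fun w hw => by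
      have := congrArg (w ⬝ᵥ ·) hw
      simp only [add_mulVec, dotProduct_add, dotProduct_zero] at this
      exact ⟨h1.zero (by linarith [h1.2 w, k1.2 w]), k1.zero (by linarith [h1.2 w, k1.2 w])⟩
    have k3 : LinearMap.ker (Φ + Bᵀ * Φ * B).mulVecLin ≤ LinearMap.ker Φ.mulVecLin :=
      fun w hw => (k2 w hw).1
    have k4 := hmin (Φ + Bᵀ * Φ * B) ⟨⟨by rw [transpose_add, h1.1, k1.1], fun w => by
      rw [add_mulVec, dotProduct_add]
      exact add_nonneg (h1.2 w) (k1.2 w)⟩, fun h0 => h2 (Matrix.ext_iff_mulVec.mpr fun w => by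
        rw [(k2 w (by rw [h0, zero_mulVec])).1, zero_mulVec]), fun Z hZ => by
      have e : JJ g * Bᵀ = exp (t • (-X)) * JJ g := by
        have := SymplecticGroup.mem_iff.mp (exp_mem ((sp g).smul_mem t (H.le hX)))
        rw [← one_mul (JJ g * Bᵀ), ← exp_neg_mul (t • X), Matrix.mul_assoc, ← Matrix.mul_assoc B,
          this, smul_neg]
      rw [mul_add, add_mul, trace_add, h3 Z hZ, zero_add, ← h3 _ (H.ad X hX Z hZ t),
        ← Matrix.mul_assoc, ← Matrix.mul_assoc, e, ← Matrix.mul_assoc, trace_mul_comm _ (exp _)]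
      simp only [Matrix.mul_assoc, hB]⟩
    have k5 := Submodule.eq_of_le_of_finrank_le k3 (not_lt.mp k4)
    have k6 := (k2 v (k5.ge hv)).2
    rw [← mulVec_mulVec, ← mulVec_mulVec] at k6
    refine eq_zero_of_mulVec_eq_zero ?_ k6
    rw [det_transpose]
    exact det_exp_ne _
  let T : Mat g →L[ℝ] (Fin g ⊕ Fin g → ℝ) := LinearMap.toContinuousLinearMap
    { toFun := fun B => Φ *ᵥ (B *ᵥ v)
      map_add' := fun _ _ => by rw [add_mulVec, mulVec_add]
      map_smul' := fun _ _ => by rw [smul_mulVec, mulVec_smul, RingHom.id_apply] }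
  have h5 := T.hasFDerivAt.comp_hasDerivAt (0 : ℝ) (hasDerivAt_exp_smul_const X (0 : ℝ))
  have h6 := h5.unique ((hasDerivAt_const (0 : ℝ) (0 : Fin g ⊕ Fin g → ℝ)).congr_of_eventuallyEq
    (Eventually.of_forall h4))
  rwa [zero_smul, exp_zero, one_mul] at h6

end Good

theorem exists_skew (hg : 3 ≤ g) {𝓗 : Set (Submodule ℝ (Mat g))} (hne : 𝓗.Nonempty)
    (H : ∀ h ∈ 𝓗, Good h)
    (hc : ∀ h ∈ 𝓗, ∀ B : Sp g, ∃ h' ∈ 𝓗, ∀ X, X ∈ h' ↔ B.1 * X * (B⁻¹).1 ∈ h) :
    ∃ h ∈ 𝓗, ∀ K : Sq g, Kᵀ = -K → dg g K ∈ h := by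
  obtain ⟨h, hh⟩ := hne
  have e : ∀ (B : Sp g) (S : Mat g), JJ g * (B.1ᵀ * S * B.1) = (B⁻¹).1 * (JJ g * S) * B.1 := by
    intro B S
    have : JJ g * B.1ᵀ = (B⁻¹).1 * JJ g := by
      rw [← one_mul (JJ g * _), ← coe_inv_mul B, Matrix.mul_assoc, ← Matrix.mul_assoc B.1,
        SymplecticGroup.mem_iff.mp B.2]
    simp only [← Matrix.mul_assoc, this]
  obtain ⟨Φ, h1, h2, h3, h4⟩ := (H h hh).exists_inv fun S hS hm => by
    obtain ⟨B, hB⟩ := hS.exists_lin
    obtain ⟨h', k1, k2⟩ := hc h hh B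
    refine (H h' k1).not_mem hg (hS.conj (det_ne B)) hB ((k2 _).mpr ?_)
    rwa [e, ← Matrix.mul_assoc, ← Matrix.mul_assoc, coe_mul_inv, one_mul, Matrix.mul_assoc,
      coe_mul_inv, mul_one]
  have k0 : (1 - pj Φ 0) = fn (fun x => x⁻¹) Φ * Φ := by
    rw [fn_mul_self h1.1, sub_eq_iff_eq_add, pj, fn_add, ← fn_one h1.1]
    exact fn_congr fun x _ => by by_cases hx : x = 0 <;> simp [hx]
  have k1 : Φ * pj Φ 0 = 0 := by rw [mul_pj h1.1, zero_smul]
  by_cases h0 : pj Φ 0 = 0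
  · have hP : PD Φ := ⟨h1.1, fun v hv => (h1.2 v).lt_of_ne' fun h5 => hv (by
      rw [← one_mulVec v, ← sub_zero (1 : Mat g), ← h0, k0, ← mulVec_mulVec, h1.zero h5,
        mulVec_zero])⟩
    obtain ⟨B, hB⟩ := hP.exists_lin
    obtain ⟨h', k2, k3⟩ := hc h hh B
    refine ⟨h', k2, fun K => (H h' k2).skew_mem hg ((H h' k2).pair_of_PD (hP.conj (det_ne B)) hB
      (fun Z hZ => ?_) (by omega))⟩
    rw [e, ← h3 _ ((k3 Z).mp hZ), ← Matrix.mul_assoc _ _ (B⁻¹).1, trace_mul_comm _ (B⁻¹).1]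
    simp only [Matrix.mul_assoc]
  · have k2 : ∀ X ∈ h, (1 - pj Φ 0) * X * pj Φ 0 = 0 := fun X hX =>
      Matrix.ext_iff_mulVec.mpr fun v => by
        rw [k0, ← mulVec_mulVec, ← mulVec_mulVec, ← mulVec_mulVec,
          h4 X hX _ (by rw [mulVec_mulVec, k1, zero_mulVec]), mulVec_zero, zero_mulVec]
    have k3 := (H h hh).lagrangian hg (fn_T _ _) (pj_pj Φ 0) h0
      (fun h5 => h2 (by rw [← k1, show pj Φ 0 = 1 from h5, mul_one])) k2
    obtain ⟨B, hB, hB'⟩ := exists_conj k3 (by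
      simp only [mul_sub, sub_mul, smul_mul_assoc, mul_smul_comm, mul_one, one_mul]
      rw [show fn _ Φ * fn _ Φ = pj Φ 0 from pj_pj Φ 0, pj]
      module)
    obtain ⟨h', k4, k5⟩ := hc h hh ⟨B, hB⟩
    refine ⟨h', k4, fun K => (H h' k4).skew_mem hg ((H h' k4).pair_of_block fun X hX => ?_)⟩
    have k6 := k2 _ ((k5 X).mp hX)
    have k7 : pj Φ 0 * B = B * fromBlocks 1 0 0 0 := by
      have : (fromBlocks 1 0 0 0 : Mat g) = (2⁻¹ : ℝ) • (a0 g + 1) := by
        rw [a0, ← fromBlocks_one, fromBlocks_add, fromBlocks_smul]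
        congr 1 <;> module
      rw [this, mul_smul_comm, mul_add, ← hB', sub_mul, smul_mul_assoc, one_mul, mul_one, pj]
      module
    have k8 := congrArg (fun Z => ((⟨B, hB⟩ : Sp g)⁻¹).1 * Z * B) k6
    have c1 := coe_inv_mul (⟨B, hB⟩ : Sp g)
    generalize ((⟨B, hB⟩ : Sp g)⁻¹).1 = C at *
    have c2 : ∀ Z, C * (B * Z) = Z := fun Z => by rw [← Matrix.mul_assoc, c1, one_mul]
    have c3 : ∀ Z, pj Φ 0 * (B * Z) = B * (fromBlocks 1 0 0 0 * Z) := fun Z => by
      rw [← Matrix.mul_assoc, k7, Matrix.mul_assoc]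
    simp only [Matrix.mul_assoc, k7, sub_mul, mul_sub, one_mul, c2, c3, mul_zero, zero_mul] at k8
    rw [← fromBlocks_toBlocks X] at k8
    ext i j
    simpa [fromBlocks_multiply] using congrFun (congrFun k8 (.inr i)) (.inl j)

end Pool.Agent.MP_609e33_gt.Up
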