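import Pool.Agent.MP_609e33_gt.h62.EvenB

/-!
For even `g ≥ 4` a central involution acts trivially on connected manifolds of dimension at most
`g (g + 1) / 2 + 1`.
-/

set_option autoImplicit false

open Matrix Module Set Topology Filter NormedSpace
open scoped Manifold

namespace Pool.Agent.MP_609e33_gt.Up

attribute [local instance] Matrix.linftyOpNormedRing Matrix.linftyOpNormedAlgebra

variable {g : ℕ}

section Involution

variable {E : Type} [NormedAddCommGroup E] [NormedSpace ℝ E] [FiniteDimensional ℝ E]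
  {M : Type*} [TopologicalSpace M] [ChartedSpace E M] [IsManifold 𝓘(ℝ, E) 1 M]

/-- An involution of class `C¹` of a connected manifold that fixes an open set is trivial. -/
lemma involution_trivial [T2Space M] [PreconnectedSpace M] {f : M → M}
    (hf : ContMDiff 𝓘(ℝ, E) 𝓘(ℝ, E) 1 f) (hff : ∀ x, f (f x) = x) {O : Set M} (hO : IsOpen O)
    (hne : O.Nonempty) (hfO : ∀ x ∈ O, f x = x) (x : M) : f x = x := by
  have : CompleteSpace E := FiniteDimensional.complete ℝ E
  have hcl : IsClopen (interior {x | f x = x}) := by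
    refine ⟨isClosed_of_closure_subset fun y hy => ?_, isOpen_interior⟩
    rw [mem_closure_iff_frequently] at hy
    have hy0 := mem_chart_source E y
    have hfy : f y = y := (isClosed_eq hf.continuous continuous_id).mem_of_frequently_of_tendsto
      (hy.mono fun x hx => interior_subset hx) tendsto_id
    have hF := contDiffAt_loc hf hy0 (y' := y) (by rwa [hfy])
    have hφ : ContinuousAt (chartAt E y) y := (chartAt E y).continuousAt hy0
    have hsrc : ∀ᶠ x in 𝓝 y, x ∈ (chartAt E y).source := (chartAt E y).open_source.mem_nhds hy0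
    have hc' : ContinuousAt (fun x => fderiv ℝ (loc E f y y) (chartAt E y x)) y :=
      ContinuousAt.comp (hF.fderiv_right (m := 0) (by simp)).continuousAt hφ
    have hD : fderiv ℝ (loc E f y y) (chartAt E y y) = ContinuousLinearMap.id ℝ E := by
      refine isClosed_singleton.mem_of_frequently_of_tendsto
        ((hy.and_eventually hsrc).mono fun x hx => ?_) hc'
      have h1 : ∀ᶠ v in 𝓝 (chartAt E y x), f ((chartAt E y).symm v) = (chartAt E y).symm v :=
        ((chartAt E y).tendsto_symm hx.2).eventually (mem_interior_iff_mem_nhds.mp hx.1)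
      have h2 : loc E f y y =ᶠ[𝓝 (chartAt E y x)] id := by
        filter_upwards [h1, (chartAt E y).open_target.mem_nhds ((chartAt E y).map_source hx.2)]
          with v hv hv'
        rw [loc, hv, (chartAt E y).right_inv hv', id]
      rw [mem_singleton_iff, h2.fderiv_eq, fderiv_id]
    have hs : HasStrictFDerivAt (fun v => (2⁻¹ : ℝ) • (v + loc E f y y v))
        ((ContinuousLinearEquiv.refl ℝ E : E ≃L[ℝ] E) : E →L[ℝ] E) (chartAt E y y) := by
      refine (((hasStrictFDerivAt_id _).add (hF.hasStrictFDerivAt one_ne_zero)).const_smul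
        (2⁻¹ : ℝ)).congr_fderiv ?_
      ext1 w
      simp only [hD, _root_.smul_apply, _root_.add_apply,
        ContinuousLinearMap.id_apply, ContinuousLinearEquiv.coe_refl]
      module
    have h3 := hφ.eventually hs.eventually_left_inverse
    have hfc : Tendsto f (𝓝 y) (𝓝 y) := by simpa only [hfy] using hf.continuous.tendsto y
    rw [mem_interior_iff_mem_nhds]
    filter_upwards [hsrc, h3, hfc.eventually hsrc, hfc.eventually h3] with x h4 h5 h6 h7
    refine (chartAt E y).injOn h6 h4 ?_
    rw [← h5, ← h7, loc, loc, (chartAt E y).left_inv h4, (chartAt E y).left_inv h6, hff, add_comm]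
  have := hcl.eq_univ (hne.mono (interior_maximal hfO hO))
  exact interior_subset (s := {x | f x = x}) (this.ge (mem_univ x))

end Involution

lemma exp_cx {K : Mat g} (h : K * K = -1) (t : ℝ) :
    exp (t • K) = Real.cos t • (1 : Mat g) + Real.sin t • K := by
  refine exp_eq_of_deriv (f := fun t => Real.cos t • (1 : Mat g) + Real.sin t • K)
    (by simp) (fun t => ?_) t
  refine (((Real.hasDerivAt_cos t).smul_const (1 : Mat g)).add
    ((Real.hasDerivAt_sin t).smul_const K)).congr_deriv ?_
  rw [mul_add, mul_smul_comm, mul_smul_comm, h, mul_one]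
  module

lemma exists_cx (hg : Even g) : ∃ K R : Sq g, Kᵀ = -K ∧ K * K = -1 ∧ Rᵀ = R ∧ R * R = 1 ∧
    R * K = -(K * R) := by
  obtain ⟨m, rfl⟩ := hg
  let e : Mat m ≃ₐ[ℝ] Sq (m + m) := reindexAlgEquiv ℝ ℝ finSumFinEquiv
  have he : ∀ X, (e X)ᵀ = e Xᵀ := fun X => rfl
  exact ⟨e (JJ m), e (a0 m), by rw [he, JJ_T, map_neg], by rw [← map_mul, JJ_sq, map_neg, map_one],
    by rw [he, a0_mem.1], by rw [← map_mul, a0_sq, map_one],
    by rw [← map_mul, ← map_mul, a0_mem.2, map_neg]⟩

variable {G : Type*} [Group G] [TopologicalSpace G] [IsTopologicalGroup G] {π : G →* Sp g}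
  {E : Type} [NormedAddCommGroup E] [NormedSpace ℝ E] [FiniteDimensional ℝ E]
  {M : Type*} [TopologicalSpace M] [ChartedSpace E M] [IsManifold 𝓘(ℝ, E) 1 M] [MulAction G M]
  {L : ExpLift π}

lemma good_iso (A : Act L E M) (hd : finrank ℝ E ≤ (g + 1).choose 2 + 1) {x : M}
    (hx : ¬ HasRot (iso L E x)) : Good (iso L E x) where
  le := iso_le x
  lie := A.iso_lie x
  ad X hX Y hY t := by
    have := A.iso_conj (L.e (t • ⟨X, iso_le x hX⟩)) hY
    rwa [(A.mem_iso x ⟨X, iso_le x hX⟩).mp hX t, coe_inv_e, L.lifts, Submodule.coe_smul,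
      ← smul_neg] at this
  norot := hx
  codim V _ _ _ φ hφ := by
    let ψ : V →ₗ[ℝ] E := (ev L E x x).toLinearMap ∘ₗ φ.codRestrict (sp g) hφ
    have h1 : LinearMap.ker ψ = (iso L E x).comap φ := by
      ext v
      exact (A.ev_eq_zero_iff (mem_chart_source E x) ⟨φ v, hφ v⟩).trans
        (A.mem_iso x ⟨φ v, hφ v⟩).symm
    have h2 := LinearMap.finrank_range_add_finrank_ker ψ
    have h3 := (LinearMap.range ψ).finrank_le
    rw [h1] at h2
    omega

theorem not_faithful_even (A : Act L E M) [T2Space M] [PreconnectedSpace M]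
    [SimplyConnectedSpace G] (hg : 3 ≤ g) (he : Even g) (hs : Function.Surjective π)
    (hd : finrank ℝ E ≤ (g + 1).choose 2 + 1) : ¬ FaithfulSMul G M := by
  intro hF
  obtain ⟨z, hz, hrot⟩ := L.exists_z0 (by omega)
  obtain ⟨K, R, h1, h2, h3, h4, h5⟩ := exists_cx he
  let X : sp g := ⟨dg g K, dg_mem h1⟩
  have hd1 : dg g 1 = 1 := by simp [dg]
  have hw : (π (L.e (Real.pi • X))).1 = -1 := by
    rw [L.lifts, Submodule.coe_smul, exp_cx (by rw [← dg_mul, h2, map_neg, hd1])]
    simp
  have hcen : ∀ a : G, a * L.e (Real.pi • X) * a⁻¹ = L.e (Real.pi • X) := fun a => by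
    have := L.cov.const_of_comp (g := fun a : G => a * L.e (Real.pi • X) * a⁻¹) (by fun_prop)
      (fun a a' => Subtype.ext (by
        simp only [map_mul, map_inv, Submonoid.coe_mul, hw, mul_neg, neg_mul, mul_one,
          coe_mul_inv])) a 1
    simpa using this
  have hww : L.e (Real.pi • X) * L.e (Real.pi • X) = 1 := by
    have k1 : dg g R * dg g R = 1 := by rw [← dg_mul, h4, hd1]
    obtain ⟨b, hb⟩ := hs ⟨dg g R, by
      rw [SymplecticGroup.mem_iff, dg_T, h3, ← dg_J, Matrix.mul_assoc, k1, mul_one]⟩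
    have k2 : Ad (π b) (Real.pi • X) = (-Real.pi) • X := by
      apply Subtype.ext
      rw [coe_Ad, SymplecticGroup.coe_inv', hb, inv_eq_right_inv k1]
      change dg g R * (Real.pi • dg g K) * dg g R = -Real.pi • dg g K
      rw [mul_smul_comm, smul_mul_assoc, ← dg_mul, ← dg_mul, h5, neg_mul, Matrix.mul_assoc, h4,
        mul_one, map_neg, neg_smul, smul_neg]
    nth_rewrite 1 [← hcen b]
    rw [L.conj, k2, ← L.e_add_smul, neg_add_cancel, zero_smul, L.zero]
  set w := L.e (Real.pi • X) with hwd
  have hO : ∀ x ∈ {x : M | z ^ (2 * g).factorial • x ≠ x}, w • x = x := by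
    intro x hx
    obtain ⟨_, ⟨b, rfl⟩, hb⟩ := exists_skew hg (𝓗 := range fun b : G => iso L E (b • x))
      (range_nonempty _) (by
        rintro _ ⟨b, rfl⟩
        refine good_iso A hd fun ⟨P, k0, k1, k2, k3, k4⟩ => hx ?_
        obtain ⟨m, hm, hm1, hm2⟩ := hrot P k1 k3 k2
        have k5 : z ^ m ∈ MulAction.stabilizer G (b • x) := by
          rw [← hm2]
          exact (A.mem_iso _ (rot P k1 k3)).mp k4 _
        obtain ⟨k, hk⟩ : m ∣ (2 * g).factorial := Nat.dvd_factorial (hm1 k0) hm
        have k6 : z ^ (2 * g).factorial • b • x = b • x := by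
          rw [hk, pow_mul]
          exact pow_mem k5 k
        rwa [← mul_smul, ← L.central (z := z ^ _) (by rw [map_pow, hz, one_pow]) b, mul_smul,
          smul_left_cancel_iff] at k6) (by
        rintro _ ⟨b, rfl⟩ B
        obtain ⟨c, rfl⟩ := hs B
        refine ⟨_, ⟨c⁻¹ * b, rfl⟩, fun Y => ⟨fun hY => ?_, fun hY => ?_⟩⟩
        · simpa only [mul_smul, smul_inv_smul] using A.iso_conj c hY
        · have := A.iso_conj c⁻¹ hY
          rwa [map_inv, inv_inv, ← Matrix.mul_assoc, ← Matrix.mul_assoc, coe_inv_mul, one_mul,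
            Matrix.mul_assoc, coe_inv_mul, mul_one, ← mul_smul] at this)
    have k1 : w • b • x = b • x := (A.mem_iso _ X).mp (hb K h1) _
    rwa [← hcen b, mul_smul, mul_smul, inv_smul_smul, smul_left_cancel_iff] at k1
  have hne : {x : M | z ^ (2 * g).factorial • x ≠ x}.Nonempty := by
    by_contra hc
    have hzK : z ^ (2 * g).factorial = 1 := hF.eq_of_smul_eq_smul fun x => by
      rw [one_smul]
      by_contra hx
      exact hc ⟨x, hx⟩
    obtain ⟨m, -, -, hm⟩ := hrot 1 (by simp) (by simp) (by simp)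
    refine L.ne_one (by omega) (T := (2 * g).factorial * (2 * Real.pi)) (by positivity) ?_
    rw [mul_smul, L.e_nsmul, hm, ← pow_mul, mul_comm, pow_mul, hzK, one_pow]
  have hw1 : w = 1 := hF.eq_of_smul_eq_smul fun x => by
    rw [one_smul]
    exact involution_trivial (A.sm w) (fun x => by rw [← mul_smul, hww, one_smul])
      (isOpen_ne_fun (A.sm _).continuous continuous_id) hne hO x
  rw [hw1, map_one] at hw
  have := congrFun (congrFun hw (.inl ⟨0, by omega⟩)) (.inl ⟨0, by omega⟩)
  norm_num at this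

end Pool.Agent.MP_609e33_gt.Up
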