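import Mathlib.Geometry.Manifold.ContMDiff.NormedSpace
import Mathlib.Geometry.Manifold.ContMDiff.Atlas
import Mathlib.Geometry.Manifold.Instances.Real
import Mathlib.Analysis.InnerProductSpace.PiL2

/-!
Subsets of a normed space with global parametrisations of open pieces are smooth manifolds.
-/

set_option autoImplicit false

open Set Topology Filter
open scoped Manifold ContDiff

namespace Pool.Agent.MP_609e33_gt.Up

variable {E : Type} [NormedAddCommGroup E] [NormedSpace ℝ E]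
  {E' : Type} [NormedAddCommGroup E'] [NormedSpace ℝ E']
  {F : Type} [NormedAddCommGroup F] [NormedSpace ℝ F]
  {F' : Type} [NormedAddCommGroup F'] [NormedSpace ℝ F']

/-- A chart of a subset `S` of `E`, onto the whole model space `F`, given by smooth ambient maps. -/
structure Ch (S : Set E) (F : Type) [NormedAddCommGroup F] [NormedSpace ℝ F] where
  U : Set E
  φ : E → F
  ψ : F → E
  op : IsOpen U
  sφ : ContDiffOn ℝ ∞ φ U
  sψ : ContDiff ℝ ∞ ψ
  mS : ∀ y, ψ y ∈ S
  mU : ∀ y, ψ y ∈ U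
  li : ∀ x ∈ S, x ∈ U → ψ (φ x) = x
  ri : ∀ y, φ (ψ y) = y

/-- `S` is covered by charts. -/
def IsSub (S : Set E) (F : Type) [NormedAddCommGroup F] [NormedSpace ℝ F] : Prop :=
  ∀ x ∈ S, ∃ c : Ch S F, x ∈ c.U

/-- The chart as a local homeomorphism of the subtype. -/
def Ch.toH {S : Set E} (c : Ch S F) : OpenPartialHomeomorph S F where
  toFun x := c.φ x
  invFun y := ⟨c.ψ y, c.mS y⟩
  source := Subtype.val ⁻¹' c.U
  target := univ
  map_source' _ _ := mem_univ _
  map_target' y _ := c.mU y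
  left_inv' x hx := Subtype.ext (c.li x x.2 hx)
  right_inv' y _ := c.ri y
  open_source := c.op.preimage continuous_subtype_val
  open_target := isOpen_univ
  continuousOn_toFun := c.sφ.continuousOn.comp continuous_subtype_val.continuousOn fun _ hx => hx
  continuousOn_invFun := (c.sψ.continuous.subtype_mk _).continuousOn

theorem IsSub.prod {S : Set E} {S' : Set E'} (h : IsSub S F) (h' : IsSub S' F') :
    IsSub (S ×ˢ S') (F × F') := by
  rintro ⟨x, x'⟩ ⟨hx, hx'⟩
  obtain ⟨c, hc⟩ := h x hx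
  obtain ⟨c', hc'⟩ := h' x' hx'
  refine ⟨⟨c.U ×ˢ c'.U, fun p => (c.φ p.1, c'.φ p.2), fun q => (c.ψ q.1, c'.ψ q.2),
    c.op.prod c'.op, ?_, ?_, fun y => ⟨c.mS _, c'.mS _⟩, fun y => ⟨c.mU _, c'.mU _⟩,
    fun p hp hu => Prod.ext (c.li _ hp.1 hu.1) (c'.li _ hp.2 hu.2),
    fun q => Prod.ext (c.ri _) (c'.ri _)⟩, hc, hc'⟩
  · exact (c.sφ.comp contDiffOn_fst fun p hp => hp.1).prodMk
      (c'.sφ.comp contDiffOn_snd fun p hp => hp.2)
  · exact (c.sψ.comp contDiff_fst).prodMk (c'.sψ.comp contDiff_snd)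

theorem IsSub.equiv {S : Set E} (h : IsSub S F) (e : F ≃L[ℝ] F') : IsSub S F' := by
  intro x hx
  obtain ⟨c, hc⟩ := h x hx
  exact ⟨⟨c.U, fun p => e (c.φ p), fun q => c.ψ (e.symm q), c.op,
    e.contDiff.comp_contDiffOn c.sφ, c.sψ.comp e.symm.contDiff, fun y => c.mS _, fun y => c.mU _,
    fun p hp hu => by rw [e.symm_apply_apply, c.li p hp hu],
    fun q => by rw [c.ri, e.apply_symm_apply]⟩, hc⟩

namespace IsSub

variable {S : Set E} (h : IsSub S F)

/-- The atlas of all charts. -/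
@[reducible] noncomputable def cs : ChartedSpace F S where
  atlas := range (Ch.toH (S := S) (F := F))
  chartAt x := (h x x.2).choose.toH
  mem_chart_source x := (h x x.2).choose_spec
  chart_mem_atlas _ := mem_range_self _

theorem isManifold : @IsManifold ℝ _ F _ _ F _ 𝓘(ℝ, F) ∞ S _ h.cs := by
  let _ := h.cs
  refine isManifold_of_contDiffOn _ _ _ ?_
  rintro _ _ ⟨c, rfl⟩ ⟨c', rfl⟩
  refine (c'.sφ.comp c.sψ.contDiffOn fun y hy => hy.1.2).congr fun y _ => rfl

theorem contMDiff_val : letI := h.cs; ContMDiff 𝓘(ℝ, F) 𝓘(ℝ, E) ∞ (Subtype.val : S → E) := by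
  let _ := h.cs
  intro x
  rw [contMDiffAt_iff]
  refine ⟨continuous_subtype_val.continuousAt, ?_⟩
  exact ((h x x.2).choose.sψ.contDiffAt.contDiffWithinAt)

theorem contMDiff_mk {V : Type*} [NormedAddCommGroup V] [NormedSpace ℝ V] {H : Type*}
    [TopologicalSpace H] {I : ModelWithCorners ℝ V H} {N : Type*} [TopologicalSpace N]
    [ChartedSpace H N] {f : N → S} (hf : ContMDiff I 𝓘(ℝ, E) ∞ fun x => (f x : E)) :
    letI := h.cs; ContMDiff I 𝓘(ℝ, F) ∞ f := by
  let _ := h.cs
  intro x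
  rw [contMDiffAt_iff_target]
  refine ⟨(hf.continuous.subtype_mk _).continuousAt, ?_⟩
  have hc := (h (f x) (f x).2).choose_spec
  exact (((h (f x) (f x).2).choose.sφ.contDiffAt
    ((h (f x) (f x).2).choose.op.mem_nhds hc)).contMDiffAt).comp (f := fun x => (f x : E)) x (hf x)

end IsSub

end Pool.Agent.MP_609e33_gt.Up
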