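import Mathlib.Analysis.Calculus.ContDiff.Operations
import Mathlib.Analysis.SpecialFunctions.Trigonometric.Inverse
import Mathlib.LinearAlgebra.Matrix.PosDef
import Mathlib.LinearAlgebra.Eigenspace.Minpoly
import Pool.Agent.MP_609e33_gt.Smooth
import Pool.Agent.MP_609e33_gt.h62.Sub

/-!
The Lagrangian Grassmannian as the set of symmetric involutions anticommuting with `J`.
-/

set_option autoImplicit false

open Matrix Module Set Topology Filter
open scoped Manifold ContDiff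

namespace Pool.Agent.MP_609e33_gt.Up

attribute [local instance] Matrix.linftyOpNormedRing Matrix.linftyOpNormedAlgebra

section Smooth

variable {V : Type*} [NormedAddCommGroup V] [NormedSpace ℝ V] {m : Type} [Fintype m]
  [DecidableEq m]

/-- Matrices as arrays. -/
noncomputable def arr (m : Type) [Fintype m] [DecidableEq m] :
    Matrix m m ℝ ≃L[ℝ] (m → m → ℝ) :=
  LinearEquiv.toContinuousLinearEquiv
    { toFun := fun A i j => A i j
      invFun := fun A => Matrix.of A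
      map_add' := fun _ _ => rfl
      map_smul' := fun _ _ => rfl
      left_inv := fun _ => rfl
      right_inv := fun _ => rfl }

lemma contDiffAt_mat {f : V → Matrix m m ℝ} {x : V} :
    ContDiffAt ℝ ∞ f x ↔ ∀ i j, ContDiffAt ℝ ∞ (fun y => f y i j) x := by
  rw [← (arr m).comp_contDiffAt_iff, contDiffAt_pi]
  exact forall_congr' fun i => contDiffAt_pi

lemma contDiff_mat {f : V → Matrix m m ℝ} :
    ContDiff ℝ ∞ f ↔ ∀ i j, ContDiff ℝ ∞ (fun y => f y i j) := by
  rw [← (arr m).comp_contDiff_iff, contDiff_pi]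
  exact forall_congr' fun i => contDiff_pi

lemma contDiff_entry (i j : m) : ContDiff ℝ ∞ fun A : Matrix m m ℝ => A i j :=
  contDiff_mat.mp (contDiff_id (E := Matrix m m ℝ)) i j

lemma contDiffAt_minv {A : Matrix m m ℝ} (h : A.det ≠ 0) :
    ContDiffAt ℝ ∞ (fun B : Matrix m m ℝ => B⁻¹) A := by
  have hu : IsUnit A := (Matrix.isUnit_iff_isUnit_det A).mpr (Ne.isUnit h)
  have := contDiffAt_ringInverse (n := ∞) ℝ hu.unit
  simp only [Matrix.nonsing_inv_eq_ringInverse]
  exact this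

lemma det_ne_zero_of_ker {A : Matrix m m ℝ} (h : ∀ v, A *ᵥ v = 0 → v = 0) : A.det ≠ 0 :=
  fun h0 => by
    obtain ⟨v, hv, h1⟩ := Matrix.exists_mulVec_eq_zero_iff.mpr h0
    exact hv (h v h1)

omit [DecidableEq m] in
lemma dot_nonneg (v : m → ℝ) : 0 ≤ v ⬝ᵥ v := Finset.sum_nonneg fun _ _ => mul_self_nonneg _

omit [DecidableEq m] in
lemma dot_T (A : Matrix m m ℝ) (v w : m → ℝ) : v ⬝ᵥ (Aᵀ *ᵥ w) = (A *ᵥ v) ⬝ᵥ w := by
  rw [dotProduct_mulVec, vecMul_transpose]

lemma det_one_add_sq {S : Matrix m m ℝ} (h : Sᵀ = S) : (1 + S * S).det ≠ 0 := by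
  refine det_ne_zero_of_ker fun v hv => ?_
  have h1 := congrArg (v ⬝ᵥ ·) hv
  simp only [add_mulVec, one_mulVec, dotProduct_add, dotProduct_zero, ← mulVec_mulVec] at h1
  nth_rewrite 1 [← h] at h1
  rw [dot_T] at h1
  have h2 := dot_nonneg v
  have h3 := dot_nonneg (S *ᵥ v)
  exact dotProduct_self_eq_zero.mp (by linarith)

/-- An angle whose cosine avoids the eigenvalues. -/
lemma exists_angle (X : Matrix m m ℝ) :
    ∃ θ : ℝ, ∀ v, X *ᵥ v = -(Real.cos θ • v) → v = 0 := by
  have h1 : (spectrum ℝ X).Finite := Matrix.finite_spectrum X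
  obtain ⟨c, hc, hc'⟩ := (Set.Icc_infinite (by norm_num : (-1 : ℝ) < 1)).exists_notMem_finite h1
  refine ⟨Real.arccos (-c), fun v hv => ?_⟩
  rw [Real.cos_arccos (by linarith [hc.2]) (by linarith [hc.1]), neg_smul, neg_neg] at hv
  rw [spectrum.mem_iff, not_not, Matrix.isUnit_iff_isUnit_det] at hc'
  by_contra h0
  refine hc'.ne_zero (Matrix.exists_mulVec_eq_zero_iff.mp ⟨v, h0, ?_⟩)
  rw [sub_mulVec, hv, Algebra.algebraMap_eq_smul_one, smul_mulVec, one_mulVec, sub_self]

end Smooth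

variable {g : ℕ}

/-- The rotation by the angle `θ`. -/
noncomputable def rr (g : ℕ) (θ : ℝ) : Mat g := Real.cos θ • 1 + Real.sin θ • JJ g

lemma rr_zero : rr g 0 = 1 := by simp [rr]

lemma rr_add (a b : ℝ) : rr g (a + b) = rr g a * rr g b := by
  simp only [rr, mul_add, add_mul, smul_mul_assoc, mul_smul_comm, one_mul, mul_one, JJ_sq,
    Real.cos_add, Real.sin_add]
  module

lemma rr_neg_mul (a : ℝ) : rr g (-a) * rr g a = 1 := by rw [← rr_add, neg_add_cancel, rr_zero]

lemma rr_mul_neg (a : ℝ) : rr g a * rr g (-a) = 1 := by rw [← rr_add, add_neg_cancel, rr_zero]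

lemma rr_J (a : ℝ) : JJ g * rr g a = rr g a * JJ g := by
  simp only [rr, mul_add, add_mul, smul_mul_assoc, mul_smul_comm, one_mul, mul_one]

lemma rr_T (a : ℝ) : (rr g a)ᵀ = rr g (-a) := by
  simp only [rr, transpose_add, transpose_smul, transpose_one, JJ_T, Real.cos_neg, Real.sin_neg,
    smul_neg, neg_smul]

lemma mul_rr {W : Mat g} (h : W * JJ g = -(JJ g * W)) (a : ℝ) : W * rr g a = rr g (-a) * W := by
  simp only [rr, mul_add, add_mul, smul_mul_assoc, mul_smul_comm, one_mul, mul_one, h,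
    Real.cos_neg, Real.sin_neg, smul_neg, neg_smul, neg_mul]

lemma contDiff_rr : ContDiff ℝ ∞ (rr g) :=
  (Real.contDiff_cos.smul contDiff_const).add (Real.contDiff_sin.smul contDiff_const)

/-- The Lagrangian Grassmannian: a Lagrangian is recorded by the reflection in it. -/
def Lam (g : ℕ) : Set (Mat g) := {W | W ∈ pp g ∧ W * W = 1}

lemma rr_mul_mem {W : Mat g} (h : W ∈ Lam g) (a : ℝ) : rr g a * W ∈ Lam g := by
  refine ⟨⟨?_, ?_⟩, ?_⟩
  · rw [transpose_mul, rr_T, h.1.1, mul_rr h.1.2, neg_neg]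
  · rw [Matrix.mul_assoc, h.1.2, mul_neg, ← Matrix.mul_assoc, ← rr_J, Matrix.mul_assoc]
  · rw [Matrix.mul_assoc, ← Matrix.mul_assoc W, mul_rr h.1.2, Matrix.mul_assoc, h.2, mul_one,
      rr_mul_neg]

lemma isCompact_Lam : IsCompact (Lam g) := by
  have h1 : IsClosed (Lam g) := by
    have : Lam g = {W | Wᵀ = W} ∩ {W | W * JJ g = -(JJ g * W)} ∩ {W | W * W = 1} := rfl
    rw [this]
    exact ((isClosed_eq (by fun_prop) (by fun_prop)).inter
      (isClosed_eq (by fun_prop) (by fun_prop))).inter (isClosed_eq (by fun_prop) (by fun_prop))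
  have h2 : IsCompact (Set.pi univ fun _ : Fin g ⊕ Fin g => Set.pi univ
      fun _ : Fin g ⊕ Fin g => Icc (-1 : ℝ) 1) :=
    isCompact_univ_pi fun _ => isCompact_univ_pi fun _ => isCompact_Icc
  refine IsCompact.of_isClosed_subset (X := Mat g) h2 h1 fun W hW i _ j _ => ?_
  have h3 : ∑ k, W i k * W i k = 1 := by
    have := congrFun (congrFun hW.2 i) i
    rw [mul_apply, one_apply_eq] at this
    rw [← this]
    exact Finset.sum_congr rfl fun k _ => by rw [← transpose_apply W k i, hW.1.1]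
  have h4 : W i j * W i j ≤ 1 := h3 ▸ Finset.single_le_sum (f := fun k => W i k * W i k)
    (fun k _ => mul_self_nonneg _) (Finset.mem_univ j)
  exact abs_le.mp (abs_le_one_iff_mul_self_le_one.mpr h4)

/-- Square real matrices of size `g`. -/
abbrev Sq (g : ℕ) : Type := Matrix (Fin g) (Fin g) ℝ

lemma blocks {W : Mat g} (h : W ∈ Lam g) : ∃ X Y : Sq g, W = fromBlocks X Y Y (-X) ∧ Xᵀ = X ∧
    Yᵀ = Y ∧ X * X + Y * Y = 1 ∧ X * Y = Y * X := by
  obtain ⟨⟨h1, h2⟩, h3⟩ := h
  rw [← fromBlocks_toBlocks W] at h1 h2 h3 ⊢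
  generalize W.toBlocks₁₁ = A, W.toBlocks₁₂ = B, W.toBlocks₂₁ = C, W.toBlocks₂₂ = D at *
  rw [fromBlocks_transpose, fromBlocks_inj] at h1
  simp only [JJ, Matrix.J, fromBlocks_multiply, fromBlocks_neg, fromBlocks_inj, mul_zero,
    zero_mul, mul_one, one_mul, mul_neg, neg_mul, zero_add, add_zero, neg_neg] at h2
  obtain ⟨rfl, h4, -, -⟩ := h2
  obtain rfl : D = -A := by rw [← h4]
  rw [fromBlocks_multiply, ← fromBlocks_one, fromBlocks_inj] at h3
  refine ⟨A, B, rfl, h1.1, h1.2.1, h3.1, ?_⟩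
  have := h3.2.1
  rwa [mul_neg, add_neg_eq_zero] at this

lemma mem_of_blocks {X Y : Sq g} (h1 : Xᵀ = X) (h2 : Yᵀ = Y) (h3 : X * X + Y * Y = 1)
    (h4 : X * Y = Y * X) : fromBlocks X Y Y (-X) ∈ Lam g := by
  refine ⟨⟨?_, ?_⟩, ?_⟩
  · rw [fromBlocks_transpose, transpose_neg, h1, h2]
  · simp [Matrix.J, fromBlocks_multiply, fromBlocks_neg]
  · rw [fromBlocks_multiply, ← fromBlocks_one, h3, mul_neg, neg_mul, h4, neg_mul_neg,
      add_neg_cancel, add_comm, h3]

/-- The symmetric matrix with given entries. -/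
def ofS (f : Sym2 (Fin g) → ℝ) : Sq g := Matrix.of fun i j => f s(i, j)

/-- The entries of the symmetric part. -/
noncomputable def toS (S : Sq g) : Sym2 (Fin g) → ℝ :=
  Sym2.lift ⟨fun i j => (S i j + S j i) / 2, fun i j => by simp only [add_comm]⟩

lemma ofS_T (f : Sym2 (Fin g) → ℝ) : (ofS f)ᵀ = ofS f := by
  ext i j
  simp [ofS, Sym2.eq_swap]

lemma toS_ofS (f : Sym2 (Fin g) → ℝ) : toS (ofS f) = f := by
  funext z
  induction z using Sym2.ind with
  | _ i j => simp [toS, ofS, Sym2.eq_swap]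

lemma ofS_toS {S : Sq g} (h : Sᵀ = S) : ofS (toS S) = S := by
  ext i j
  have : S j i = S i j := by rw [← transpose_apply S i j, h]
  simp [toS, ofS, this]

lemma contDiff_ofS : ContDiff ℝ ∞ (ofS (g := g)) :=
  contDiff_mat.mpr fun i j => contDiff_apply ℝ ℝ s(i, j)

lemma contDiff_toS : ContDiff ℝ ∞ (toS (g := g)) := by
  refine contDiff_pi.mpr fun z => ?_
  induction z using Sym2.ind with
  | _ i j => exact ((contDiff_entry i j).add (contDiff_entry j i)).div_const 2

/-- The inverse stereographic projection. -/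
noncomputable def st (S : Sq g) : Mat g :=
  fromBlocks ((2 : ℝ) • (1 + S * S)⁻¹ - 1) ((2 : ℝ) • (S * (1 + S * S)⁻¹))
    ((2 : ℝ) • (S * (1 + S * S)⁻¹)) (-((2 : ℝ) • (1 + S * S)⁻¹ - 1))

/-- The stereographic projection. -/
noncomputable def pr (W : Mat g) : Sq g := W.toBlocks₂₁ * (1 + W.toBlocks₁₁)⁻¹

lemma st_mem {S : Sq g} (h : Sᵀ = S) : st S ∈ Lam g := by
  have hd := (det_one_add_sq h).isUnit
  set T := (1 + S * S)⁻¹ with hT
  have h1 : Tᵀ = T := by rw [hT, transpose_nonsing_inv, transpose_add, transpose_one,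
    transpose_mul, h]
  have h2 : T * (1 + S * S) = 1 := nonsing_inv_mul _ hd
  have h3 : (1 + S * S) * T = 1 := mul_nonsing_inv _ hd
  have h4 : T * S = S * T := by
    calc T * S = T * S * ((1 + S * S) * T) := by rw [h3, mul_one]
      _ = T * (1 + S * S) * S * T := by noncomm_ring
      _ = S * T := by rw [h2, one_mul]
  have h5 : ∀ Z, T * (S * Z) = S * (T * Z) := fun Z => by
    rw [← Matrix.mul_assoc, h4, Matrix.mul_assoc]
  rw [st, ← hT]
  refine mem_of_blocks ?_ ?_ ?_ ?_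
  · rw [transpose_sub, transpose_smul, h1, transpose_one]
  · rw [transpose_smul, transpose_mul, h1, h, h4]
  · have : S * (S * (T * T)) = T - T * T := by
      rw [eq_sub_iff_add_eq]
      calc S * (S * (T * T)) + T * T = (1 + S * S) * T * T := by noncomm_ring
        _ = T := by rw [h3, one_mul]
    simp only [mul_sub, sub_mul, smul_mul_assoc, mul_smul_comm, mul_one, one_mul,
      Matrix.mul_assoc, h5, this]
    module
  · simp only [mul_sub, sub_mul, smul_mul_assoc, mul_smul_comm, mul_one, one_mul,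
      Matrix.mul_assoc, h5, smul_sub]

lemma one_add_st (S : Sq g) : 1 + (st S).toBlocks₁₁ = (2 : ℝ) • (1 + S * S)⁻¹ := by
  rw [st, toBlocks_fromBlocks₁₁, add_sub_cancel]

lemma inv_two_smul_inv {A : Sq g} (h : A.det ≠ 0) : ((2 : ℝ) • A⁻¹)⁻¹ = (2⁻¹ : ℝ) • A := by
  refine inv_eq_right_inv ?_
  rw [smul_mul_assoc, mul_smul_comm, nonsing_inv_mul _ h.isUnit, smul_smul]
  norm_num

lemma det_st {S : Sq g} (h : Sᵀ = S) : (1 + (st S).toBlocks₁₁).det ≠ 0 := by
  rw [one_add_st, det_smul, det_nonsing_inv, Ring.inverse_eq_inv']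
  exact mul_ne_zero (pow_ne_zero _ two_ne_zero) (inv_ne_zero (det_one_add_sq h))

lemma pr_st {S : Sq g} (h : Sᵀ = S) : pr (st S) = S := by
  rw [pr, one_add_st, inv_two_smul_inv (det_one_add_sq h), st, toBlocks_fromBlocks₂₁,
    smul_mul_assoc, mul_smul_comm, Matrix.mul_assoc,
    nonsing_inv_mul _ (det_one_add_sq h).isUnit, smul_smul]
  norm_num

lemma st_pr {W : Mat g} (h : W ∈ Lam g) (hd : (1 + W.toBlocks₁₁).det ≠ 0) :
    (pr W)ᵀ = pr W ∧ st (pr W) = W := by
  obtain ⟨X, Y, rfl, h1, h2, h3, h4⟩ := blocks h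
  rw [toBlocks_fromBlocks₁₁] at hd
  rw [pr, toBlocks_fromBlocks₁₁, toBlocks_fromBlocks₂₁]
  set T := (1 + X)⁻¹ with hT
  have a1 : Tᵀ = T := by rw [hT, transpose_nonsing_inv, transpose_add, transpose_one, h1]
  have a2 : T * (1 + X) = 1 := nonsing_inv_mul _ hd.isUnit
  have a3 : (1 + X) * T = 1 := mul_nonsing_inv _ hd.isUnit
  have a4 : T * Y = Y * T := by
    calc T * Y = T * Y * ((1 + X) * T) := by rw [a3, mul_one]
      _ = T * (Y + Y * X) * T := by noncomm_ring
      _ = T * (1 + X) * Y * T := by rw [← h4]; noncomm_ring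
      _ = Y * T := by rw [a2, one_mul]
  have a5 : 1 + Y * T * (Y * T) = (2 : ℝ) • (1 + X)⁻¹ := by
    have b1 : Y * Y = (1 - X) * (1 + X) := by
      rw [eq_sub_of_add_eq' h3]
      noncomm_ring
    calc 1 + Y * T * (Y * T) = 1 + Y * (T * Y) * T := by noncomm_ring
      _ = (1 + X) * T + Y * Y * T * T := by rw [a4, a3]; noncomm_ring
      _ = (1 + X) * T + (1 - X) * T := by rw [b1, Matrix.mul_assoc (1 - X), a3, mul_one]
      _ = (2 : ℝ) • T := by rw [two_smul]; noncomm_ring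
  refine ⟨by rw [transpose_mul, a1, h2, a4], ?_⟩
  rw [st, a5, inv_two_smul_inv hd, mul_smul_comm, Matrix.mul_assoc, a2, smul_smul, smul_smul]
  norm_num

lemma contDiff_st : ContDiff ℝ ∞ fun f : Sym2 (Fin g) → ℝ => st (ofS f) := by
  have h1 : ContDiff ℝ ∞ fun f : Sym2 (Fin g) → ℝ => (1 + ofS f * ofS f)⁻¹ :=
    contDiff_iff_contDiffAt.mpr fun f => (contDiffAt_minv (det_one_add_sq (ofS_T f))).comp f
      (contDiff_const.add (contDiff_ofS.mul contDiff_ofS)).contDiffAt
  have h2 := contDiff_mat.mp ((h1.const_smul (2 : ℝ)).sub (contDiff_const (c := (1 : Sq g))))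
  have h3 := contDiff_mat.mp ((contDiff_ofS.mul h1).const_smul (2 : ℝ))
  refine contDiff_mat.mpr fun i j => ?_
  rcases i with i | i <;> rcases j with j | j
  · exact h2 i j
  · exact h3 i j
  · exact h3 i j
  · exact (h2 i j).neg

lemma contDiffAt_pr {W : Mat g} (hd : (1 + W.toBlocks₁₁).det ≠ 0) : ContDiffAt ℝ ∞ pr W := by
  have h1 : ContDiff ℝ ∞ fun W : Mat g => W.toBlocks₁₁ :=
    contDiff_mat.mpr fun i j => contDiff_entry _ _
  have h2 : ContDiff ℝ ∞ fun W : Mat g => W.toBlocks₂₁ :=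
    contDiff_mat.mpr fun i j => contDiff_entry _ _
  exact h2.contDiffAt.mul ((contDiffAt_minv hd).comp W (contDiff_const.add h1).contDiffAt)

/-- The chart of the Lagrangian Grassmannian with angle `θ`. -/
noncomputable def chL (g : ℕ) (θ : ℝ) : Ch (Lam g) (Sym2 (Fin g) → ℝ) where
  U := {W | (1 + (rr g θ * W).toBlocks₁₁).det ≠ 0}
  φ W := toS (pr (rr g θ * W))
  ψ f := rr g (-θ) * st (ofS f)
  op := by
    refine isOpen_ne_fun (Continuous.matrix_det (continuous_const.add ?_)) continuous_const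
    exact continuous_matrix fun i j => (continuous_const.matrix_mul continuous_id).matrix_elem _ _
  sφ W hW := (contDiff_toS.contDiffAt.comp W ((contDiffAt_pr hW).comp W
    (contDiff_const.mul contDiff_id).contDiffAt)).contDiffWithinAt
  sψ := contDiff_const.mul contDiff_st
  mS f := rr_mul_mem (st_mem (ofS_T f)) _
  mU f := by
    rw [mem_ofPred_eq, ← Matrix.mul_assoc, rr_mul_neg, one_mul]
    exact det_st (ofS_T f)
  li W hW hU := by
    obtain ⟨h1, h2⟩ := st_pr (rr_mul_mem hW θ) hU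
    rw [ofS_toS h1, h2, ← Matrix.mul_assoc, rr_neg_mul, one_mul]
  ri f := by rw [← Matrix.mul_assoc, rr_mul_neg, one_mul, pr_st (ofS_T f), toS_ofS]

lemma exists_chL {W : Mat g} (hW : W ∈ Lam g) : ∃ θ, W ∈ (chL g θ).U := by
  obtain ⟨X, Y, rfl, h1, h2, h3, h4⟩ := blocks hW
  obtain ⟨θ, hθ⟩ := exists_angle X
  refine ⟨θ, det_ne_zero_of_ker fun v hv => hθ v ?_⟩
  have e1 : (rr g θ * fromBlocks X Y Y (-X)).toBlocks₁₁ = Real.cos θ • X - Real.sin θ • Y := by
    rw [rr, add_mul, smul_mul_assoc, smul_mul_assoc, one_mul, JJ, Matrix.J, fromBlocks_multiply,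
      fromBlocks_smul, fromBlocks_smul, fromBlocks_add, toBlocks_fromBlocks₁₁]
    simp [sub_eq_add_neg]
  rw [e1] at hv
  set c := Real.cos θ
  set s := Real.sin θ
  have hcs : c ^ 2 + s ^ 2 = 1 := Real.cos_sq_add_sin_sq θ
  have b1 : (c • X - s • Y) *ᵥ v = -v := by
    rw [add_mulVec, one_mulVec] at hv
    exact eq_neg_of_add_eq_zero_right hv
  have b2 : (s • X + c • Y) * (s • X + c • Y) = 1 - (c • X - s • Y) * (c • X - s • Y) := by
    rw [← h3]
    simp only [mul_add, add_mul, mul_sub, sub_mul, smul_mul_assoc, mul_smul_comm, h4]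
    match_scalars
    · linear_combination hcs
    · ring
    · linear_combination hcs
  have b3 : (s • X + c • Y) *ᵥ v = 0 := by
    have b4 : (s • X + c • Y)ᵀ = s • X + c • Y := by
      rw [transpose_add, transpose_smul, transpose_smul, h1, h2]
    rw [← dotProduct_self_eq_zero, ← dot_T, b4, mulVec_mulVec, b2, sub_mulVec, ← mulVec_mulVec,
      b1, mulVec_neg, b1, neg_neg, one_mulVec, sub_self, dotProduct_zero]
  have b5 : X = c • (c • X - s • Y) + s • (s • X + c • Y) := by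
    match_scalars
    · linear_combination -hcs
    · ring
  rw [b5, add_mulVec, smul_mulVec, smul_mulVec, b1, b3, smul_zero, add_zero, smul_neg]

theorem isSub_Lam : IsSub (Lam g) (Sym2 (Fin g) → ℝ) := fun _ hW =>
  (exists_chL hW).elim fun θ h => ⟨chL g θ, h⟩

end Pool.Agent.MP_609e33_gt.Up
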