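import Pool.Agent.MP_609e33_gt.h62.Lam

/-!
The action of the symplectic group on the Lagrangian Grassmannian and its automorphy factor.
-/

set_option autoImplicit false

open Matrix Module Set Topology Filter
open scoped Manifold ContDiff

namespace Pool.Agent.MP_609e33_gt.Up

attribute [local instance] Matrix.linftyOpNormedRing Matrix.linftyOpNormedAlgebra

variable {g : ℕ}

/-- The complex linear part. -/
noncomputable def lin (X : Mat g) : Mat g := (2⁻¹ : ℝ) • (X - JJ g * X * JJ g)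

/-- The antilinear part. -/
noncomputable def ant (X : Mat g) : Mat g := (2⁻¹ : ℝ) • (X + JJ g * X * JJ g)

lemma mul_JJ (X : Mat g) : X * JJ g * JJ g = -X := by
  rw [Matrix.mul_assoc, JJ_sq, mul_neg, mul_one]

lemma lin_add_ant (X : Mat g) : lin X + ant X = X := by
  rw [lin, ant]
  module

lemma lin_J (X : Mat g) : JJ g * lin X = lin X * JJ g := by
  rw [lin, mul_smul_comm, smul_mul_assoc, mul_sub, sub_mul, mul_JJ, Matrix.mul_assoc, JJ_mul]
  congr 1
  abel

lemma ant_J (X : Mat g) : ant X * JJ g = -(JJ g * ant X) := by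
  rw [ant, mul_smul_comm, smul_mul_assoc, mul_add, add_mul, mul_JJ, Matrix.mul_assoc, JJ_mul,
    ← smul_neg]
  congr 1
  abel

lemma lin_eq {D N : Mat g} (hD : JJ g * D = D * JJ g) (hN : N * JJ g = -(JJ g * N)) :
    lin (D + N) = D := by
  rw [lin, mul_add, add_mul, hD, mul_JJ, Matrix.mul_assoc, hN, mul_neg, JJ_mul]
  module

lemma ant_eq {D N : Mat g} (hD : JJ g * D = D * JJ g) (hN : N * JJ g = -(JJ g * N)) :
    ant (D + N) = N := by
  rw [ant, mul_add, add_mul, hD, mul_JJ, Matrix.mul_assoc, hN, mul_neg, JJ_mul]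
  module

lemma split_eq {D N D' N' : Mat g} (hD : JJ g * D = D * JJ g) (hN : N * JJ g = -(JJ g * N))
    (hD' : JJ g * D' = D' * JJ g) (hN' : N' * JJ g = -(JJ g * N')) (h : D + N = D' + N') :
    D = D' ∧ N = N' :=
  ⟨by rw [← lin_eq hD hN, h, lin_eq hD' hN'], by rw [← ant_eq hD hN, h, ant_eq hD' hN']⟩

lemma lin_T {D : Mat g} (hD : JJ g * D = D * JJ g) : JJ g * Dᵀ = Dᵀ * JJ g := by
  have := congrArg transpose hD
  rw [transpose_mul, transpose_mul, JJ_T, mul_neg, neg_mul, neg_inj] at this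
  exact this.symm

lemma ant_T {N : Mat g} (hN : N * JJ g = -(JJ g * N)) : Nᵀ * JJ g = -(JJ g * Nᵀ) := by
  have := congrArg transpose hN
  rw [transpose_neg, transpose_mul, transpose_mul, JJ_T, mul_neg, neg_mul, neg_neg] at this
  exact this.symm

lemma lin_mul {D D' : Mat g} (hD : JJ g * D = D * JJ g) (hD' : JJ g * D' = D' * JJ g) :
    JJ g * (D * D') = D * D' * JJ g := by
  rw [← Matrix.mul_assoc, hD, Matrix.mul_assoc, hD', Matrix.mul_assoc]

lemma ant_lin {N D : Mat g} (hN : N * JJ g = -(JJ g * N)) (hD : JJ g * D = D * JJ g) :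
    N * D * JJ g = -(JJ g * (N * D)) := by
  rw [Matrix.mul_assoc, ← hD, ← Matrix.mul_assoc, hN, neg_mul, Matrix.mul_assoc]

lemma lin_ant {D N : Mat g} (hD : JJ g * D = D * JJ g) (hN : N * JJ g = -(JJ g * N)) :
    D * N * JJ g = -(JJ g * (D * N)) := by
  rw [Matrix.mul_assoc, hN, mul_neg, ← Matrix.mul_assoc, ← hD, Matrix.mul_assoc]

lemma ant_ant {N N' : Mat g} (hN : N * JJ g = -(JJ g * N)) (hN' : N' * JJ g = -(JJ g * N')) :
    JJ g * (N * N') = N * N' * JJ g := by
  rw [Matrix.mul_assoc, hN', mul_neg, ← Matrix.mul_assoc N, hN, neg_mul, neg_neg,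
    Matrix.mul_assoc]

lemma lin_inv {D : Mat g} (hD : JJ g * D = D * JJ g) (h : D.det ≠ 0) :
    JJ g * D⁻¹ = D⁻¹ * JJ g := by
  calc JJ g * D⁻¹ = D⁻¹ * D * JJ g * D⁻¹ := by rw [nonsing_inv_mul _ h.isUnit, one_mul]
    _ = D⁻¹ * JJ g * (D * D⁻¹) := by
      rw [Matrix.mul_assoc D⁻¹ D, ← hD]
      simp only [Matrix.mul_assoc]
    _ = D⁻¹ * JJ g := by rw [mul_nonsing_inv _ h.isUnit, mul_one]

/-- The denominator of the fractional linear action. -/
noncomputable def den (A W : Mat g) : Mat g := lin (A * (1 + W))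

/-- The numerator of the fractional linear action. -/
noncomputable def num (A W : Mat g) : Mat g := ant (A * (1 + W))

/-- The fractional linear action. -/
noncomputable def mob (A W : Mat g) : Mat g := num A W * (den A W)⁻¹

lemma key {A W : Mat g} (hA : A ∈ symplecticGroup (Fin g) ℝ) (hW : W ∈ pp g) :
    (den A W)ᵀ * den A W - (num A W)ᵀ * num A W = 1 - W * W ∧
      (den A W)ᵀ * num A W = (num A W)ᵀ * den A W := by
  have hD := lin_J (A * (1 + W))
  have hN := ant_J (A * (1 + W))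
  have hs := lin_add_ant (A * (1 + W))
  change JJ g * den A W = den A W * JJ g at hD
  change num A W * JJ g = -(JJ g * num A W) at hN
  change den A W + num A W = _ at hs
  generalize den A W = D, num A W = N at *
  have h1 : (D + N)ᵀ * JJ g * (D + N) = JJ g * (1 - W * W) := by
    rw [hs, transpose_mul, transpose_add, transpose_one, hW.1, Matrix.mul_assoc (1 + W),
      Matrix.mul_assoc, ← Matrix.mul_assoc (Aᵀ * JJ g), SymplecticGroup.mem_iff'.mp hA,
      ← Matrix.mul_assoc, add_mul, one_mul, hW.2]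
    noncomm_ring
  have h2 : (Dᵀ * D - Nᵀ * N) + (Dᵀ * N - Nᵀ * D) = (1 - W * W) + 0 := by
    rw [transpose_add, add_mul, ← lin_T hD, ant_T hN] at h1
    have h3 := congrArg (fun Z => -(JJ g * Z)) h1
    simp only [add_mul, mul_add, neg_mul, mul_neg, Matrix.mul_assoc, JJ_mul, neg_neg] at h3
    rw [add_zero, ← h3]
    abel
  have h4 := split_eq (by rw [mul_sub, sub_mul, lin_mul (lin_T hD) hD, ant_ant (ant_T hN) hN])
    (by rw [mul_sub, sub_mul, lin_ant (lin_T hD) hN, ant_lin (ant_T hN) hD]; abel)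
    (by rw [mul_sub, sub_mul, ant_ant hW.2 hW.2, mul_one, one_mul]) (by simp) h2
  exact ⟨h4.1, sub_eq_zero.mp h4.2⟩

lemma det_den {A W : Mat g} (hA : A ∈ symplecticGroup (Fin g) ℝ) (hW : W ∈ pp g) {s : ℝ}
    (hs : s ≤ 1) (hWW : W * W = s • 1) : (den A W).det ≠ 0 := by
  have h1 : ∀ v, den A W *ᵥ v = 0 → v + W *ᵥ v = 0 := by
    intro v hv
    have h2 := congrArg (fun Z => v ⬝ᵥ (Z *ᵥ v)) (key hA hW).1
    simp only [sub_mulVec, dotProduct_sub, ← mulVec_mulVec, dot_T, hv, hWW, smul_mulVec,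
      one_mulVec, dotProduct_smul, smul_eq_mul, dotProduct_zero] at h2
    have h3 : num A W *ᵥ v = 0 := dotProduct_self_eq_zero.mp (by
      nlinarith [dot_nonneg v, dot_nonneg (num A W *ᵥ v)])
    have h4 : (den A W + num A W) *ᵥ v = 0 := by rw [add_mulVec, hv, h3, add_zero]
    rw [den, num, lin_add_ant, ← mulVec_mulVec, add_mulVec, one_mulVec] at h4
    exact eq_zero_of_mulVec_eq_zero (SymplecticGroup.symplectic_det hA).ne_zero h4
  refine det_ne_zero_of_ker fun v hv => ?_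
  have h5 := h1 v hv
  have h6 := h1 (JJ g *ᵥ v) (by
    rw [mulVec_mulVec, den, ← lin_J, ← mulVec_mulVec, ← den, hv, mulVec_zero])
  rw [mulVec_mulVec, hW.2, neg_mulVec, ← mulVec_mulVec] at h6
  have h7 := congrArg (JJ g *ᵥ ·) h6
  simp only [mulVec_add, mulVec_neg, J_J, neg_neg, mulVec_zero] at h7
  have h8 : (2 : ℝ) • v = 0 := by
    rw [two_smul, ← sub_zero (0 : Fin g ⊕ Fin g → ℝ)]
    nth_rewrite 1 [← h5]
    rw [← h7]
    abel
  simpa using h8

lemma det_den' {A W : Mat g} (hA : A ∈ symplecticGroup (Fin g) ℝ) (hW : W ∈ Lam g) :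
    (den A W).det ≠ 0 :=
  det_den hA hW.1 le_rfl (by rw [hW.2, one_smul])

lemma det_den_smul {A W : Mat g} (hA : A ∈ symplecticGroup (Fin g) ℝ) (hW : W ∈ Lam g) {t : ℝ}
    (h0 : 0 ≤ t) (h1 : t ≤ 1) : (den A (t • W)).det ≠ 0 :=
  det_den hA ((pp g).smul_mem t hW.1) (s := t * t) (by nlinarith)
    (by rw [smul_mul_assoc, mul_smul_comm, hW.2, smul_smul])

lemma mob_mem {A W : Mat g} (hA : A ∈ symplecticGroup (Fin g) ℝ) (hW : W ∈ Lam g) :
    mob A W ∈ Lam g := by
  have hd := det_den' hA hW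
  obtain ⟨h1, h2⟩ := key hA hW.1
  rw [hW.2, sub_self, sub_eq_zero] at h1
  have hD : JJ g * den A W = den A W * JJ g := lin_J _
  have hN : num A W * JJ g = -(JJ g * num A W) := ant_J _
  rw [mob]
  generalize den A W = D, num A W = N at *
  have a1 : D * D⁻¹ = 1 := mul_nonsing_inv _ hd.isUnit
  have a2 : D⁻¹ᵀ * Dᵀ = 1 := by rw [← transpose_mul, a1, transpose_one]
  have a3 : (N * D⁻¹)ᵀ = N * D⁻¹ := by
    calc (N * D⁻¹)ᵀ = D⁻¹ᵀ * (Nᵀ * D) * D⁻¹ := by
          rw [transpose_mul, Matrix.mul_assoc, Matrix.mul_assoc, a1, mul_one]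
      _ = N * D⁻¹ := by rw [← h2, ← Matrix.mul_assoc, a2, one_mul]
  refine ⟨⟨a3, ant_lin hN (lin_inv hD hd)⟩, ?_⟩
  nth_rewrite 1 [← a3]
  rw [transpose_mul, Matrix.mul_assoc, ← Matrix.mul_assoc Nᵀ, ← h1, Matrix.mul_assoc, a1, mul_one,
    a2]

lemma mob_eq {A W : Mat g} (hd : (den A W).det ≠ 0) : A * (1 + W) = (1 + mob A W) * den A W := by
  rw [add_mul, one_mul, mob, Matrix.mul_assoc, nonsing_inv_mul _ hd.isUnit, mul_one, den, num,
    lin_add_ant]

lemma den_of_lin {A W : Mat g} (hA : JJ g * A = A * JJ g) (hW : W ∈ pp g) : den A W = A := by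
  rw [den, mul_add, mul_one, lin_eq hA (lin_ant hA hW.2)]

lemma mob_one {W : Mat g} (hW : W ∈ pp g) : mob 1 W = W := by
  rw [mob, den_of_lin (by simp) hW, num, one_mul, ant_eq (by simp) hW.2, inv_one, mul_one]

lemma mob_mul {A B W : Mat g} (hA : A ∈ symplecticGroup (Fin g) ℝ)
    (hB : B ∈ symplecticGroup (Fin g) ℝ) (hW : W ∈ Lam g) :
    mob (A * B) W = mob A (mob B W) ∧ den (A * B) W = den A (mob B W) * den B W := by
  have h1 := mob_mem hB hW
  have h2 := mob_mem hA h1
  have d1 := det_den' hB hW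
  have d2 := det_den' hA h1
  have hD : JJ g * (den A (mob B W) * den B W) = den A (mob B W) * den B W * JJ g :=
    lin_mul (lin_J _) (lin_J _)
  have e : A * B * (1 + W) = den A (mob B W) * den B W +
      mob A (mob B W) * (den A (mob B W) * den B W) := by
    rw [Matrix.mul_assoc, mob_eq d1, ← Matrix.mul_assoc, mob_eq d2, Matrix.mul_assoc, add_mul,
      one_mul]
  have e1 : den (A * B) W = den A (mob B W) * den B W := by
    rw [den, e, lin_eq hD (ant_lin h2.1.2 hD)]
  refine ⟨?_, e1⟩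
  rw [mob, e1, num, e, ant_eq hD (ant_lin h2.1.2 hD), Matrix.mul_assoc, mul_nonsing_inv, mul_one]
  rw [det_mul]
  exact (mul_ne_zero d2 d1).isUnit

lemma contDiff_den : ContDiff ℝ ∞ fun p : Mat g × Mat g => den p.1 p.2 := by
  unfold den lin
  fun_prop

lemma contDiff_num : ContDiff ℝ ∞ fun p : Mat g × Mat g => num p.1 p.2 := by
  unfold num ant
  fun_prop

lemma contDiffAt_mob {p : Mat g × Mat g} (hd : (den p.1 p.2).det ≠ 0) :
    ContDiffAt ℝ ∞ (fun p : Mat g × Mat g => mob p.1 p.2) p :=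
  contDiff_num.contDiffAt.mul ((contDiffAt_minv hd).comp p contDiff_den.contDiffAt)

/-- The complex matrix of a complex linear map. -/
def cm (X : Mat g) : Matrix (Fin g) (Fin g) ℂ :=
  Matrix.of fun i j => ⟨X (.inl i) (.inl j), X (.inr i) (.inl j)⟩

/-- The complex determinant. -/
noncomputable def cdet (X : Mat g) : ℂ := (cm X).det

lemma cm_mul {X : Mat g} (hX : JJ g * X = X * JJ g) (Y : Mat g) : cm (X * Y) = cm X * cm Y := by
  have h1 : ∀ i j, X (.inl i) (.inr j) = -X (.inr i) (.inl j) := fun i j => by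
    have := congrFun (congrFun hX (.inl i)) (.inl j)
    simpa [mul_apply, Matrix.J, one_apply, eq_comm] using this
  have h2 : ∀ i j, X (.inr i) (.inr j) = X (.inl i) (.inl j) := fun i j => by
    have := congrFun (congrFun hX (.inr i)) (.inl j)
    simpa [mul_apply, Matrix.J, one_apply, eq_comm] using this
  ext i j
  apply Complex.ext <;>
    simp [cm, mul_apply, h1, h2, Finset.sum_add_distrib, add_comm, sub_eq_add_neg]

lemma cdet_mul {X : Mat g} (hX : JJ g * X = X * JJ g) (Y : Mat g) :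
    cdet (X * Y) = cdet X * cdet Y := by
  rw [cdet, cm_mul hX, det_mul, cdet, cdet]

lemma cdet_rr (t : ℝ) : cdet (rr g t) = Complex.exp (g * (t * Complex.I)) := by
  have : cm (rr g t) = Complex.exp (t * Complex.I) • (1 : Matrix (Fin g) (Fin g) ℂ) := by
    ext i j
    rw [Complex.exp_mul_I, ← Complex.ofReal_cos, ← Complex.ofReal_sin]
    by_cases hij : i = j
    · subst hij
      apply Complex.ext <;> simp [cm, rr, Matrix.J, -Complex.ofReal_cos, -Complex.ofReal_sin]
    · apply Complex.ext <;> simp [cm, rr, Matrix.J, hij, one_apply]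
  rw [cdet, this, det_smul, det_one, mul_one, Fintype.card_fin, Complex.exp_nat_mul]

lemma cdet_one : cdet (1 : Mat g) = 1 := by
  rw [← rr_zero, cdet_rr]
  simp

lemma cdet_ne_zero {X : Mat g} (hX : JJ g * X = X * JJ g) (h : X.det ≠ 0) : cdet X ≠ 0 :=
  left_ne_zero_of_mul_eq_one (by rw [← cdet_mul hX, mul_nonsing_inv _ h.isUnit, cdet_one])

lemma contDiff_cdet : ContDiff ℝ ∞ (cdet (g := g)) := by
  have h : ∀ i j, ContDiff ℝ ∞ fun X : Mat g => cm X i j := fun i j => by
    simp only [cm, of_apply, Complex.mk_eq_add_mul_I]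
    exact (Complex.ofRealCLM.contDiff.comp
      (contDiff_entry (m := Fin g ⊕ Fin g) (.inl i) (.inl j))).add
      ((Complex.ofRealCLM.contDiff.comp
        (contDiff_entry (m := Fin g ⊕ Fin g) (.inr i) (.inl j))).mul
        contDiff_const)
  unfold cdet
  simp only [det_apply']
  exact ContDiff.sum fun σ _ => contDiff_const.mul (contDiff_prod fun i _ => h _ _)

end Pool.Agent.MP_609e33_gt.Up
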