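import Mathlib.Topology.Covering.Quotient
import Mathlib.Topology.Homotopy.Lifting
import Mathlib.Topology.ContinuousMap.Algebra
import Mathlib.Analysis.Normed.Module.Basic
import Mathlib.Topology.OpenPartialHomeomorph.Basic

/-!
The universal covering group of a path connected, locally Euclidean topological group.
-/

set_option autoImplicit false

open Set Topology Filter unitInterval

namespace Pool.Agent.MP_609e33_gt.Up

variable (H : Type) [Group H] [TopologicalSpace H] [IsTopologicalGroup H]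

instance pathTopGroup : IsTopologicalGroup C(I, H) where
  continuous_inv := ContinuousMap.continuous_postcomp (⟨fun x : H => x⁻¹, continuous_inv⟩ : C(H, H))

/-- Paths starting at the identity. -/
def PH : Subgroup C(I, H) where
  carrier := {γ | γ 0 = 1}
  one_mem' := rfl
  mul_mem' {a b} ha hb := by
    change a 0 * b 0 = 1
    rw [ha, hb, mul_one]
  inv_mem' {a} ha := by
    change (a 0)⁻¹ = 1
    rw [ha, inv_one]

/-- Null-homotopic loops. -/
def NH : Subgroup (PH H) where
  carrier := {γ | ∃ F : C(I × I, H), (∀ s, F (0, s) = γ.1 s) ∧ (∀ s, F (1, s) = 1) ∧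
    (∀ t, F (t, 0) = 1) ∧ ∀ t, F (t, 1) = 1}
  one_mem' := ⟨1, fun _ => rfl, fun _ => rfl, fun _ => rfl, fun _ => rfl⟩
  mul_mem' := by
    rintro a b ⟨F, h1, h2, h3, h4⟩ ⟨F', k1, k2, k3, k4⟩
    exact ⟨F * F', fun s => by simp [h1, k1], fun s => by simp [h2, k2], fun s => by simp [h3, k3],
      fun s => by simp [h4, k4]⟩
  inv_mem' := by
    rintro a ⟨F, h1, h2, h3, h4⟩
    exact ⟨F⁻¹, fun s => by simp [h1], fun s => by simp [h2], fun s => by simp [h3],
      fun s => by simp [h4]⟩

instance normalNH : (NH H).Normal where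
  conj_mem := by
    rintro a ⟨F, h1, h2, h3, h4⟩ b
    exact ⟨b.1.comp .snd * F * (b.1.comp .snd)⁻¹, fun s => by simp [h1], fun s => by simp [h2],
      fun s => by simp [h3], fun s => by simp [h4]⟩

/-- The universal covering group. -/
abbrev UC : Type := PH H ⧸ NH H

/-- The end point of a path. -/
def ev1 : PH H →* H where
  toFun γ := γ.1 1
  map_one' := rfl
  map_mul' _ _ := rfl

/-- The covering homomorphism. -/
def ucp : UC H →* H := QuotientGroup.lift (NH H) (ev1 H) (by
  rintro a ⟨F, h1, -, -, h4⟩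
  exact (h1 1).symm.trans (h4 0))

variable {H}

lemma continuous_ev1 : Continuous (ev1 H) :=
  (ContinuousEvalConst.continuous_eval_const (1 : I)).comp continuous_subtype_val

lemma continuous_ucp : Continuous (ucp H) := continuous_ev1.quotient_lift _

lemma surjective_ucp [PathConnectedSpace H] : Function.Surjective (ucp H) := fun x =>
  ⟨QuotientGroup.mk ⟨(PathConnectedSpace.somePath 1 x).toContinuousMap, Path.source _⟩,
    Path.target _⟩

lemma continuous_mulI : Continuous fun p : I × I => p.1 * p.2 :=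
  Continuous.subtype_mk (f := fun p : I × I => (p.1 : ℝ) * p.2) (by fun_prop) _

/-- The initial segments of a path. -/
def seg (γ : PH H) (t : I) : PH H := ⟨⟨fun s => γ.1 (t * s),
    γ.1.continuous.comp (continuous_mulI.comp (.prodMk_right t))⟩, by
  change γ.1 (t * 0) = 1
  rw [mul_zero]
  exact γ.2⟩

lemma continuous_seg (γ : PH H) : Continuous (seg γ) :=
  (ContinuousMap.continuous_of_continuous_uncurry _
    (show Continuous fun p : I × I => γ.1 (p.1 * p.2) from
      γ.1.continuous.comp continuous_mulI)).subtype_mk _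

lemma seg_zero (γ : PH H) : seg γ 0 = 1 := Subtype.ext (ContinuousMap.ext fun s => by
  change γ.1 (0 * s) = 1
  rw [zero_mul]
  exact γ.2)

lemma seg_one (γ : PH H) : seg γ 1 = γ := Subtype.ext (ContinuousMap.ext fun s => by
  change γ.1 (1 * s) = γ.1 s
  rw [one_mul])

lemma pathConnected_UC : PathConnectedSpace (UC H) := by
  have : PathConnectedSpace (PH H) := by
    rw [pathConnectedSpace_iff_univ]
    exact ⟨1, mem_univ _, fun γ _ =>
      (joinedIn_univ).mpr ⟨⟨⟨seg γ, continuous_seg γ⟩, seg_zero γ, seg_one γ⟩⟩⟩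
  exact QuotientGroup.mk_surjective.pathConnectedSpace QuotientGroup.continuous_mk

omit [IsTopologicalGroup H] in
lemma exists_contraction {F : Type} [NormedAddCommGroup F] [NormedSpace ℝ F]
    (e : OpenPartialHomeomorph H F) (h1 : 1 ∈ e.source) (h0 : e 1 = 0) :
    ∃ U : Set H, IsOpen U ∧ ∃ hU : 1 ∈ U, ∃ K : C(U × I, H), (∀ x, K (x, 0) = 1) ∧
      (∀ x, K (x, 1) = x) ∧ ∀ t, K (⟨1, hU⟩, t) = 1 := by
  obtain ⟨r, hr, hb⟩ := Metric.isOpen_iff.mp e.open_target 0 (h0 ▸ e.map_source h1)
  have hs : e.symm 0 = 1 := by rw [← h0, e.left_inv h1]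
  refine ⟨e.source ∩ e ⁻¹' Metric.ball 0 r, e.isOpen_inter_preimage Metric.isOpen_ball,
    ⟨h1, by simp [h0, hr]⟩, ⟨fun p => e.symm ((p.2 : ℝ) • e p.1), ?_⟩, fun x => ?_,
    fun x => ?_, fun t => ?_⟩
  rotate_left
  · change e.symm ((0 : ℝ) • _) = 1
    rw [zero_smul, hs]
  · change e.symm ((1 : ℝ) • _) = _
    rw [one_smul, e.left_inv x.2.1]
  · change e.symm ((t : ℝ) • e 1) = 1
    rw [h0, smul_zero, hs]
  refine e.continuousOn_symm.comp_continuous (Continuous.smul (by fun_prop)
    (e.continuousOn.comp_continuous (by fun_prop) fun p => p.1.2.1)) fun p => hb ?_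
  have := p.1.2.2
  rw [mem_preimage, mem_ball_zero_iff] at this
  rw [mem_ball_zero_iff, norm_smul, Real.norm_of_nonneg p.2.2.1]
  exact (mul_le_of_le_one_left (norm_nonneg _) p.2.2.2).trans_lt this

theorem covering_ucp [PathConnectedSpace H] {F : Type} [NormedAddCommGroup F] [NormedSpace ℝ F]
    (e : OpenPartialHomeomorph H F) (h1 : 1 ∈ e.source) (h0 : e 1 = 0) :
    IsCoveringMap (ucp H) := by
  obtain ⟨U, hU, hU1, K, k0, k1, k2⟩ := exists_contraction e h1 h0
  have ho : IsOpenMap (ev1 H) := by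
    rw [IsTopologicalGroup.isOpenMap_iff_nhds_one]
    let s : U → PH H := fun x => ⟨K.curry x, k0 x⟩
    have hs : Continuous s := K.curry.continuous.subtype_mk _
    have h2 : s ⟨1, hU1⟩ = 1 := Subtype.ext (ContinuousMap.ext k2)
    have h3 : (ev1 H) ∘ s = Subtype.val := funext k1
    calc 𝓝 (1 : H) = map Subtype.val (𝓝 (⟨1, hU1⟩ : U)) :=
          (hU.isOpenEmbedding_subtypeVal.map_nhds_eq (⟨1, hU1⟩ : U)).symm
      _ ≤ map (ev1 H) (𝓝 1) := by
          rw [← h3, ← map_map, ← h2]
          exact map_mono hs.continuousAt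
  have ho' : IsOpenMap (ucp H) :=
    IsOpenMap.of_comp QuotientGroup.continuous_mk QuotientGroup.mk_surjective ho
  refine (IsQuotientMap.isQuotientCoveringMap_of_isDiscrete_ker_monoidHom
    (ho'.isQuotientMap continuous_ucp surjective_ucp) (isDiscrete_iff_discreteTopology.mpr
      ((discreteTopology_iff_isOpen_singleton_one (G := (ucp H).ker)).mpr ?_))).isCoveringMap
  rw [isOpen_induced_iff]
  refine ⟨QuotientGroup.mk '' {γ : PH H | range γ.1 ⊆ U}, QuotientGroup.isOpenMap_coe _
    ((ContinuousMap.isOpen_setOfPred_range_subset hU).preimage continuous_subtype_val), ?_⟩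
  ext ⟨x, hx⟩
  refine ⟨?_, fun h => ⟨1, by rintro _ ⟨s, rfl⟩; exact hU1, (congrArg Subtype.val h).symm⟩⟩
  rintro ⟨γ, hγ, rfl⟩
  refine Subtype.ext ((QuotientGroup.eq_one_iff γ).mpr
    ⟨K.comp ⟨fun p => (⟨γ.1 p.2, hγ (mem_range_self _)⟩, σ p.1), by fun_prop⟩,
      fun s => by simp [k1], fun s => by simp [k0], fun t => ?_, fun t => ?_⟩)
  · exact (congrArg (fun x => K (x, σ t)) (Subtype.ext (show γ.1 0 = 1 from γ.2))).trans (k2 _)
  · exact (congrArg (fun x => K (x, σ t)) (Subtype.ext (show γ.1 1 = 1 from hx))).trans (k2 _)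

theorem simplyConnected_UC (cov : IsCoveringMap (ucp H)) : SimplyConnectedSpace (UC H) := by
  refine simply_connected_iff_loops_nullhomotopic.mpr ⟨pathConnected_UC, fun x Γ => ?_⟩
  have hc := continuous_ucp (H := H)
  let γ : PH H := ⟨⟨fun s => ucp H (x⁻¹ * Γ s), by fun_prop⟩, by
    change ucp H (x⁻¹ * Γ 0) = 1
    rw [Γ.source, inv_mul_cancel, map_one]⟩
  have h1 := cov.eq_of_comp_eq (g₁ := fun s => x⁻¹ * Γ s) (g₂ := fun s => (seg γ s : UC H))
    (by fun_prop) (QuotientGroup.continuous_mk.comp (continuous_seg γ))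
    (funext fun s => by
      change _ = ucp H (x⁻¹ * Γ (s * 1))
      rw [mul_one]
      rfl) 0 (by rw [Γ.source, seg_zero, inv_mul_cancel]; rfl)
  have h2 := congrFun h1 1
  rw [Γ.target, seg_one, inv_mul_cancel] at h2
  obtain ⟨F, k1, k2, k3, k4⟩ := (QuotientGroup.eq_one_iff γ).mp h2.symm
  refine (cov.homotopicRel_iff_comp ⟨0, .inl rfl, Γ.source⟩).mpr
    ⟨⟨⟨⟨fun p => ucp H x * F p, by fun_prop⟩, fun s => ?_, fun s => ?_⟩, ?_⟩⟩
  · change ucp H x * F (0, s) = ucp H (Γ s)
    rw [k1]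
    change ucp H x * ucp H (x⁻¹ * Γ s) = _
    rw [← map_mul, mul_inv_cancel_left]
  · change ucp H x * F (1, s) = ucp H x
    rw [k2, mul_one]
  · rintro t _ (rfl | rfl)
    · change ucp H x * F (t, 0) = ucp H (Γ 0)
      rw [k3, mul_one, Γ.source]
    · change ucp H x * F (t, 1) = ucp H (Γ 1)
      rw [k4, mul_one, Γ.target]

end Pool.Agent.MP_609e33_gt.Up
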