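import Mathlib.Analysis.Matrix.Order
import Mathlib.Analysis.CStarAlgebra.ContinuousFunctionalCalculus.Commute
import Mathlib.Analysis.CStarAlgebra.ContinuousFunctionalCalculus.Continuity
import Mathlib.Analysis.SpecialFunctions.ContinuousFunctionalCalculus.ExpLog.Basic
import Mathlib.Analysis.SpecialFunctions.Trigonometric.Arctan
import Pool.Agent.MP_609e33_gt.h62.Mob

/-!
Functions of symmetric matrices: logarithms of rotations and the polar decomposition.
-/

set_option autoImplicit false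

open Matrix Module Set Topology Filter NormedSpace

namespace Pool.Agent.MP_609e33_gt.Up

variable {g : ℕ}

lemma sa {T : Mat g} (h : Tᵀ = T) : IsSelfAdjoint T := by
  rw [IsSelfAdjoint, star_eq_conjTranspose, conjTranspose_eq_transpose_of_trivial, h]

lemma sa' {T : Mat g} (h : IsSelfAdjoint T) : Tᵀ = T := by
  rwa [IsSelfAdjoint, star_eq_conjTranspose, conjTranspose_eq_transpose_of_trivial] at h

lemma co (f : ℝ → ℝ) (T : Mat g) : ContinuousOn f (spectrum ℝ T) :=
  T.finite_real_spectrum.continuousOn f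

/-- A function of a symmetric matrix. -/
noncomputable def fn (f : ℝ → ℝ) (T : Mat g) : Mat g := cfc f T

lemma fn_T (f : ℝ → ℝ) (T : Mat g) : (fn f T)ᵀ = fn f T := sa' (cfc_predicate f T)

lemma fn_comm {T Y : Mat g} (h : Commute T Y) (f : ℝ → ℝ) : Commute (fn f T) Y := h.cfc_real f

lemma fn_mul (f f' : ℝ → ℝ) (T : Mat g) : fn f T * fn f' T = fn (fun x => f x * f' x) T :=
  (cfc_mul f f' T (co _ _) (co _ _)).symm

lemma fn_add (f f' : ℝ → ℝ) (T : Mat g) : fn f T + fn f' T = fn (fun x => f x + f' x) T :=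
  (cfc_add T f f' (co _ _) (co _ _)).symm

lemma fn_smul (c : ℝ) (f : ℝ → ℝ) (T : Mat g) : c • fn f T = fn (fun x => c * f x) T :=
  (cfc_const_mul c f T (co _ _)).symm

lemma fn_id {T : Mat g} (h : Tᵀ = T) : fn (fun x => x) T = T := cfc_id' ℝ T (sa h)

lemma fn_mul_self {T : Mat g} (h : Tᵀ = T) (f : ℝ → ℝ) : fn f T * T = fn (fun x => f x * x) T := by
  rw [← fn_mul, fn_id h]

lemma fn_one {T : Mat g} (h : Tᵀ = T) : fn (fun _ => 1) T = 1 := cfc_const_one ℝ T (sa h)

lemma fn_congr {f f' : ℝ → ℝ} {T : Mat g} (h : ∀ x ∈ spectrum ℝ T, f x = f' x) :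
    fn f T = fn f' T := cfc_congr h

lemma fn_fn {T : Mat g} (h : Tᵀ = T) (f f' : ℝ → ℝ) :
    fn f (fn f' T) = fn (fun x => f (f' x)) T :=
  (cfc_comp' f f' T ((T.finite_real_spectrum.image f').continuousOn f) (co _ _) (sa h)).symm

open scoped Matrix.Norms.L2Operator in
lemma continuousOn_fn {X : Type*} [TopologicalSpace X] {a : X → Mat g} {t : Set X} {s : Set ℝ}
    {f : ℝ → ℝ} (hs : IsOpen s) (hf : ContinuousOn f s) (ha : ContinuousOn a t)
    (h1 : ∀ x ∈ t, (a x)ᵀ = a x) (h2 : ∀ x ∈ t, spectrum ℝ (a x) ⊆ s) :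
    ContinuousOn (fun x => fn f (a x)) t :=
  ha.cfc_of_mem_nhdsSet f (hs.mem_nhdsSet.mpr (iUnion₂_subset h2)) (fun x hx => sa (h1 x hx)) hf

/-- The spectral projections. -/
noncomputable def pj (T : Mat g) (l : ℝ) : Mat g := fn (fun x => if x = l then 1 else 0) T

/-- The spectrum as a finite set. -/
noncomputable def spc (T : Mat g) : Finset ℝ := T.finite_real_spectrum.toFinset

lemma fn_eq_sum (f : ℝ → ℝ) (T : Mat g) : fn f T = ∑ l ∈ spc T, f l • pj T l := by
  simp only [pj, fn_smul]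
  rw [fn]
  simp only [fn]
  rw [← cfc_sum _ T _ fun _ _ => co _ _]
  refine cfc_congr fun x hx => ?_
  have : x ∈ spc T := T.finite_real_spectrum.mem_toFinset.mpr hx
  simp [Finset.sum_apply, this]

lemma mul_pj {T : Mat g} (h : Tᵀ = T) (l : ℝ) : T * pj T l = l • pj T l := by
  nth_rewrite 1 [← fn_id h]
  rw [pj, fn_mul, fn_smul]
  exact fn_congr fun x _ => by split_ifs with h <;> simp [h]

lemma pj_pj (T : Mat g) (l : ℝ) : pj T l * pj T l = pj T l := by
  rw [pj, fn_mul]
  exact fn_congr fun x _ => by split_ifs <;> simp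

lemma pj_comm (T : Mat g) (l l' : ℝ) : Commute (pj T l) (pj T l') := by
  rw [Commute, SemiconjBy, pj, pj, fn_mul, fn_mul]
  exact fn_congr fun x _ => mul_comm _ _

attribute [local instance] Matrix.linftyOpNormedRing Matrix.linftyOpNormedAlgebra

lemma exp_J {T : Mat g} (h : Tᵀ = T) (hJ : JJ g * T = T * JJ g) :
    exp (JJ g * T) = fn Real.cos T + JJ g * fn Real.sin T := by
  have := exp_eq_of_deriv (X := JJ g * T)
    (f := fun t => ∑ l ∈ spc T, (Real.cos (t * l) • pj T l + Real.sin (t * l) • (JJ g * pj T l)))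
    (by simpa using (fn_eq_sum (fun _ => 1) T).symm.trans (fn_one h)) (fun t => ?_) 1
  · rw [one_smul] at this
    rw [this, fn_eq_sum, fn_eq_sum, Finset.mul_sum, ← Finset.sum_add_distrib]
    simp only [one_mul, mul_smul_comm]
  · rw [Finset.mul_sum]
    refine HasDerivAt.fun_sum fun l _ => ?_
    have h1 : HasDerivAt (fun t : ℝ => t * l) l t := by simpa using (hasDerivAt_id t).mul_const l
    refine ((h1.cos.smul_const (pj T l)).add (h1.sin.smul_const (JJ g * pj T l))).congr_deriv ?_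
    rw [mul_add, mul_smul_comm, mul_smul_comm, Matrix.mul_assoc, mul_pj h, Matrix.mul_assoc,
      ← Matrix.mul_assoc T, ← hJ, Matrix.mul_assoc, JJ_mul, mul_pj h, mul_smul_comm]
    module

lemma exp_rr (t : ℝ) : exp (t • JJ g) = rr g t := by
  have := exp_rot (P := (1 : Mat g)) (by simp) (by simp) t
  simpa [rr] using this

lemma cos_eq_one {T : Mat g} (h : Tᵀ = T) (hJ : JJ g * T = T * JJ g) (he : exp (JJ g * T) = 1) :
    ∀ l ∈ spc T, Real.cos l = 1 := by
  rw [exp_J h hJ] at he
  have h1 := congrArg transpose he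
  rw [transpose_add, transpose_mul, fn_T, fn_T, JJ_T, transpose_one, mul_neg,
    (fn_comm (Y := JJ g) hJ.symm _).eq] at h1
  have h2 : fn Real.cos T = fn (fun _ => 1) T := by
    rw [fn_one h]
    have : (2 : ℝ) • fn Real.cos T = (2 : ℝ) • 1 := by
      rw [two_smul, two_smul]
      nth_rewrite 1 [← he]
      rw [← h1]
      abel
    exact smul_right_injective _ two_ne_zero this
  intro l hl
  exact eqOn_of_cfc_eq_cfc h2 (co _ _) (co _ _) (sa h) (T.finite_real_spectrum.mem_toFinset.mp hl)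

/-- The Cayley transform. -/
noncomputable def cay (u : Mat g) : Mat g := -(JJ g * ((u + 1)⁻¹ * (u - 1)))

lemma comm_inv {A Y : Mat g} (h : Commute A Y) (hd : A.det ≠ 0) : Commute A⁻¹ Y := by
  calc A⁻¹ * Y = A⁻¹ * (Y * A) * A⁻¹ := by
        rw [Matrix.mul_assoc, Matrix.mul_assoc, mul_nonsing_inv _ hd.isUnit, mul_one]
    _ = Y * A⁻¹ := by rw [← h.eq, ← Matrix.mul_assoc, nonsing_inv_mul _ hd.isUnit, one_mul]

lemma cay_comm {u Y : Mat g} (hd : (u + 1).det ≠ 0) (h1 : Commute u Y) (h2 : Commute (JJ g) Y) :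
    Commute (cay u) Y :=
  (h2.mul_left ((comm_inv (h1.add_left (Commute.one_left _)) hd).mul_left
    (h1.sub_left (Commute.one_left _)))).neg_left

lemma cay_T {u : Mat g} (hd : (u + 1).det ≠ 0) (hu : uᵀ * u = 1) (hJ : JJ g * u = u * JJ g) :
    (cay u)ᵀ = cay u := by
  have hu' : u * uᵀ = 1 := mul_eq_one_comm.mp hu
  set T := (u + 1)⁻¹ with hT
  have a1 : T * (u + 1) = 1 := nonsing_inv_mul _ hd.isUnit
  have a2 : (u + 1) * T = 1 := mul_nonsing_inv _ hd.isUnit
  have a3 : Tᵀ = T * u := by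
    have : (uᵀ + 1) * (u * T) = 1 := by rw [← Matrix.mul_assoc, add_mul, hu, one_mul, add_comm, a2]
    rw [hT, transpose_nonsing_inv, transpose_add, transpose_one, inv_eq_right_inv this]
    exact (comm_inv ((Commute.refl u).add_left (Commute.one_left _)) hd).eq.symm
  have c1 : Commute T u := comm_inv ((Commute.refl u).add_left (Commute.one_left _)) hd
  have c2 : Commute T (JJ g) :=
    comm_inv (Commute.add_left hJ.symm (Commute.one_left _)) hd
  have a4 : (T * (u - 1))ᵀ = -(T * (u - 1)) := by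
    rw [transpose_mul, a3, transpose_sub, transpose_one, c1.eq, ← Matrix.mul_assoc, sub_mul, hu,
      one_mul, sub_mul, one_mul, ← c1.eq, mul_sub, mul_one, neg_sub]
  rw [cay, ← hT, transpose_neg, transpose_mul, a4, JJ_T, neg_mul_neg]
  exact congrArg _ (c2.mul_left (Commute.sub_left hJ.symm (Commute.one_left _))).eq

lemma exp_cay {u : Mat g} (hd : (u + 1).det ≠ 0) (hu : uᵀ * u = 1) (hJ : JJ g * u = u * JJ g) :
    exp (JJ g * fn (fun x => 2 * Real.arctan x) (cay u)) = u := by
  have hT := cay_T hd hu hJ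
  have hc : Commute (cay u) (JJ g) := cay_comm hd hJ.symm (Commute.refl _)
  have hK : JJ g * cay u = (u + 1)⁻¹ * (u - 1) := by rw [cay, mul_neg, JJ_mul, neg_neg]
  rw [exp_J (fn_T _ _) (fn_comm hc _).eq.symm, fn_fn hT, fn_fn hT]
  generalize cay u = H at *
  set C := fn (fun x => Real.cos (2 * Real.arctan x)) H
  set S := fn (fun x => Real.sin (2 * Real.arctan x)) H
  have hcos : ∀ x : ℝ, Real.cos (2 * Real.arctan x) = (1 - x ^ 2) / (1 + x ^ 2) := fun x => by
    rw [Real.cos_two_mul, Real.cos_sq_arctan]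
    field_simp
    ring
  have hsin : ∀ x : ℝ, Real.sin (2 * Real.arctan x) = 2 * x / (1 + x ^ 2) := fun x => by
    rw [Real.sin_two_mul, Real.sin_arctan, Real.cos_arctan, mul_assoc, div_mul_div_comm,
      Real.mul_self_sqrt (by positivity)]
    ring
  have b1 : C + S * H = 1 := by
    rw [fn_mul_self hT, fn_add, ← fn_one hT]
    refine fn_congr fun x _ => ?_
    rw [hcos, hsin]
    field_simp
    ring
  have b2 : S = C * H + H := by
    have := fn_add (fun x => Real.cos (2 * Real.arctan x) * x) (fun x => x) H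
    rw [fn_id hT] at this
    rw [fn_mul_self hT, this]
    refine fn_congr fun x _ => ?_
    rw [hcos, hsin]
    field_simp
    ring
  have c1 : Commute C (JJ g) := fn_comm hc _
  have c2 : Commute S (JJ g) := fn_comm hc _
  have b3 : (C + JJ g * S) * (1 - JJ g * H) = 1 + JJ g * H := by
    rw [mul_sub, mul_one, add_mul, ← Matrix.mul_assoc C, c1.eq, Matrix.mul_assoc (JJ g) S,
      ← Matrix.mul_assoc S, c2.eq, Matrix.mul_assoc (JJ g) S, JJ_mul, ← b1]
    nth_rewrite 1 [b2]
    noncomm_ring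
  have a1 : (u + 1)⁻¹ * (u + 1) = 1 := nonsing_inv_mul _ hd.isUnit
  have c3 : Commute (u + 1)⁻¹ u := comm_inv ((Commute.refl u).add_left (Commute.one_left _)) hd
  rw [hK] at b3
  have b4 := congrArg (· * (u + 1)) b3
  have e1 : (u + 1)⁻¹ * (u - 1) * (u + 1) = u - 1 := by
    rw [(c3.sub_right (Commute.one_right _)).eq, Matrix.mul_assoc, a1, mul_one]
  beta_reduce at b4
  rw [Matrix.mul_assoc, sub_mul (1 : Mat g), add_mul (1 : Mat g), one_mul, e1,
    show u + 1 - (u - 1) = (2 : ℝ) • 1 by module, show u + 1 + (u - 1) = (2 : ℝ) • u by module,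
    mul_smul_comm, mul_one] at b4
  exact smul_right_injective _ two_ne_zero b4

end Pool.Agent.MP_609e33_gt.Up
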