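import Mathlib.Geometry.Manifold.Algebra.LieGroup
import Pool.Agent.MP_609e33_gt.h62.Coc
import Pool.Agent.MP_609e33_gt.h62.Path

/-!
The universal covering group of the symplectic group as a Lie group.
-/

set_option autoImplicit false

open Matrix Module Set Topology Filter NormedSpace
open scoped Manifold ContDiff

namespace Pool.Agent.MP_609e33_gt.Up

section Imm

variable {X : Type} [TopologicalSpace X] {E : Type} [NormedAddCommGroup E] [NormedSpace ℝ E]
  {F : Type} [NormedAddCommGroup F] [NormedSpace ℝ F]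

/-- A chart of `X` that is smoothly compatible with a map `p` into a normed space. -/
def Adapted (p : X → E) (e : OpenPartialHomeomorph X F) : Prop :=
  ContDiffOn ℝ ∞ (fun y => p (e.symm y)) e.target ∧
    ∃ φ : E → F, ∀ x ∈ e.source, ContDiffAt ℝ ∞ φ (p x) ∧ e x = φ (p x)

variable {p : X → E} (h : ∀ x, ∃ e : OpenPartialHomeomorph X F, x ∈ e.source ∧ Adapted p e)

/-- The atlas of adapted charts. -/
@[reducible] noncomputable def immCs : ChartedSpace F X where
  atlas := {e | Adapted p e}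
  chartAt x := (h x).choose
  mem_chart_source x := (h x).choose_spec.1
  chart_mem_atlas x := (h x).choose_spec.2

theorem imm_isManifold : @IsManifold ℝ _ F _ _ F _ 𝓘(ℝ, F) ∞ X _ (immCs h) := by
  let _ := immCs h
  refine isManifold_of_contDiffOn _ _ _ ?_
  rintro e e' ⟨h1, -⟩ ⟨-, φ, h2⟩ y ⟨⟨hy, hy'⟩, -⟩
  refine (((h2 _ hy').1.comp_contDiffWithinAt (f := fun y => p (e.symm y)) y (h1 y hy)).mono
    fun z hz => hz.1.1).congr (fun z hz => (h2 _ hz.1.2).2) (h2 _ hy').2

theorem imm_sm (hp : Continuous p) : letI := immCs h; Sm 𝓘(ℝ, F) p := by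
  let _ := immCs h
  intro x
  rw [contMDiffAt_iff]
  refine ⟨hp.continuousAt, ?_⟩
  exact ((h x).choose_spec.2.1.contDiffAt ((h x).choose.open_target.mem_nhds
    ((h x).choose.map_source (h x).choose_spec.1))).contDiffWithinAt

theorem imm_mk {V : Type*} [NormedAddCommGroup V] [NormedSpace ℝ V] {H : Type*}
    [TopologicalSpace H] {I : ModelWithCorners ℝ V H} {N : Type*} [TopologicalSpace N]
    [ChartedSpace H N] {f : N → X} (hc : Continuous f) (hf : Sm I fun x => p (f x)) :
    letI := immCs h; ContMDiff I 𝓘(ℝ, F) ∞ f := by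
  let _ := immCs h
  intro x
  rw [contMDiffAt_iff_target]
  refine ⟨hc.continuousAt, ?_⟩
  obtain ⟨h1, -, φ, h2⟩ := (h (f x)).choose_spec
  refine ((h2 _ h1).1.comp_contMDiffAt (f := fun x => p (f x)) (hf x)).congr_of_eventuallyEq ?_
  filter_upwards [hc.continuousAt.eventually ((h (f x)).choose.open_source.mem_nhds h1)] with y hy
  exact (h2 _ hy).2

end Imm

attribute [local instance] Matrix.linftyOpNormedRing Matrix.linftyOpNormedAlgebra

variable {g : ℕ}

instance topGroupSp : IsTopologicalGroup (Sp g) where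
  continuous_inv := Continuous.subtype_mk (f := fun A : Sp g => -JJ g * A.1ᵀ * JJ g)
    (by fun_prop) _

instance pathConnectedSp : PathConnectedSpace (Sp g) := by
  have hc : Continuous fun p : sp g × sp g =>
      (⟨exp p.1.1 * exp p.2.1, mul_mem (exp_mem p.1.2) (exp_mem p.2.2)⟩ : Sp g) :=
    ((exp_continuous.comp (continuous_subtype_val.comp continuous_fst)).mul
      (exp_continuous.comp (continuous_subtype_val.comp continuous_snd))).subtype_mk _
  refine Function.Surjective.pathConnectedSpace (fun A => ?_) hc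
  obtain ⟨θ, h⟩ := exists_cut (un_orth A) (un_J A)
  refine ⟨(rot (ang θ (un A)) (ang_T _ _) (ang_comm h (un_J A).symm (Commute.refl _)).eq.symm,
    px A), Subtype.ext ?_⟩
  change exp (JJ g * ang θ (un A)) * _ = _
  rw [exp_ang h (un_orth A) (un_J A), un_mul]

/-- The Cayley transform. -/
noncomputable def cy (A : Mat g) : Mat g := (1 - A) * (1 + A)⁻¹

lemma one_add_cy {A : Mat g} (h : (1 + A).det ≠ 0) : 1 + cy A = (2 : ℝ) • (1 + A)⁻¹ := by
  rw [cy]
  nth_rewrite 1 [← mul_nonsing_inv _ h.isUnit]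
  rw [← add_mul, add_add_sub_cancel, add_mul, one_mul, two_smul]

lemma det_cy {A : Mat g} (h : (1 + A).det ≠ 0) : (1 + cy A).det ≠ 0 := by
  rw [one_add_cy h, det_smul, det_nonsing_inv, Ring.inverse_eq_inv']
  exact mul_ne_zero (pow_ne_zero _ two_ne_zero) (inv_ne_zero h)

lemma cy_cy {A : Mat g} (h : (1 + A).det ≠ 0) : cy (cy A) = A := by
  have h1 : (1 + cy A)⁻¹ = (2⁻¹ : ℝ) • (1 + A) := by
    refine inv_eq_right_inv ?_
    rw [one_add_cy h, smul_mul_assoc, mul_smul_comm, nonsing_inv_mul _ h.isUnit, smul_smul]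
    norm_num
  rw [cy, h1, cy, mul_smul_comm, sub_mul, Matrix.mul_assoc, nonsing_inv_mul _ h.isUnit]
  simp only [one_mul, mul_one]
  module

lemma cy_T {A : Mat g} (h : (1 + A).det ≠ 0) : (1 + Aᵀ) * (cy A)ᵀ = 1 - Aᵀ := by
  have h1 : cy A * (1 + A) = 1 - A := by
    rw [cy, Matrix.mul_assoc, nonsing_inv_mul _ h.isUnit, mul_one]
  simpa using congrArg transpose h1

lemma cancel_cy {A P Q : Mat g} (h : (1 + A).det ≠ 0)
    (e : (1 + Aᵀ) * P * (1 + A) = (1 + Aᵀ) * Q * (1 + A)) : P = Q := by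
  have h1 : IsUnit (1 + A) := (isUnit_iff_isUnit_det _).mpr h.isUnit
  have h2 : IsUnit (1 + Aᵀ) := by simpa using (isUnit_transpose _).mpr h1
  exact h2.mul_left_cancel (h1.mul_right_cancel e)

lemma cy_mem_sp {A : Mat g} (hA : A ∈ symplecticGroup (Fin g) ℝ) (h : (1 + A).det ≠ 0) :
    cy A ∈ sp g := by
  refine cancel_cy h ?_
  have h1 := SymplecticGroup.mem_iff'.mp hA
  rw [← Matrix.mul_assoc, cy_T h, mul_neg, neg_mul, Matrix.mul_assoc (1 + Aᵀ),
    Matrix.mul_assoc (JJ g), cy, Matrix.mul_assoc (1 - A), nonsing_inv_mul _ h.isUnit, mul_one]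
  simp only [mul_add, add_mul, mul_sub, sub_mul, mul_one, one_mul, ← Matrix.mul_assoc, h1]
  abel

lemma cy_mem_Sp {X : Mat g} (hX : X ∈ sp g) (h : (1 + X).det ≠ 0) :
    cy X ∈ symplecticGroup (Fin g) ℝ := by
  refine SymplecticGroup.mem_iff'.mpr (cancel_cy h ?_)
  rw [← Matrix.mul_assoc, ← Matrix.mul_assoc, cy_T h, Matrix.mul_assoc, cy,
    Matrix.mul_assoc (1 - X), nonsing_inv_mul _ h.isUnit, mul_one]
  simp only [mul_add, add_mul, mul_sub, sub_mul, mul_one, one_mul, mem_sp.mp hX]
  abel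

lemma contDiffAt_cy {A : Mat g} (h : (1 + A).det ≠ 0) : ContDiffAt ℝ ∞ cy A :=
  (contDiffAt_const.sub contDiffAt_id).mul
    ((contDiffAt_minv h).comp A (contDiffAt_const.add contDiffAt_id))

/-- The model space of the symplectic group. -/
abbrev Md (g : ℕ) : Type := EuclideanSpace ℝ (Fin (finrank ℝ (sp g)))

lemma exists_coord : ∃ (i : Md g →L[ℝ] Mat g) (l : Mat g →L[ℝ] Md g), (∀ y, i y ∈ sp g) ∧
    (∀ y, l (i y) = y) ∧ ∀ X ∈ sp g, i (l X) = X := by
  obtain ⟨l, hl⟩ := (sp g).subtype.exists_leftInverse_of_injective (sp g).ker_subtype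
  let e : sp g ≃ₗ[ℝ] Md g := LinearEquiv.ofFinrankEq _ _ (by simp)
  have hl' : ∀ X : sp g, l X.1 = X := fun X => LinearMap.congr_fun hl X
  refine ⟨LinearMap.toContinuousLinearMap ((sp g).subtype ∘ₗ e.symm.toLinearMap),
    LinearMap.toContinuousLinearMap (e.toLinearMap ∘ₗ l), fun y => (e.symm y).2, fun y => ?_,
    fun X hX => ?_⟩
  · change e (l (e.symm y).1) = y
    rw [hl', e.apply_symm_apply]
  · change (e.symm (e (l X))).1 = X
    rw [e.symm_apply_apply, hl' ⟨X, hX⟩]

lemma exists_chart : ∃ e : OpenPartialHomeomorph (Sp g) (Md g), 1 ∈ e.source ∧ e 1 = 0 ∧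
    Adapted (fun A : Sp g => A.1) e := by
  classical
  obtain ⟨i, l, h1, h2, h3⟩ := exists_coord (g := g)
  have hs : ContDiffOn ℝ ∞ (fun y => cy (i y)) {y | (1 + i y).det ≠ 0} := fun y hy =>
    ((contDiffAt_cy hy).comp y i.contDiff.contDiffAt).contDiffWithinAt
  have hi := i.continuous
  let ψ : Md g → Sp g := fun y => if h : (1 + i y).det ≠ 0 then ⟨_, cy_mem_Sp (h1 y) h⟩ else 1
  have hψ : ∀ y, (1 + i y).det ≠ 0 → (ψ y).1 = cy (i y) := fun y hy => by
    simp only [ψ, dif_pos hy]
  refine ⟨{ toFun := fun A => l (cy A.1)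
            invFun := ψ
            source := {A | (1 + A.1).det ≠ 0}
            target := {y | (1 + i y).det ≠ 0}
            map_source' := fun A hA => ?_
            map_target' := fun y hy => ?_
            left_inv' := fun A hA => ?_
            right_inv' := fun y hy => ?_
            open_source := isOpen_ne_fun
              (Continuous.matrix_det (continuous_const.add continuous_subtype_val)) continuous_const
            open_target := isOpen_ne_fun
              (Continuous.matrix_det (continuous_const.add hi)) continuous_const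
            continuousOn_toFun := fun A hA => ?_
            continuousOn_invFun := ?_ },
    ?_, ?_, hs.congr hψ, fun A => l (cy A), fun A hA =>
      ⟨l.contDiff.contDiffAt.comp _ (contDiffAt_cy hA), rfl⟩⟩
  · rw [mem_ofPred_eq, h3 _ (cy_mem_sp A.2 hA)]
    exact det_cy hA
  · rw [mem_ofPred_eq, hψ y hy]
    exact det_cy hy
  · apply Subtype.ext
    rw [hψ _ (by rw [h3 _ (cy_mem_sp A.2 hA)]; exact det_cy hA), h3 _ (cy_mem_sp A.2 hA), cy_cy hA]
  · rw [hψ y hy, cy_cy hy, h2]
  · exact (l.continuous.continuousAt.comp ((contDiffAt_cy hA).continuousAt.comp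
      (f := fun A : Sp g => A.1) continuous_subtype_val.continuousAt)).continuousWithinAt
  · rw [IsInducing.subtypeVal.continuousOn_iff]
    exact hs.continuousOn.congr hψ
  · change (1 + 1 : Mat g).det ≠ 0
    rw [← two_smul ℝ, det_smul, det_one]
    positivity
  · change l (cy 1) = 0
    rw [cy, sub_self, zero_mul, map_zero]

theorem exists_cover (g : ℕ) : ∃ (G : Type) (_ : Group G) (_ : TopologicalSpace G) (n : ℕ)
    (_ : ChartedSpace (EuclideanSpace ℝ (Fin n)) G) (_ : LieGroup (𝓡 n) ∞ G)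
    (_ : SimplyConnectedSpace G) (π : G →* Sp g), IsCoveringMap π ∧ Function.Surjective π ∧
    ∀ i j, ContMDiff (𝓡 n) 𝓘(ℝ, ℝ) ∞ fun a => (π a : Mat g) i j := by
  obtain ⟨e, h1, h0, h2, φ, h3⟩ := exists_chart (g := g)
  have cov := covering_ucp e h1 h0
  have h : ∀ a : UC (Sp g), ∃ c : OpenPartialHomeomorph (UC (Sp g)) (Md g), a ∈ c.source ∧
      Adapted (fun a => (ucp (Sp g) a).1) c := by
    intro a
    obtain ⟨q, hq, hq'⟩ := cov.isLocalHomeomorph a
    set A := ucp (Sp g) a with hA
    refine ⟨q ≫ₕ (Homeomorph.mulLeft A⁻¹).toOpenPartialHomeomorph ≫ₕ e, ⟨hq, mem_univ _, ?_⟩,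
      ?_, fun B => φ ((A⁻¹).1 * B), fun b hb => ?_⟩
    · change A⁻¹ * q a ∈ e.source
      rwa [← hq', ← hA, inv_mul_cancel]
    · refine ((contDiffOn_const (c := A.1)).mul (h2.mono fun y hy => hy.1.1)).congr fun y hy => ?_
      have := q.right_inv hy.2
      rw [← hq'] at this
      refine (congrArg Subtype.val this).trans ?_
      change (A⁻¹⁻¹ * e.symm y).1 = _
      rw [inv_inv]
      rfl
    · have hb' : A⁻¹ * q b ∈ e.source := hb.2.2
      rw [← hq'] at hb'
      refine ⟨ContDiffAt.comp (f := fun B : Mat g => (A⁻¹).1 * B) (g := φ) _ (h3 _ hb').1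
        (contDiffAt_const.mul contDiffAt_id), ?_⟩
      change e (A⁻¹ * q b) = _
      rw [← hq']
      exact (h3 _ hb').2
  let _ := immCs h
  have hm := imm_isManifold h
  have hs := imm_sm h (continuous_subtype_val.comp cov.continuous)
  refine ⟨UC (Sp g), inferInstance, inferInstance, _, immCs h,
    { contMDiff_mul := imm_mk h continuous_mul ?_, contMDiff_inv := imm_mk h continuous_inv ?_ },
    simplyConnected_UC cov, ucp _, cov, surjective_ucp,
    fun i j => hs.comp' fun _ => (contDiff_entry i j).contDiffAt⟩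
  · simp only [map_mul, Submonoid.coe_mul]
    exact (Sm.pair (hs.comp contMDiff_fst) (hs.comp contMDiff_snd)).comp'
      (F := fun p : Mat g × Mat g => p.1 * p.2) fun _ => contDiffAt_fst.mul contDiffAt_snd
  · simp only [map_inv, SymplecticGroup.coe_inv]
    refine hs.comp' (F := fun B : Mat g => -JJ g * Bᵀ * JJ g) fun _ => ?_
    have ht : ContDiff ℝ ∞ fun B : Mat g => Bᵀ := contDiff_mat.mpr fun i j => contDiff_entry j i
    exact (contDiffAt_const.mul ht.contDiffAt).mul contDiffAt_const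

end Pool.Agent.MP_609e33_gt.Up
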