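import Mathlib.Geometry.Manifold.Instances.Sphere
import Mathlib.Algebra.Group.Action.Sum
import Pool.Agent.MP_609e33_gt.h62.Coc

/-!
Closed manifolds of dimension `g (g + 1) / 2 + 1` with faithful actions.
-/

set_option autoImplicit false

open Matrix Module Set Topology Filter NormedSpace
open scoped Manifold ContDiff

namespace Pool.Agent.MP_609e33_gt.Up

attribute [local instance] Matrix.linftyOpNormedRing Matrix.linftyOpNormedAlgebra

variable {g : ℕ}

lemma connected_Lam : IsConnected (Lam g) := by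
  have h : Lam g = range fun p : ℝ × (Sym2 (Fin g) → ℝ) => (chL g p.1).ψ p.2 := by
    refine Subset.antisymm (fun W hW => ?_) (range_subset_iff.mpr fun p => (chL g p.1).mS _)
    obtain ⟨θ, hθ⟩ := exists_chL hW
    exact ⟨(θ, (chL g θ).φ W), (chL g θ).li W hW hθ⟩
  rw [h]
  exact isConnected_range ((contDiff_rr.continuous.comp continuous_fst.neg).mul
    (contDiff_st.continuous.comp continuous_snd))

lemma a0_Lam : a0 g ∈ Lam g := mem_of_blocks (X := 1) (Y := 0) (by simp) (by simp) (by simp)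
  (by simp)

lemma eq_of_fix {A : Sp g} (h : ∀ W, mobL A W = W) : A.1 = 1 ∨ A.1 = -1 := by
  have h1 : ∀ W ∈ Lam g, (1 - W) * A.1 * (1 + W) = 0 := fun W hW => by
    have := congrArg Subtype.val (h ⟨W, hW⟩)
    change mob A.1 W = W at this
    rw [Matrix.mul_assoc, mob_eq (det_den' A.2 hW), this, ← Matrix.mul_assoc, mul_add, sub_mul,
      sub_mul, hW.2]
    simp
  have h2 : ∀ W ∈ Lam g, A.1 * W = W * A.1 := fun W hW => by
    have k1 := h1 W hW
    have k2 := h1 (-W) ⟨(pp g).neg_mem hW.1, by rw [neg_mul_neg, hW.2]⟩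
    have k3 : (2 : ℝ) • (A.1 * W - W * A.1) = 0 := by
      rw [← sub_zero (0 : Mat g)]
      nth_rewrite 1 [← k1]
      rw [← k2, two_smul]
      noncomm_ring
    exact sub_eq_zero.mp ((smul_eq_zero.mp k3).resolve_left two_ne_zero)
  have hA := SymplecticGroup.mem_iff'.mp A.2
  generalize A.1 = B at *
  rw [← fromBlocks_toBlocks B] at h2 hA ⊢
  generalize B.toBlocks₁₁ = P, B.toBlocks₁₂ = Q, B.toBlocks₂₁ = R, B.toBlocks₂₂ = S at *
  have k1 := h2 _ a0_Lam
  have k2 := h2 _ (mem_of_blocks (X := 0) (Y := 1) (by simp) (by simp) (by simp) (by simp))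
  simp only [a0, fromBlocks_multiply, fromBlocks_inj, mul_one, one_mul, mul_zero, zero_mul,
    add_zero, zero_add, mul_neg, neg_mul, neg_zero] at k1 k2
  obtain rfl : Q = 0 := by
    have : (2 : ℝ) • Q = 0 := by rw [two_smul]; nth_rewrite 1 [← k1.2.1]; simp
    simpa using this
  obtain rfl : R = 0 := k2.1.symm
  obtain rfl : P = S := k2.2.1
  have k3 : ∀ X : Sq g, Xᵀ = X → X * X = 1 → Commute P X := fun X h3 h4 => by
    have := h2 _ (mem_of_blocks (X := X) (Y := 0) h3 (by simp) (by simp [h4]) (by simp))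
    simp only [fromBlocks_multiply, fromBlocks_inj, mul_zero, zero_mul, add_zero] at this
    exact this.1
  have k4 : ∀ i, Commute P (single i i 1) := fun i => by
    have := k3 (1 - (2 : ℝ) • single i i 1) (by simp) (by
      simp only [mul_sub, sub_mul, smul_mul_assoc, mul_smul_comm, one_mul, mul_one,
        single_mul_single_same]
      module)
    have e : (single i i 1 : Sq g) = (2⁻¹ : ℝ) • (1 - (1 - (2 : ℝ) • single i i 1)) := by module
    rw [e]
    exact ((Commute.one_right P).sub_right this).smul_right _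
  obtain ⟨c, hc⟩ : P ∈ range (scalar (Fin g)) := by
    refine mem_range_scalar_of_commute_single fun i j hij => ?_
    have := k3 (1 - single i i 1 - single j j 1 + single i j 1 + single j i 1)
      (by simp only [transpose_add, transpose_sub, transpose_one, transpose_single]; abel) (by
        simp only [mul_sub, sub_mul, mul_add, add_mul, one_mul, mul_one, single_mul_single_same,
          single_mul_single_of_ne _ _ _ _ hij, single_mul_single_of_ne _ _ _ _ hij.symm]
        abel)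
    have e : (single i j 1 : Sq g) = single i i 1 *
        (1 - single i i 1 - single j j 1 + single i j 1 + single j i 1) := by
      simp only [mul_sub, mul_add, mul_one, single_mul_single_same,
        single_mul_single_of_ne _ _ _ _ hij]
      abel
    change Commute (single i j 1) P
    rw [e]
    exact ((k4 i).mul_right this).symm
  have k5 : fromBlocks P 0 0 P = c • (1 : Mat g) := by
    rw [← hc, ← fromBlocks_one, fromBlocks_smul, smul_zero, scalar_apply, smul_one_eq_diagonal]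
  rw [k5] at hA ⊢
  rw [transpose_smul, transpose_one, smul_mul_assoc, one_mul, mul_smul_comm, mul_one,
    smul_smul] at hA
  rcases isEmpty_or_nonempty (Fin g) with he | ⟨⟨i⟩⟩
  · exact Or.inl (Subsingleton.elim _ _)
  · have := congrFun (congrFun hA (.inr i)) (.inl i)
    simp only [Matrix.J, Matrix.smul_apply, fromBlocks_apply₂₁, one_apply_eq, smul_eq_mul,
      mul_one] at this
    rcases mul_self_eq_one_iff.mp this with rfl | rfl <;> simp

universe u

variable {G : Type u} [Group G] [TopologicalSpace G] {n : ℕ}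
  [ChartedSpace (EuclideanSpace ℝ (Fin n)) G]

variable (G n) in
/-- A closed manifold of dimension `d` with a smooth action. -/
structure Mfd (d : ℕ) where
  M : Type
  [top : TopologicalSpace M]
  [t2 : T2Space M]
  [cpt : CompactSpace M]
  [cs : ChartedSpace (EuclideanSpace ℝ (Fin d)) M]
  [mf : IsManifold (𝓡 d) ∞ M]
  [act : MulAction G M]
  sm : ContMDiff ((𝓡 n).prod (𝓡 d)) (𝓡 d) ∞ fun p : G × M => p.1 • p.2

attribute [local instance] Mfd.top Mfd.t2 Mfd.cpt Mfd.cs Mfd.mf Mfd.act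

/-- The disjoint union. -/
noncomputable def Mfd.sum {d : ℕ} (X Y : Mfd G n d) : Mfd G n d where
  M := X.M ⊕ Y.M
  sm := by
    rintro ⟨a, x | y⟩
    · have h := (ContMDiff.inl (M' := Y.M)).comp (X.sm.comp (contMDiff_fst.prodMk
        ((contMDiff_id.sumElim (contMDiff_const (M := Y.M) (c := x))).comp contMDiff_snd)))
      refine (h (a, .inl x)).congr_of_eventuallyEq ?_
      filter_upwards [continuous_snd.continuousAt.eventually
        (isOpen_range_inl.mem_nhds (mem_range_self x))]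
      rintro ⟨b, _⟩ ⟨x', rfl⟩
      rfl
    · have h := (ContMDiff.inr (M := X.M)).comp (Y.sm.comp (contMDiff_fst.prodMk
        (((contMDiff_const (M := X.M) (c := y)).sumElim contMDiff_id).comp contMDiff_snd)))
      refine (h (a, .inr y)).congr_of_eventuallyEq ?_
      filter_upwards [continuous_snd.continuousAt.eventually
        (isOpen_range_inr.mem_nhds (mem_range_self y))]
      rintro ⟨b, _⟩ ⟨y', rfl⟩
      rfl

/-- A compact submanifold of a normed space with a smooth action. -/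
noncomputable def Mfd.ofSub {E : Type} [NormedAddCommGroup E] [NormedSpace ℝ E] {S : Set E} {d : ℕ}
    (h : IsSub S (EuclideanSpace ℝ (Fin d))) (hc : IsCompact S) (act : MulAction G S)
    (hs : ∀ (N : Type u) [TopologicalSpace N]
      [ChartedSpace (ModelProd (EuclideanSpace ℝ (Fin n)) (EuclideanSpace ℝ (Fin d))) N]
      (a : N → G) (x : N → S), ContMDiff ((𝓡 n).prod (𝓡 d)) (𝓡 n) ∞ a →
      Sm ((𝓡 n).prod (𝓡 d)) (fun y => (x y).1) →
      Sm ((𝓡 n).prod (𝓡 d)) fun y => (a y • x y).1) : Mfd G n d where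
  M := S
  cpt := isCompact_iff_compactSpace.mp hc
  cs := h.cs
  mf := h.isManifold
  act := act
  sm := by
    let _ := h.cs
    exact h.contMDiff_mk (hs (G × S) _ _ contMDiff_fst (h.contMDiff_val.comp contMDiff_snd))

section Lag

variable [IsTopologicalGroup G] [PreconnectedSpace G] {π : G →* Sp g} (C : Coc π)

/-- The action on the product of the Lagrangian Grassmannian and the circle. -/
@[reducible] noncomputable def act1 : MulAction G (Lam g ×ˢ Lam 1 : Set (Mat g × Mat 1)) where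
  smul a x := ⟨(mob (π a).1 x.1.1, rr 1 (√2 * (C.c (a, ⟨x.1.1, x.2.1⟩)).im) * x.1.2),
    mob_mem (π a).2 x.2.1, rr_mul_mem x.2.2 _⟩
  one_smul x := by
    refine Subtype.ext (Prod.ext ?_ ?_)
    · change mob (π 1).1 x.1.1 = x.1.1
      rw [map_one]
      exact mob_one x.2.1.1
    · change rr 1 (√2 * (C.c (1, ⟨x.1.1, x.2.1⟩)).im) * x.1.2 = x.1.2
      rw [C.one, Complex.zero_im, mul_zero, rr_zero, one_mul]
  mul_smul a b x := by
    refine Subtype.ext (Prod.ext ?_ ?_)
    · change mob (π (a * b)).1 x.1.1 = mob (π a).1 (mob (π b).1 x.1.1)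
      rw [map_mul]
      exact (mob_mul (π a).2 (π b).2 x.2.1).1
    · change rr 1 (√2 * (C.c (a * b, ⟨x.1.1, x.2.1⟩)).im) * x.1.2 =
        rr 1 (√2 * (C.c (a, mobL (π b) ⟨x.1.1, x.2.1⟩)).im) *
          (rr 1 (√2 * (C.c (b, ⟨x.1.1, x.2.1⟩)).im) * x.1.2)
      rw [C.mul, Complex.add_im, mul_add, rr_add, Matrix.mul_assoc]

omit [IsTopologicalGroup G] [PreconnectedSpace G] in
lemma sm_act1 {V : Type*} [NormedAddCommGroup V] [NormedSpace ℝ V] {H : Type*}
    [TopologicalSpace H] {I : ModelWithCorners ℝ V H} {N : Type*} [TopologicalSpace N]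
    [ChartedSpace H N] {a : N → G} (ha : Continuous a) (hA : Sm I fun x => (π (a x)).1)
    {W : N → Lam g} (hW : Sm I fun x => (W x).1) {U : N → Mat 1} (hU : Sm I U) :
    Sm I fun x => (mob (π (a x)).1 (W x).1, rr 1 (√2 * (C.c (a x, W x)).im) * U x) := by
  have h1 : Continuous W := hW.continuous.subtype_mk _
  have h2 : Sm I fun x => C.c (a x, W x) := by
    refine contMDiff_of_exp (C.cont.comp (ha.prodMk h1)) ?_
    simp only [C.ex]
    exact (hA.pair hW).comp' fun x => (contDiff_cdet.comp contDiff_den).contDiffAt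
  refine ((hA.pair hW).comp' fun x => contDiffAt_mob (det_den' (π (a x)).2 (W x).2)).pair ?_
  refine (h2.pair hU).comp' (F := fun p : ℂ × Mat 1 => rr 1 (√2 * p.1.im) * p.2) fun x => ?_
  exact ((contDiff_rr.comp (contDiff_const.mul
    (Complex.imCLM.contDiff.comp contDiff_fst))).mul contDiff_snd).contDiffAt

lemma isSub1 : IsSub (Lam g ×ˢ Lam 1) (EuclideanSpace ℝ (Fin (g * (g + 1) / 2 + 1))) :=
  (isSub_Lam.prod isSub_Lam).equiv (ContinuousLinearEquiv.ofFinrankEq (by
    simp [Sym2.card, Nat.choose_two_right, mul_comm]))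

/-- The product of the Lagrangian Grassmannian and the circle. -/
noncomputable def lag (hπ : ∀ i j, ContMDiff (𝓡 n) 𝓘(ℝ, ℝ) ∞ fun a => (π a : Mat g) i j) :
    Mfd G n (g * (g + 1) / 2 + 1) :=
  Mfd.ofSub isSub1 (isCompact_Lam.prod isCompact_Lam) (act1 C) fun _ _ _ _ x ha hx =>
    sm_act1 C ha.continuous ((contMDiff_mat hπ).comp ha) (W := fun y => ⟨(x y).1.1, (x y).2.1⟩)
      (hx.comp' fun _ => contDiffAt_fst) (hx.comp' fun _ => contDiffAt_snd)

lemma lag_connected (hπ : ∀ i j, ContMDiff (𝓡 n) 𝓘(ℝ, ℝ) ∞ fun a => (π a : Mat g) i j) :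
    ConnectedSpace (lag C hπ).M :=
  isConnected_iff_connectedSpace.mp (connected_Lam.prod connected_Lam)

lemma eq_one_of_ker (hg : 1 ≤ g) (L : ExpLift π) {a : G} (ha : π a = 1)
    (h : ∀ x, (act1 C).smul a x = x) : a = 1 := by
  let _ := act1 C
  obtain ⟨z, -, hz⟩ := L.exists_z0 hg
  obtain ⟨k, rfl⟩ : a ∈ Subgroup.zpowers z := ker_le L (fun P h1 h2 h3 => by
    obtain ⟨m, -, -, hm⟩ := hz P h1 h2 h3
    exact hm ▸ Subgroup.npow_mem_zpowers z m) ha
  obtain ⟨m, -, -, hm⟩ := hz 1 (by simp) (by simp) (by simp)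
  let x : (Lam g ×ˢ Lam 1 : Set (Mat g × Mat 1)) := ⟨(a0 g, a0 1), a0_Lam, a0_Lam⟩
  have h1 : (z ^ k) ^ m ∈ MulAction.stabilizer G x := pow_mem (h x) m
  rw [← zpow_natCast, ← _root_.zpow_mul, mul_comm, _root_.zpow_mul, zpow_natCast, ← hm,
    ← e_zsmul, smul_smul] at h1
  have h2 : rr 1 (√2 * (C.c (_, ⟨a0 g, a0_Lam⟩)).im) * a0 1 = a0 1 :=
    congrArg (fun y : (Lam g ×ˢ Lam 1 : Set (Mat g × Mat 1)) => y.1.2) h1
  rw [C.rot_eq] at h2
  have h3 := congrFun (congrFun h2 (.inl 0)) (.inl 0)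
  simp only [rr, a0, Matrix.J, add_mul, smul_mul_assoc, one_mul, fromBlocks_multiply,
    Matrix.add_apply, Matrix.smul_apply, fromBlocks_apply₁₁, one_apply_eq, smul_eq_mul, mul_one,
    mul_zero, add_zero, Matrix.zero_apply] at h3
  obtain ⟨r, hr⟩ := (Real.cos_eq_one_iff _).mp h3
  have h4 : k = 0 := by
    by_contra hk
    refine (irrational_sqrt_two.mul_intCast (m := g * k) (mul_ne_zero (by omega) hk)).ne_int r ?_
    refine mul_right_cancel₀ (b := 2 * Real.pi) (by positivity) (Eq.trans ?_ hr.symm)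
    simp
    ring
  rw [h4]
  exact zpow_zero z

lemma eq_one_of_odd (hg : Odd g) (L : ExpLift π) {a : G}
    (h : ∀ x, (act1 C).smul a x = x) : a = 1 := by
  let _ := act1 C
  have h1 : ∀ W, mobL (π a) W = W := fun W => Subtype.ext
    (congrArg (fun y : (Lam g ×ˢ Lam 1 : Set (Mat g × Mat 1)) => y.1.1)
      (h ⟨(W.1, a0 1), W.2, a0_Lam⟩))
  rcases eq_of_fix h1 with h2 | h2
  · exact eq_one_of_ker C hg.pos L (Subtype.ext h2) h
  · have h3 : a * a = 1 := eq_one_of_ker C hg.pos L (Subtype.ext (by simp [h2])) fun x => by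
      change (a * a) • x = x
      rw [mul_smul]
      exact (congrArg _ (h x)).trans (h x)
    have h4 := C.mul a a ⟨a0 g, a0_Lam⟩
    rw [h3, C.one, h1, ← two_mul, zero_eq_mul, or_iff_right two_ne_zero] at h4
    have h5 := C.ex a ⟨a0 g, a0_Lam⟩
    have h6 : rr g Real.pi = -1 := by simp [rr]
    rw [h4, h2, ← h6, den_of_lin (rr_J _) a0_Lam.1, cdet_rr, Complex.exp_nat_mul,
      Complex.exp_pi_mul_I, hg.neg_one_pow, Complex.exp_zero] at h5
    norm_num at h5

end Lag

section Sphere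

variable {ι : Type} [Fintype ι] [DecidableEq ι] (ρ : G →* Matrix ι ι ℝ)

/-- A matrix applied to a vector. -/
noncomputable def ap (B : Matrix ι ι ℝ) (x : EuclideanSpace ℝ ι) : EuclideanSpace ℝ ι :=
  WithLp.toLp 2 (B *ᵥ x.ofLp)

omit [TopologicalSpace G] in
lemma ap_ne_zero (a : G) {x : EuclideanSpace ℝ ι} (hx : x ≠ 0) : ap (ρ a) x ≠ 0 := by
  intro h
  have h1 := congrArg (fun y : EuclideanSpace ℝ ι => ρ a⁻¹ *ᵥ y.ofLp) h
  simp only [ap, mulVec_mulVec, ← map_mul, inv_mul_cancel, map_one, one_mulVec,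
    WithLp.ofLp_zero, mulVec_zero] at h1
  exact hx ((WithLp.ofLp_eq_zero 2).mp h1)

lemma contDiff_ap : ContDiff ℝ ∞ fun p : Matrix ι ι ℝ × EuclideanSpace ℝ ι => ap p.1 p.2 := by
  refine contDiff_euclidean.mpr fun i => ?_
  refine ContDiff.sum fun j _ => ((contDiff_entry i j).comp contDiff_fst).mul ?_
  exact (contDiff_euclidean.mp contDiff_id j).comp contDiff_snd

/-- The action on the sphere of rays. -/
@[reducible] noncomputable def act2 : MulAction G (Metric.sphere (0 : EuclideanSpace ℝ ι) 1) where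
  smul a x := ⟨‖ap (ρ a) x‖⁻¹ • ap (ρ a) x, by
    rw [mem_sphere_zero_iff_norm, norm_smul, norm_inv, norm_norm,
      inv_mul_cancel₀ (norm_ne_zero_iff.mpr (ap_ne_zero ρ a (ne_zero_of_mem_unit_sphere x)))]⟩
  one_smul x := by
    apply Subtype.ext
    change ‖ap (ρ 1) x‖⁻¹ • ap (ρ 1) x = x
    simp [ap]
  mul_smul a b x := by
    apply Subtype.ext
    change ‖ap (ρ (a * b)) x‖⁻¹ • ap (ρ (a * b)) x =
      ‖ap (ρ a) (‖ap (ρ b) x‖⁻¹ • ap (ρ b) x)‖⁻¹ • ap (ρ a) (‖ap (ρ b) x‖⁻¹ • ap (ρ b) x)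
    have h : ap (ρ a) (‖ap (ρ b) x‖⁻¹ • ap (ρ b) x) = ‖ap (ρ b) x‖⁻¹ • ap (ρ (a * b)) x := by
      simp [ap, mulVec_smul]
    have h0 := norm_ne_zero_iff.mpr (ap_ne_zero ρ b (ne_zero_of_mem_unit_sphere x))
    rw [h, norm_smul, norm_inv, norm_norm, smul_smul]
    congr 1
    field_simp

/-- The sphere of rays of a representation. -/
noncomputable def sph [IsManifold (𝓡 n) ∞ G] {d : ℕ} (hd : Fintype.card ι = d + 1)
    (hρ : ∀ i j, ContMDiff (𝓡 n) 𝓘(ℝ, ℝ) ∞ fun a => ρ a i j) : Mfd G n d :=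
  haveI : Fact (finrank ℝ (EuclideanSpace ℝ ι) = d + 1) := ⟨by simp [hd]⟩
  { M := Metric.sphere (0 : EuclideanSpace ℝ ι) 1
    mf := IsManifold.of_le (n := ω) le_top
    act := act2 ρ
    sm := by
      have : IsManifold (𝓡 d) ∞ (Metric.sphere (0 : EuclideanSpace ℝ ι) 1) :=
        IsManifold.of_le (n := ω) le_top
      have h1 : Sm ((𝓡 n).prod (𝓡 d))
          fun p : G × Metric.sphere (0 : EuclideanSpace ℝ ι) 1 => ap (ρ p.1) p.2 :=
        (Sm.pair ((contMDiff_mat hρ).comp contMDiff_fst)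
          (contMDiff_coe_sphere.comp contMDiff_snd)).comp' fun _ => contDiff_ap.contDiffAt
      exact ContMDiff.codRestrict_sphere (h1.comp' (F := fun y => ‖y‖⁻¹ • y) fun p =>
        have h := ap_ne_zero ρ p.1 (ne_zero_of_mem_unit_sphere p.2)
        ((contDiffAt_id.norm ℝ h).inv (norm_ne_zero_iff.mpr h)).smul contDiffAt_id) _ }

omit [TopologicalSpace G] in
lemma eigen_of_fix {a : G} (h : ∀ x, (act2 ρ).smul a x = x) {y : ι → ℝ} (hy : y ≠ 0) :
    ∃ c : ℝ, ρ a *ᵥ y = c • y := by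
  have h0 : (WithLp.toLp 2 y : EuclideanSpace ℝ ι) ≠ 0 := by simpa using hy
  have h1 := norm_ne_zero_iff.mpr h0
  let x : Metric.sphere (0 : EuclideanSpace ℝ ι) 1 := ⟨‖WithLp.toLp 2 y‖⁻¹ • WithLp.toLp 2 y, by
    rw [mem_sphere_zero_iff_norm, norm_smul, norm_inv, norm_norm, inv_mul_cancel₀ h1]⟩
  have h2 : ‖ap (ρ a) x‖⁻¹ • ap (ρ a) x = x := congrArg Subtype.val (h x)
  have h3 := norm_ne_zero_iff.mpr (ap_ne_zero ρ a (ne_zero_of_mem_unit_sphere x))
  rw [inv_smul_eq_iff₀ h3] at h2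
  refine ⟨‖ap (ρ a) x‖, ?_⟩
  generalize ‖ap (ρ a) x‖ = c at h2
  have h4 := congrArg (fun w : EuclideanSpace ℝ ι => ‖WithLp.toLp 2 y‖ • w.ofLp) h2
  simpa [x, ap, mulVec_smul, smul_comm c, smul_inv_smul₀ h1] using h4

end Sphere

/-- The standard representation plus a trivial one. -/
noncomputable def std (π : G →* Sp g) (k : ℕ) :
    G →* Matrix ((Fin g ⊕ Fin g) ⊕ Fin k) ((Fin g ⊕ Fin g) ⊕ Fin k) ℝ where
  toFun a := fromBlocks (π a).1 0 0 1
  map_one' := by simp
  map_mul' a b := by simp [fromBlocks_multiply]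

omit [TopologicalSpace G] in
lemma eq_one_of_std {π : G →* Sp g} {k : ℕ} {a : G}
    (h : ∀ x, (act2 (std π (k + 1))).smul a x = x) : π a = 1 := by
  refine Subtype.ext (Matrix.ext_iff_mulVec.mpr fun v => ?_)
  obtain ⟨c, hc⟩ := eigen_of_fix _ h (y := Sum.elim v 1) fun h0 =>
    one_ne_zero (congrFun h0 (.inr 0))
  change fromBlocks (π a).1 0 0 1 *ᵥ _ = _ at hc
  rw [fromBlocks_mulVec] at hc
  have h1 : c = 1 := by simpa using (congrFun hc (.inr 0)).symm
  funext i
  simpa [h1] using congrFun hc (.inl i)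

theorem exists_mfd (hg : 1 ≤ g) [IsTopologicalGroup G] [IsManifold (𝓡 n) ∞ G]
    [SimplyConnectedSpace G] {π : G →* Sp g} (hcov : IsCoveringMap π)
    (hπ : ∀ i j, ContMDiff (𝓡 n) 𝓘(ℝ, ℝ) ∞ fun a => (π a : Mat g) i j) :
    ∃ X : Mfd G n (g * (g + 1) / 2 + 1), FaithfulSMul G X.M ∧ (Odd g → ConnectedSpace X.M) := by
  have : LocallyPathConnectedSpace G :=
    ChartedSpace.locallyPathConnectedSpace (EuclideanSpace ℝ (Fin n)) G
  obtain ⟨L⟩ := exists_expLift hcov
  obtain ⟨C⟩ := exists_coc hcov.continuous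
  by_cases ho : Odd g
  · exact ⟨lag C hπ, faithfulSMul_iff.mpr fun a h => eq_one_of_odd C ho L h,
      fun _ => lag_connected C hπ⟩
  · obtain ⟨k, hk⟩ : ∃ k, g + g + (k + 1) = g * (g + 1) / 2 + 1 + 1 := by
      refine ⟨g * (g + 1) / 2 + 1 - (g + g), ?_⟩
      have : 2 * g - 1 ≤ g * (g + 1) / 2 := by
        rw [Nat.le_div_iff_mul_le two_pos]
        obtain ⟨m, rfl⟩ := Nat.exists_eq_add_of_le' hg
        rw [show 2 * (m + 1) - 1 = 2 * m + 1 by omega]
        rcases m with _ | m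
        · norm_num
        · nlinarith
      omega
    refine ⟨(lag C hπ).sum (sph (std π (k + 1)) (by simp [hk]) fun i j => ?_),
      faithfulSMul_iff.mpr fun a h => ?_, fun h => (ho h).elim⟩
    · rcases i with i | i <;> rcases j with j | j
      · exact hπ i j
      all_goals exact contMDiff_const
    · exact eq_one_of_ker C hg L (eq_one_of_std fun x => Sum.inr_injective (h (.inr x)))
        fun x => Sum.inl_injective (h (.inl x))

end Pool.Agent.MP_609e33_gt.Up
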